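import Pool.Agent.Helper56.CV.Defs

/-!
Project CV (MP_2e7a1b_nt), piece SF.

Fiberwise summation: group the tuples phi by nu = n o phi (Finset.sum_fiberwise_of_maps_to);
the fibre of nu is the piFinset of the fibres, card = product (Fintype.card_piFinset).
-/

namespace Pool.Agent.H56.CV

open Finset

theorem sum_fiber {ι : Type} [DecidableEq ι] (s : Finset ι) (n : ι → ℕ) (h : ℕ)
    (N : Finset ℕ) (hs : ∀ i ∈ s, n i ∈ N) (g : (Fin h → ℕ) → ℝ) :
    ∑ φ ∈ Fintype.piFinset (fun _ : Fin h => s), g (fun k => n (φ k)) =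
      ∑ ν ∈ Fintype.piFinset (fun _ : Fin h => N),
        (∏ k, ((s.filter (fun i => n i = ν k)).card : ℝ)) * g ν := by
  classical
  rw [← Finset.sum_fiberwise_of_maps_to (s := Fintype.piFinset (fun _ : Fin h => s))
    (t := Fintype.piFinset (fun _ : Fin h => N)) (g := fun φ => fun k => n (φ k))]
  · apply Finset.sum_congr rfl
    intro ν _
    have h1 : (Fintype.piFinset (fun _ : Fin h => s)).filter (fun φ => (fun k => n (φ k)) = ν) =
        Fintype.piFinset (fun k : Fin h => s.filter (fun i => n i = ν k)) := by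
      ext φ
      simp only [Finset.mem_filter, Fintype.mem_piFinset]
      constructor
      · rintro ⟨h1, h2⟩ k
        exact ⟨h1 k, congrFun h2 k⟩
      · intro h1
        exact ⟨fun k => (h1 k).1, funext fun k => (h1 k).2⟩
    rw [Finset.sum_congr rfl (g := fun _ => g ν) (fun φ hφ => by
      rw [(Finset.mem_filter.1 hφ).2]), Finset.sum_const, h1, nsmul_eq_mul,
      Fintype.card_piFinset]
    push_cast
    rfl
  · intro φ hφ
    rw [Fintype.mem_piFinset] at hφ ⊢
    exact fun k => hs _ (hφ k)

end Pool.Agent.H56.CV
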