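import Pool.Agent.Helper56.CV.PD
import Pool.Agent.Helper56.CV.SF

/-!
Project CV (MP_2e7a1b_nt), piece AD.

Conversion of product_distortion to residue classes.  m = a number above all moduli (of s and u) and
Y, F l = Fin (if l prime then l ^ e else 1) with e = m (so e is at least every exponent), T i = the prime
factors of n i, R i l = the y with y congruent to c i modulo l ^ (n i).factorization l (exactly
l ^ (e - v) elements, so rho i l = (l ^ v)^{-1}), top i = gpf (n i), sigma phi l = the reciprocal of
l ^ (max over k of the valuation of n (phi k)); prod over l <> q of 2 sigma = wt (Lc q (n o phi)).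
Terms j with j not prime or j >= Y vanish (empty filter, h >= 1).  Use sum_fiber to pass from tuples phi
of indices to tuples of moduli (definition of mom).  From the point of the product space get x by the
Chinese remainder theorem (Nat.chineseRemainderOfFinset or similar); x congruent to c i mod n i would
give x l in R i l for all l in T i.
-/

namespace Pool.Agent.H56.CV

open Finset

/-- size of a factor of the product space -/
private def AD_M (m l : ℕ) : ℕ := if l.Prime then l ^ m else 1

private theorem AD_M_pos (m l : ℕ) : 0 < AD_M m l := by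
  unfold AD_M
  split_ifs with h
  · exact pow_pos h.pos m
  · exact one_pos

private theorem AD_filter (m : ℕ) (p : ℕ → Prop) [DecidablePred p] :
    (univ.filter fun y : Fin m => p (y : ℕ)).map Fin.valEmbedding = (range m).filter p := by
  ext y
  simp only [mem_map, mem_filter, mem_univ, true_and, Fin.valEmbedding_apply, mem_range]
  constructor
  · rintro ⟨a, ha, rfl⟩
    exact ⟨a.2, ha⟩
  · rintro ⟨h1, h2⟩
    exact ⟨⟨y, h1⟩, h2, rfl⟩

private theorem AD_card (m l v c : ℕ) (hl : l.Prime) (hv : v ≤ m) :
    ((univ.filter fun y : Fin (AD_M m l) => (y : ℕ) ≡ c [MOD l ^ v]).card : ℝ) ≤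
      ((l : ℝ) ^ v)⁻¹ * Fintype.card (Fin (AD_M m l)) := by
  have hM : AD_M m l = l ^ v * l ^ (m - v) := by
    rw [AD_M, if_pos hl, ← pow_add, Nat.add_sub_cancel' hv]
  have hp : 0 < l ^ v := pow_pos hl.pos v
  have h1 : (univ.filter fun y : Fin (AD_M m l) => (y : ℕ) ≡ c [MOD l ^ v]).card
      = l ^ (m - v) := by
    have h2 : (univ.filter fun y : Fin (AD_M m l) => (y : ℕ) ≡ c [MOD l ^ v]).card =
        (AD_M m l).count (· ≡ c [MOD l ^ v]) := by
      rw [Nat.count_eq_card_filter_range, ← AD_filter, card_map]
    rw [h2, Nat.count_modEq_card _ hp, hM, Nat.mul_div_cancel_left _ hp, Nat.mul_mod_right]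
    simp
  rw [h1, Fintype.card_fin, hM]
  push_cast
  have hp' : (0 : ℝ) < (l : ℝ) ^ v := by
    have : (0 : ℝ) < l := by exact_mod_cast hl.pos
    positivity
  rw [← mul_assoc, inv_mul_cancel₀ hp'.ne', one_mul]

private theorem AD_gpf_mem {n : ℕ} (hn : 2 ≤ n) : gpf n ∈ n.primeFactors := by
  have h1 : n.primeFactors.Nonempty := Nat.nonempty_primeFactors.2 hn
  obtain ⟨i, hi, h2⟩ := Finset.exists_mem_eq_sup n.primeFactors h1 id
  rw [gpf, h2]
  exact hi

private theorem AD_le_gpf {n l : ℕ} (hl : l ∈ n.primeFactors) : l ≤ gpf n :=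
  Finset.le_sup (f := id) hl

private theorem AD_wt (m L : ℕ) (hL : 0 < L) (hLm : ∀ l ∈ L.primeFactors, l < m) :
    ∏ l ∈ univ.filter (fun l : Fin m => (l : ℕ) ∈ L.primeFactors),
      (2 * ((((l : ℕ) : ℝ)) ^ (L.factorization l))⁻¹) = wt L := by
  have h1 : ∏ l ∈ univ.filter (fun l : Fin m => (l : ℕ) ∈ L.primeFactors),
      (2 * ((((l : ℕ) : ℝ)) ^ (L.factorization l))⁻¹) =
      ∏ l ∈ L.primeFactors, (2 * (((l : ℝ)) ^ (L.factorization l))⁻¹) := by
    have h2 : L.primeFactors = (range m).filter (fun l => l ∈ L.primeFactors) := by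
      ext l
      rw [mem_filter, mem_range]
      exact ⟨fun h => ⟨hLm l h, h⟩, fun h => h.2⟩
    conv_rhs => rw [h2, ← AD_filter, prod_map]
    rfl
  rw [h1, prod_mul_distrib, prod_const, prod_inv_distrib, wt, div_eq_mul_inv]
  congr 2
  have h3 := Nat.prod_factorization_pow_eq_self hL.ne'
  conv_rhs => rw [← h3]
  rw [Finsupp.prod, Nat.support_factorization]
  push_cast
  rfl

private theorem AD_Lc_ne {q h : ℕ} (ν : Fin h → ℕ) (hν : ∀ k, 0 < ν k) : 0 < Lc q ν := by
  rw [Nat.pos_iff_ne_zero]
  intro h0
  rw [Lc, Finset.lcm_eq_zero_iff] at h0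
  obtain ⟨k, -, hk⟩ := h0
  exact (Nat.ordCompl_pos q (hν k).ne').ne' hk

private theorem AD_Lc_fac {q h : ℕ} (ν : Fin h → ℕ) (hν : ∀ k, 0 < ν k) (l : ℕ)
    (hl : l ≠ q) :
    (Lc q ν).factorization l = univ.sup fun k => (ν k).factorization l := by
  rw [Lc, Finset.factorization_lcm (fun k _ => (Nat.ordCompl_pos q (hν k).ne').ne')]
  apply Finset.sup_congr rfl
  intro k _
  rw [Nat.factorization_ordCompl, Finsupp.erase_ne hl]

private theorem AD_Lc_self {q h : ℕ} (ν : Fin h → ℕ) (hν : ∀ k, 0 < ν k) :
    (Lc q ν).factorization q = 0 := by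
  rw [Lc, Finset.factorization_lcm (fun k _ => (Nat.ordCompl_pos q (hν k).ne').ne')]
  have h1 : (fun k => (ordCompl[q] (ν k)).factorization q) = fun _ : Fin h => 0 := by
    funext k
    rw [Nat.factorization_ordCompl, Finsupp.erase_same]
  change univ.sup (fun k => (ordCompl[q] (ν k)).factorization q) = 0
  rw [h1]
  simp

private theorem AD_mem_pf {L l : ℕ} :
    l ∈ L.primeFactors ↔ L.factorization l ≠ 0 := by
  rw [← Nat.support_factorization, Finsupp.mem_support_iff]

theorem ap_distortion {ι : Type} [DecidableEq ι] (s u : Finset ι) (n c : ι → ℕ) (K Y h : ℕ)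
    (hK : 2 ≤ K) (hh : 1 ≤ h) (hs : ∀ i ∈ s, K ≤ n i ∧ n i < Y) (hu : ∀ i ∈ u, 0 < n i)
    (hsum : distSum h K Y (fun m => ((s.filter (fun i => n i = m)).card : ℝ))
      + ∑ i ∈ u, wt (n i) < 1) :
    ∃ x : ℕ, ∀ i ∈ s ∪ u, ¬ x ≡ c i [MOD n i] := by
  classical
  set m : ℕ := (∑ i ∈ s ∪ u, n i) + Y + 1 with hm
  have hm0 : 0 < m := by omega
  have hnm : ∀ i ∈ s ∪ u, n i < m := by
    intro i hi
    have := Finset.single_le_sum (f := n) (fun j _ => Nat.zero_le _) hi
    omega
  have hn0 : ∀ i ∈ s ∪ u, 0 < n i := by
    intro i hi
    rcases mem_union.1 hi with h | h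
    · have := (hs i h).1; omega
    · exact hu i h
  have hpfm : ∀ i ∈ s ∪ u, ∀ l ∈ (n i).primeFactors, l < m := by
    intro i hi l hl
    exact (Nat.le_of_mem_primeFactors hl).trans_lt (hnm i hi)
  have hvm : ∀ i ∈ s ∪ u, ∀ l, (n i).factorization l ≤ m := by
    intro i hi l
    exact (Nat.factorization_lt l (hn0 i hi).ne').le.trans (hnm i hi).le
  let F : Fin m → Type := fun l => Fin (AD_M m l)
  have hne : ∀ l, Nonempty (F l) := fun l => ⟨⟨0, AD_M_pos m l⟩⟩
  let T : ι → Finset (Fin m) := fun i => univ.filter fun l : Fin m => (l : ℕ) ∈ (n i).primeFactors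
  let R : ι → (l : Fin m) → Finset (F l) := fun i l =>
    univ.filter fun y : Fin (AD_M m l) => (y : ℕ) ≡ c i [MOD (l : ℕ) ^ (n i).factorization l]
  let top : ι → Fin m := fun i => ⟨gpf (n i) % m, Nat.mod_lt _ hm0⟩
  have htopv : ∀ i ∈ s, ((top i : Fin m) : ℕ) = gpf (n i) := by
    intro i hi
    have h1 : 2 ≤ n i := hK.trans (hs i hi).1
    have h2 := hpfm i (mem_union_left _ hi) _ (AD_gpf_mem h1)
    exact Nat.mod_eq_of_lt h2
  have hT : ∀ i l, l ∈ T i ↔ (l : ℕ) ∈ (n i).primeFactors := by
    intro i l
    simp [T]
  let ρ : ι → Fin m → ℝ := fun i l => (((l : ℕ) : ℝ) ^ (n i).factorization l)⁻¹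
  let σ : (Fin h → ι) → Fin m → ℝ := fun φ l =>
    (((l : ℕ) : ℝ) ^ (univ.sup fun k => (n (φ k)).factorization l))⁻¹
  have hnek : (univ : Finset (Fin h)).Nonempty := ⟨⟨0, hh⟩, mem_univ _⟩
  have key : ∃ x : (l : Fin m) → F l, ∀ i ∈ s ∪ u, ∃ l ∈ T i, x l ∉ R i l := by
    refine product_distortion F s u T R top ?_ ?_ ρ ?_ h hh σ ?_ ?_
    · intro i hi
      rw [hT, htopv i hi]
      exact AD_gpf_mem (hK.trans (hs i hi).1)
    · intro i hi l hl
      rw [Fin.le_def, htopv i hi]
      exact AD_le_gpf ((hT i l).1 hl)
    · intro i hi l hl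
      exact AD_card m l _ _ (Nat.prime_of_mem_primeFactors ((hT i l).1 hl)) (hvm i hi l)
    · intro φ hφ l hl
      obtain ⟨k₀, hk₀⟩ := hl
      obtain ⟨k, -, hk⟩ := Finset.exists_mem_eq_sup univ hnek
        (fun k => (n (φ k)).factorization l)
      refine ⟨k, ?_, ?_⟩
      · rw [hT, AD_mem_pf]
        rw [hT, AD_mem_pf] at hk₀
        have h1 : (n (φ k₀)).factorization l ≤ univ.sup fun k => (n (φ k)).factorization l :=
          Finset.le_sup (f := fun k => (n (φ k)).factorization l) (mem_univ k₀)
        rw [hk] at h1
        have h2 : (n (φ k₀)).factorization l ≤ (n (φ k)).factorization l := h1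
        omega
      · simp only [ρ, σ]
        rw [hk]
    · -- the sum
      refine lt_of_le_of_lt ?_ hsum
      apply add_le_add
      · have hterm : ∀ j : Fin m, 2 ^ h *
            ∑ φ ∈ Fintype.piFinset (fun _ : Fin h => s.filter (fun i => top i = j)),
              (∏ k, ρ (φ k) j) *
                ∏ l ∈ (Finset.univ.biUnion fun k => T (φ k)).erase j, (2 * σ φ l) =
            (if (j : ℕ) ∈ Y.primesBelow then 2 ^ h * mom h j K Y
              (fun m => ((s.filter (fun i => n i = m)).card : ℝ)) else 0) := by
          intro j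
          by_cases hj : (j : ℕ) ∈ Y.primesBelow
          · rw [if_pos hj]
            have hjp : (j : ℕ).Prime := Nat.prime_of_mem_primesBelow hj
            congr 1
            have h1 : ∀ φ ∈ Fintype.piFinset (fun _ : Fin h => s.filter (fun i => top i = j)),
                (∏ k, ρ (φ k) j) *
                  ∏ l ∈ (Finset.univ.biUnion fun k => T (φ k)).erase j, (2 * σ φ l) =
                tw (j : ℕ) (fun k => n (φ k)) := by
              intro φ hφ
              rw [Fintype.mem_piFinset] at hφ
              have hφs : ∀ k, φ k ∈ s := fun k => (mem_filter.1 (hφ k)).1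
              have hpos : ∀ k, 0 < n (φ k) := fun k => hn0 _ (mem_union_left _ (hφs k))
              have hLpos : 0 < Lc (j : ℕ) (fun k => n (φ k)) := AD_Lc_ne _ hpos
              rw [tw]
              congr 1
              have hset : (Finset.univ.biUnion fun k => T (φ k)).erase j =
                  univ.filter (fun l : Fin m => (l : ℕ) ∈
                    (Lc (j : ℕ) (fun k => n (φ k))).primeFactors) := by
                ext l
                rw [mem_erase, mem_biUnion, mem_filter, AD_mem_pf]
                by_cases hlj : l = j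
                · subst hlj
                  rw [AD_Lc_self _ hpos]
                  simp
                · have hlj' : (l : ℕ) ≠ (j : ℕ) := fun h => hlj (Fin.ext h)
                  rw [AD_Lc_fac _ hpos _ hlj']
                  constructor
                  · rintro ⟨-, k, -, hk⟩
                    rw [hT, AD_mem_pf] at hk
                    refine ⟨mem_univ _, ?_⟩
                    have h1 : (n (φ k)).factorization l ≤
                        univ.sup fun k => (n (φ k)).factorization l :=
                      Finset.le_sup (f := fun k => (n (φ k)).factorization l) (mem_univ k)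
                    omega
                  · rintro ⟨-, h0⟩
                    refine ⟨hlj, ?_⟩
                    obtain ⟨k, -, hk⟩ := Finset.exists_mem_eq_sup univ hnek
                      (fun k => (n (φ k)).factorization l)
                    refine ⟨k, mem_univ _, ?_⟩
                    rw [hT, AD_mem_pf]
                    rw [hk] at h0
                    exact h0
              rw [hset, ← AD_wt m (Lc (j : ℕ) (fun k => n (φ k))) hLpos ?_]
              · apply prod_congr rfl
                intro l hl
                have hlj' : (l : ℕ) ≠ (j : ℕ) := by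
                  intro h
                  rw [mem_filter, AD_mem_pf, h, AD_Lc_self _ hpos] at hl
                  exact hl.2 rfl
                rw [AD_Lc_fac _ hpos _ hlj']
              · intro l hl
                have hlj' : l ≠ (j : ℕ) := by
                  intro h
                  rw [AD_mem_pf, h, AD_Lc_self _ hpos] at hl
                  exact hl rfl
                rw [AD_mem_pf, AD_Lc_fac _ hpos _ hlj'] at hl
                obtain ⟨k, -, hk⟩ := Finset.exists_mem_eq_sup univ hnek
                  (fun k => (n (φ k)).factorization l)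
                rw [hk] at hl
                exact hpfm (φ k) (mem_union_left _ (hφs k)) l (AD_mem_pf.2 hl)
            rw [sum_congr rfl h1]
            rw [sum_fiber (s.filter (fun i => top i = j)) n h
              ((Finset.Ico K Y).filter (fun n => gpf n = j)) ?_ (fun ν => tw (j : ℕ) ν)]
            · rw [mom]
              apply sum_congr rfl
              intro ν hν
              rw [Fintype.mem_piFinset] at hν
              congr 1
              apply prod_congr rfl
              intro k _
              congr 2
              ext i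
              simp only [mem_filter]
              constructor
              · rintro ⟨⟨h1, -⟩, h2⟩
                exact ⟨h1, h2⟩
              · rintro ⟨h1, h2⟩
                refine ⟨⟨h1, Fin.ext ?_⟩, h2⟩
                rw [htopv i h1, h2]
                exact (mem_filter.1 (hν k)).2
            · intro i hi
              rw [mem_filter] at hi
              rw [mem_filter, mem_Ico]
              refine ⟨hs i hi.1, ?_⟩
              rw [← htopv i hi.1, hi.2]
          · rw [if_neg hj]
            have hemp : s.filter (fun i => top i = j) = ∅ := by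
              rw [filter_eq_empty_iff]
              intro i hi hij
              apply hj
              rw [Nat.mem_primesBelow, ← hij, htopv i hi]
              have h1 := AD_gpf_mem (hK.trans (hs i hi).1)
              exact ⟨(Nat.le_of_mem_primeFactors h1).trans_lt (hs i hi).2,
                Nat.prime_of_mem_primeFactors h1⟩
            rw [hemp]
            have h2 : Fintype.piFinset (fun _ : Fin h => (∅ : Finset ι)) = ∅ := by
              rw [Finset.eq_empty_iff_forall_notMem]
              intro φ hφ
              rw [Fintype.mem_piFinset] at hφ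
              exact notMem_empty _ (hφ ⟨0, hh⟩)
            rw [h2]
            simp
        rw [sum_congr rfl (fun j _ => hterm j)]
        rw [Fin.sum_univ_eq_sum_range (fun j => if j ∈ Y.primesBelow then 2 ^ h * mom h j K Y
              (fun m => ((s.filter (fun i => n i = m)).card : ℝ)) else 0) m]
        rw [distSum, ← sum_filter]
        apply le_of_eq
        apply sum_congr _ (fun _ _ => rfl)
        ext q
        rw [mem_filter, mem_range]
        constructor
        · exact fun h => h.2
        · intro h
          refine ⟨?_, h⟩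
          have := Nat.lt_of_mem_primesBelow h
          omega
      · apply sum_le_sum
        intro i hi
        apply le_of_eq
        have hi' : i ∈ s ∪ u := mem_union_right _ hi
        exact AD_wt m (n i) (hn0 i hi') (hpfm i hi')
  obtain ⟨x, hx⟩ := key
  have hcr := Nat.chineseRemainderOfFinset (fun l : Fin m => ((x l : Fin (AD_M m l)) : ℕ))
    (fun l : Fin m => AD_M m l) univ (fun l _ => (AD_M_pos m l).ne') (by
      intro a _ b _ hab
      change Nat.Coprime (AD_M m a) (AD_M m b)
      unfold AD_M
      split_ifs with h1 h2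
      · exact Nat.Coprime.pow _ _ ((Nat.coprime_primes h1 h2).2 (fun h => hab (Fin.ext h)))
      · exact Nat.coprime_one_right _
      · exact Nat.coprime_one_left _
      · exact Nat.coprime_one_left _)
  obtain ⟨z, hz⟩ := hcr
  refine ⟨z, fun i hi hzi => ?_⟩
  obtain ⟨l, hl, hlR⟩ := hx i hi
  apply hlR
  have hlp : (l : ℕ).Prime := Nat.prime_of_mem_primeFactors ((hT i l).1 hl)
  simp only [R, mem_filter, mem_univ, true_and]
  have h1 : z ≡ c i [MOD (l : ℕ) ^ (n i).factorization l] :=
    hzi.of_dvd (Nat.ordProj_dvd (n i) l)
  have h2 : z ≡ ((x l : Fin (AD_M m l)) : ℕ) [MOD (l : ℕ) ^ (n i).factorization l] := by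
    refine (hz l (mem_univ _)).of_dvd ?_
    rw [AD_M, if_pos hlp]
    exact pow_dvd_pow _ (hvm i hi l)
  exact h2.symm.trans h1

end Pool.Agent.H56.CV
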