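import Pool.Agent.Helper56.CV.AV

/-!
Project CV (MP_2e7a1b_nt), piece AV2: averages of the moment sums.
-/

namespace Pool.Agent.H56.CV

open Finset

private theorem AV_amgm {h : ℕ} (hh : 1 ≤ h) (x : Fin h → ℝ) (hx : ∀ k, 0 ≤ x k) :
    ∏ k, x k ≤ (1 / (h : ℝ)) * ∑ k, x k ^ h := by
  have hpos : (0 : ℝ) < h := by exact_mod_cast hh
  have h1 := Real.geom_mean_le_arith_mean_weighted (Finset.univ : Finset (Fin h))
    (fun _ => 1 / (h : ℝ)) (fun k => x k ^ h) (fun _ _ => by positivity)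
    (by simp [hpos.ne']) (fun k _ => pow_nonneg (hx k) h)
  have h2 : ∀ k, (x k ^ h) ^ (1 / (h : ℝ)) = x k := by
    intro k
    rw [← Real.rpow_natCast, ← Real.rpow_mul (hx k)]
    rw [mul_one_div_cancel hpos.ne', Real.rpow_one]
  simp only [h2] at h1
  rw [Finset.mul_sum]
  exact h1

private theorem AV_tuple {h K Y : ℕ} (hh : 1 ≤ h) (Ts : Finset ℕ) (k : ℕ → ℕ → ℝ)
    (hk : ∀ t n, 0 ≤ k t n) (f : ℕ → ℝ) (A : ℝ)
    (hf : ∀ n, K ≤ n → n < Y → 0 < f n)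
    (hmom : ∀ n, K ≤ n → n < Y → ∑ t ∈ Ts, (k t n) ^ h ≤ A * (f n) ^ h)
    (ν : Fin h → ℕ) (hν : ∀ i, K ≤ ν i ∧ ν i < Y) :
    ∑ t ∈ Ts, ∏ i, k t (ν i) ≤ A * ∏ i, f (ν i) := by
  have hpos : (0 : ℝ) < h := by exact_mod_cast hh
  have hfp : ∀ i, 0 < f (ν i) := fun i => hf _ (hν i).1 (hν i).2
  have hP : 0 < ∏ i, f (ν i) := Finset.prod_pos fun i _ => hfp i
  have h1 : ∀ t, ∏ i, k t (ν i) ≤
      ((1 / (h : ℝ)) * ∑ i, (k t (ν i) / f (ν i)) ^ h) * ∏ i, f (ν i) := by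
    intro t
    have h2 := AV_amgm hh (fun i => k t (ν i) / f (ν i))
      (fun i => div_nonneg (hk _ _) (hfp i).le)
    have h3 : ∏ i, k t (ν i) = (∏ i, (k t (ν i) / f (ν i))) * ∏ i, f (ν i) := by
      rw [← Finset.prod_mul_distrib]
      refine Finset.prod_congr rfl fun i _ => ?_
      rw [div_mul_cancel₀ _ (hfp i).ne']
    rw [h3]
    exact mul_le_mul_of_nonneg_right h2 hP.le
  calc ∑ t ∈ Ts, ∏ i, k t (ν i)
      ≤ ∑ t ∈ Ts, ((1 / (h : ℝ)) * ∑ i, (k t (ν i) / f (ν i)) ^ h) * ∏ i, f (ν i) :=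
        Finset.sum_le_sum fun t _ => h1 t
    _ = ((1 / (h : ℝ)) * ∑ i, ∑ t ∈ Ts, (k t (ν i) / f (ν i)) ^ h) * ∏ i, f (ν i) := by
        rw [← Finset.sum_mul, ← Finset.mul_sum, Finset.sum_comm]
    _ ≤ ((1 / (h : ℝ)) * ∑ _i : Fin h, A) * ∏ i, f (ν i) := by
        refine mul_le_mul_of_nonneg_right (mul_le_mul_of_nonneg_left
          (Finset.sum_le_sum fun i _ => ?_) (by positivity)) hP.le
        have h4 := hmom _ (hν i).1 (hν i).2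
        have h5 : ∑ t ∈ Ts, (k t (ν i) / f (ν i)) ^ h =
            (∑ t ∈ Ts, (k t (ν i)) ^ h) / (f (ν i)) ^ h := by
          rw [Finset.sum_div]
          refine Finset.sum_congr rfl fun t _ => div_pow _ _ _
        rw [h5, div_le_iff₀ (pow_pos (hfp i) h)]
        exact h4
    _ = A * ∏ i, f (ν i) := by
        rw [Finset.sum_const, Finset.card_univ, Fintype.card_fin, nsmul_eq_mul, one_div,
          inv_mul_cancel_left₀ hpos.ne']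

private theorem AV_mem {h K Y q : ℕ} {ν : Fin h → ℕ}
    (hν : ν ∈ Fintype.piFinset (fun _ : Fin h =>
      (Finset.Ico K Y).filter (fun n => gpf n = q))) (i : Fin h) : K ≤ ν i ∧ ν i < Y := by
  have h1 := Fintype.mem_piFinset.1 hν i
  exact Finset.mem_Ico.1 (Finset.mem_filter.1 h1).1

theorem mom_nonneg (h q K Y : ℕ) (f : ℕ → ℝ) (hf : ∀ n, 0 ≤ f n) : 0 ≤ mom h q K Y f := by
  unfold mom
  exact Finset.sum_nonneg fun ν _ =>
    mul_nonneg (Finset.prod_nonneg fun k _ => hf _) (tw_nonneg q ν)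

theorem mom_mono (h q K Y : ℕ) (f g : ℕ → ℝ) (hf : ∀ n, 0 ≤ f n)
    (hfg : ∀ n, K ≤ n → n < Y → gpf n = q → f n ≤ g n) : mom h q K Y f ≤ mom h q K Y g := by
  unfold mom
  refine Finset.sum_le_sum fun ν hν => mul_le_mul_of_nonneg_right ?_ (tw_nonneg q ν)
  refine Finset.prod_le_prod (fun k _ => hf _) fun k _ => ?_
  have h1 := Finset.mem_filter.1 (Fintype.mem_piFinset.1 hν k)
  rw [Finset.mem_Ico] at h1
  exact hfg _ h1.1.1 h1.1.2 h1.2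

theorem mom_zero (h q K Y : ℕ) (hh : 1 ≤ h) (f : ℕ → ℝ)
    (hf : ∀ n, K ≤ n → n < Y → gpf n = q → f n = 0) : mom h q K Y f = 0 := by
  unfold mom
  refine Finset.sum_eq_zero fun ν hν => ?_
  have h1 := Finset.mem_filter.1 (Fintype.mem_piFinset.1 hν ⟨0, hh⟩)
  rw [Finset.mem_Ico] at h1
  rw [Finset.prod_eq_zero (Finset.mem_univ (⟨0, hh⟩ : Fin h)) (hf _ h1.1.1 h1.1.2 h1.2), zero_mul]

theorem avg_mom (h q K Y : ℕ) (hh : 1 ≤ h) (Ts : Finset ℕ) (k : ℕ → ℕ → ℝ)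
    (hk : ∀ t n, 0 ≤ k t n) (f : ℕ → ℝ) (A : ℝ)
    (hf : ∀ n, K ≤ n → n < Y → 0 < f n)
    (hmom : ∀ n, K ≤ n → n < Y → ∑ t ∈ Ts, (k t n) ^ h ≤ A * (f n) ^ h) :
    ∑ t ∈ Ts, mom h q K Y (k t) ≤ A * mom h q K Y f := by
  unfold mom
  rw [Finset.sum_comm, Finset.mul_sum]
  refine Finset.sum_le_sum fun ν hν => ?_
  rw [← Finset.sum_mul, ← mul_assoc]
  exact mul_le_mul_of_nonneg_right
    (AV_tuple hh Ts k hk f A hf hmom ν (AV_mem hν)) (tw_nonneg q ν)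

end Pool.Agent.H56.CV
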