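import Pool.Agent.Helper56.CV.HC

/-!
Project CV (MP_2e7a1b_nt), piece CA.

card_kills: for p = 2 there are no kills (odd numbers).  For p odd, r is a kill iff
r^4 = -2^{-(4j+2)} in ZMod p for some j < ord2 p, and for each j there are at most 4 such r
(roots of X^4 - c, Polynomial.card_roots' or nthRoots).
-/

namespace Pool.Agent.H56.CV

open Finset

private theorem CA_two (r : ℕ) : ¬ Kills r 2 := by
  rintro ⟨j, hj⟩
  have h1 : 2 ∣ r ^ 4 * 2 ^ (4 * j + 2) := by
    apply Dvd.dvd.mul_left
    exact dvd_pow_self 2 (by omega)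
  omega

private theorem CA_root {p : ℕ} [hp : Fact p.Prime] (c : ZMod p) :
    ((Finset.range p).filter (fun r : ℕ => (r : ZMod p) ^ 4 = c)).card ≤ 4 := by
  have h1 : ((Finset.range p).filter (fun r : ℕ => (r : ZMod p) ^ 4 = c)).card ≤
      (Polynomial.nthRoots 4 c).toFinset.card := by
    apply Finset.card_le_card_of_injOn (fun r : ℕ => (r : ZMod p))
    · intro r hr
      simp only [Finset.coe_filter, Set.mem_ofPred_eq] at hr
      simp only [Finset.mem_coe, Multiset.mem_toFinset]
      rw [Polynomial.mem_nthRoots (by norm_num)]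
      exact hr.2
    · intro r hr s hs hrs
      simp only [Finset.coe_filter, Set.mem_ofPred_eq, Finset.mem_range] at hr hs
      have h2 := (ZMod.natCast_eq_natCast_iff' r s p).1 hrs
      rwa [Nat.mod_eq_of_lt hr.1, Nat.mod_eq_of_lt hs.1] at h2
  exact h1.trans ((Multiset.toFinset_card_le _).trans (Polynomial.card_nthRoots 4 c))

/-- The 4th roots: `r ^ 4 = -2^{-(4j+2)}` has at most 4 solutions for each `j` modulo `ord2 p`. -/
theorem card_kills (p : ℕ) (hp : p.Prime) :
    letI := Classical.decPred (fun r => Kills r p)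
    ((Finset.range p).filter (fun r => Kills r p)).card ≤ 4 * ord2 p := by
  letI := Classical.decPred (fun r => Kills r p)
  show ((Finset.range p).filter (fun r => Kills r p)).card ≤ 4 * ord2 p
  rcases hp.eq_two_or_odd with rfl | hodd
  · rw [Finset.filter_false_of_mem fun r _ => CA_two r]
    simp
  have : Fact p.Prime := ⟨hp⟩
  have h2 : (2 : ZMod p) ≠ 0 := by
    intro h
    have h3 : ((2 : ℕ) : ZMod p) = 0 := by exact_mod_cast h
    have h4 := (ZMod.natCast_eq_zero_iff 2 p).1 h3
    have h5 := Nat.le_of_dvd (by norm_num) h4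
    have := hp.two_le
    omega
  have hord : 0 < ord2 p := by
    unfold ord2
    rw [← Units.val_mk0 h2, orderOf_units]
    exact orderOf_pos _
  have hsub : ((Finset.range p).filter (fun r => Kills r p)) ⊆
      (Finset.range (ord2 p)).biUnion fun j =>
        (Finset.range p).filter (fun r : ℕ => (r : ZMod p) ^ 4 = - ((2 : ZMod p) ^ (4 * j + 2))⁻¹) := by
    intro r hr
    obtain ⟨hr1, j, hj⟩ := Finset.mem_filter.1 hr
    rw [Finset.mem_biUnion]
    refine ⟨j % ord2 p, Finset.mem_range.2 (Nat.mod_lt _ hord), Finset.mem_filter.2 ⟨hr1, ?_⟩⟩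
    have h3 : ((r ^ 4 * 2 ^ (4 * j + 2) + 1 : ℕ) : ZMod p) = 0 :=
      (ZMod.natCast_eq_zero_iff _ _).2 hj
    push_cast at h3
    have h4 : (2 : ZMod p) ^ (4 * j + 2) = 2 ^ (4 * (j % ord2 p) + 2) := by
      have h5 : 4 * j + 2 = ord2 p * (4 * (j / ord2 p)) + (4 * (j % ord2 p) + 2) := by
        have h6 := Nat.div_add_mod j (ord2 p)
        calc 4 * j + 2 = 4 * (ord2 p * (j / ord2 p) + j % ord2 p) + 2 := by rw [h6]
          _ = _ := by ring
      rw [h5, pow_add, pow_mul, show (2 : ZMod p) ^ ord2 p = 1 from pow_orderOf_eq_one _, one_pow,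
        one_mul]
    rw [← h4, eq_neg_iff_add_eq_zero]
    have h7 : (2 : ZMod p) ^ (4 * j + 2) ≠ 0 := pow_ne_zero _ h2
    have h8 : ((r : ZMod p) ^ 4 + ((2 : ZMod p) ^ (4 * j + 2))⁻¹) * (2 : ZMod p) ^ (4 * j + 2) = 0 := by
      rw [add_mul, inv_mul_cancel₀ h7]
      exact h3
    exact (mul_eq_zero.1 h8).resolve_right h7
  calc ((Finset.range p).filter (fun r => Kills r p)).card ≤ _ := Finset.card_le_card hsub
    _ ≤ ∑ j ∈ Finset.range (ord2 p), ((Finset.range p).filter
        (fun r : ℕ => (r : ZMod p) ^ 4 = - ((2 : ZMod p) ^ (4 * j + 2))⁻¹)).card :=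
      Finset.card_biUnion_le
    _ ≤ ∑ j ∈ Finset.range (ord2 p), 4 := Finset.sum_le_sum fun j _ => CA_root _
    _ = 4 * ord2 p := by rw [Finset.sum_const, Finset.card_range, smul_eq_mul]; ring

end Pool.Agent.H56.CV
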