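import Pool.Agent.Helper56.CV.CA

/-!
Project CV (MP_2e7a1b_nt), piece CL.

The t < X with t = a mod M, and Kills t p for all p in Q depend only on t mod M and t mod p; by CRT they lie
in at most prod |{r < p : Kills r p}| <= prod 4 ord2 p residue classes modulo M prod p, each with at most
X/(M prod p) + 1 elements below X (Nat.count_modEq_card or an injection).  Suggested: induct on Q with M
replaced by M * p, general statement: for every residue a.
-/

namespace Pool.Agent.H56.CV

open Finset

private theorem CL_filter (X : ℕ) (P : ℕ → Prop) (d1 d2 : DecidablePred P) :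
    (@Finset.filter ℕ P d1 (Finset.range X)).card = (@Finset.filter ℕ P d2 (Finset.range X)).card := by
  rw [Subsingleton.elim d1 d2]

private theorem CL_base (M a X : ℕ) :
    (((Finset.range X).filter (fun t => t ≡ a [MOD M])).card : ℝ) ≤ (X : ℝ) / M + 1 := by
  have h1 : (Finset.range X).filter (fun t => t ≡ a [MOD M]) ⊆
      (Finset.range (X / M + 1)).image (fun k => k * M + a % M) := by
    intro t ht
    obtain ⟨ht1, ht2⟩ := Finset.mem_filter.1 ht
    rw [Finset.mem_range] at ht1
    rw [Finset.mem_image]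
    refine ⟨t / M, Finset.mem_range.2 ?_, ?_⟩
    · have := Nat.div_le_div_right (c := M) ht1.le
      omega
    · have h3 : t % M = a % M := ht2
      show t / M * M + a % M = t
      rw [← h3]
      exact Nat.div_add_mod' t M
  have h2 := (Finset.card_le_card h1).trans Finset.card_image_le
  rw [Finset.card_range] at h2
  have h3 : (((Finset.range X).filter (fun t => t ≡ a [MOD M])).card : ℝ) ≤ ((X / M + 1 : ℕ) : ℝ) := by
    exact_mod_cast h2
  refine h3.trans ?_
  push_cast
  have := @Nat.cast_div_le ℝ _ _ _ X M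
  linarith

open Classical in
private theorem CL_gen (X : ℕ) (Q : Finset ℕ) : ∀ (M a : ℕ), 0 < M → (∀ p ∈ Q, p.Prime ∧ ¬ p ∣ M) →
    (((Finset.range X).filter (fun t => t ≡ a [MOD M] ∧ ∀ p ∈ Q, Kills t p)).card : ℝ) ≤
      (∏ p ∈ Q, (4 * ord2 p : ℝ)) * (X / (M * ∏ p ∈ Q, (p : ℝ)) + 1) := by
  induction Q using Finset.induction_on with
  | empty =>
    intro M a hM _
    have := CL_base M a X
    simp only [Finset.notMem_empty, false_implies, implies_true, and_true, Finset.prod_empty, mul_one,
      one_mul]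
    refine le_trans (le_of_eq ?_) this
    exact congrArg Nat.cast (CL_filter X _ _ _)
  | insert q Q hq ih =>
    intro M a hM hQ
    have hqp : q.Prime := (hQ q (Finset.mem_insert_self _ _)).1
    have hqM : ¬ q ∣ M := (hQ q (Finset.mem_insert_self _ _)).2
    have hcop : Nat.Coprime M q := ((Nat.Prime.coprime_iff_not_dvd hqp).2 hqM).symm
    -- the set splits over the residues r mod q
    let R := (Finset.range q).filter (fun r => Kills r q)
    have hR : (R.card : ℝ) ≤ 4 * ord2 q := by
      have := card_kills q hqp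
      have h2 : R.card ≤ 4 * ord2 q := le_trans (le_of_eq (CL_filter q _ _ _)) this
      exact_mod_cast h2
    let b : ℕ → ℕ := fun r => (Nat.chineseRemainder hcop a r : ℕ)
    have hsub : (Finset.range X).filter
        (fun t => t ≡ a [MOD M] ∧ ∀ p ∈ insert q Q, Kills t p) ⊆
        R.biUnion fun r => (Finset.range X).filter
          (fun t => t ≡ b r [MOD (M * q)] ∧ ∀ p ∈ Q, Kills t p) := by
      intro t ht
      obtain ⟨ht1, ht2, ht3⟩ := Finset.mem_filter.1 ht
      rw [Finset.mem_biUnion]
      refine ⟨t % q, ?_, ?_⟩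
      · refine Finset.mem_filter.2 ⟨Finset.mem_range.2 (Nat.mod_lt _ hqp.pos), ?_⟩
        exact (kills_mod t q).1 (ht3 q (Finset.mem_insert_self _ _))
      · refine Finset.mem_filter.2 ⟨ht1, ?_, fun p hp => ht3 p (Finset.mem_insert_of_mem hp)⟩
        have h1 : b (t % q) ≡ a [MOD M] := (Nat.chineseRemainder hcop a (t % q)).2.1
        have h2 : b (t % q) ≡ t % q [MOD q] := (Nat.chineseRemainder hcop a (t % q)).2.2
        refine (Nat.modEq_and_modEq_iff_modEq_mul hcop).1 ⟨ht2.trans h1.symm, ?_⟩
        exact ((Nat.mod_modEq t q).symm).trans h2.symm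
    have hcop2 : ∀ p ∈ Q, p.Prime ∧ ¬ p ∣ M * q := by
      intro p hp
      have hpp := (hQ p (Finset.mem_insert_of_mem hp)).1
      refine ⟨hpp, fun hd => ?_⟩
      rcases (Nat.Prime.dvd_mul hpp).1 hd with h | h
      · exact (hQ p (Finset.mem_insert_of_mem hp)).2 h
      · have := (Nat.prime_dvd_prime_iff_eq hpp hqp).1 h
        subst this
        exact hq hp
    have h1 : (((Finset.range X).filter
        (fun t => t ≡ a [MOD M] ∧ ∀ p ∈ insert q Q, Kills t p)).card : ℝ) ≤
        ∑ r ∈ R, (((Finset.range X).filter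
          (fun t => t ≡ b r [MOD (M * q)] ∧ ∀ p ∈ Q, Kills t p)).card : ℝ) := by
      have := (Finset.card_le_card hsub).trans Finset.card_biUnion_le
      exact_mod_cast this
    refine h1.trans ?_
    have h2 : ∀ r ∈ R, (((Finset.range X).filter
          (fun t => t ≡ b r [MOD (M * q)] ∧ ∀ p ∈ Q, Kills t p)).card : ℝ) ≤
        (∏ p ∈ Q, (4 * ord2 p : ℝ)) * (X / ((M * q : ℕ) * ∏ p ∈ Q, (p : ℝ)) + 1) := by
      intro r _
      exact ih (M * q) (b r) (Nat.mul_pos hM hqp.pos) hcop2
    refine (Finset.sum_le_sum h2).trans ?_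
    rw [Finset.sum_const, nsmul_eq_mul, Finset.prod_insert hq, Finset.prod_insert hq]
    have h3 : (0 : ℝ) ≤ (∏ p ∈ Q, (4 * ord2 p : ℝ)) * (X / ((M * q : ℕ) * ∏ p ∈ Q, (p : ℝ)) + 1) := by
      refine mul_nonneg (Finset.prod_nonneg fun p _ => by positivity) ?_
      have : (0 : ℝ) ≤ ∏ p ∈ Q, (p : ℝ) := Finset.prod_nonneg fun p _ => by positivity
      positivity
    have h4 := mul_le_mul_of_nonneg_right hR h3
    refine h4.trans (le_of_eq ?_)
    push_cast
    ring

theorem count_le (M a X : ℕ) (hM : 0 < M) (Q : Finset ℕ) (hQ : ∀ p ∈ Q, p.Prime ∧ ¬ p ∣ M) :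
    letI := Classical.decPred (fun t => t ≡ a [MOD M] ∧ ∀ p ∈ Q, Kills t p)
    (((Finset.range X).filter (fun t => t ≡ a [MOD M] ∧ ∀ p ∈ Q, Kills t p)).card : ℝ) ≤
      (∏ p ∈ Q, (4 * ord2 p : ℝ)) * (X / (M * ∏ p ∈ Q, (p : ℝ)) + 1) := by
  have h := CL_gen X Q M a hM hQ
  refine le_trans (le_of_eq ?_) h
  exact congrArg Nat.cast (CL_filter X _ _ _)

end Pool.Agent.H56.CV
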