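import Mathlib

/-!
Project CV (MP_2e7a1b_nt): choice of the parameters for the density theorem.
-/

namespace Pool.Agent.H56.CV

open Finset Filter Topology

theorem param_choice (h M : ℕ) (hh : 1 ≤ h) (hM : 0 < M) (c : ℝ) (hc : 0 < c)
    (hc3 : 3 * c < 1 / h) (ε : ℝ) (hε : 0 < ε) :
    ∃ X0 : ℕ, ∀ X : ℕ, X0 ≤ X → ∃ Z : ℕ, 1 ≤ Z ∧ M * Z ^ h ≤ X ∧ M ≤ X ∧
      4 * (⌈(X : ℝ) ^ c⌉₊ : ℝ) ^ 3 * (X / (M * Z) + 1) ≤ ε * (X / M) := by
  have hh0 : (0 : ℝ) < h := by exact_mod_cast hh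
  have hM0 : (0 : ℝ) < M := by exact_mod_cast hM
  have h1h : 1 / (h : ℝ) ≤ 1 := by
    rw [div_le_one hh0]; exact_mod_cast hh
  have t1 : Tendsto (fun X : ℕ => 64 * (M : ℝ) ^ (1 / (h : ℝ)) * (X : ℝ) ^ (-(1 / (h : ℝ) - 3 * c)))
      atTop (𝓝 (64 * (M : ℝ) ^ (1 / (h : ℝ)) * 0)) :=
    Tendsto.const_mul _ ((tendsto_rpow_neg_atTop (by linarith)).comp tendsto_natCast_atTop_atTop)
  have t2 : Tendsto (fun X : ℕ => 32 * (M : ℝ) * (X : ℝ) ^ (-(1 - 3 * c)))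
      atTop (𝓝 (32 * (M : ℝ) * 0)) :=
    Tendsto.const_mul _ ((tendsto_rpow_neg_atTop (by linarith)).comp tendsto_natCast_atTop_atTop)
  have t3 := t1.add t2
  simp only [mul_zero, add_zero] at t3
  have e1 := t3.eventually (gt_mem_nhds hε)
  obtain ⟨X1, hX1⟩ := eventually_atTop.1 e1
  refine ⟨max X1 M, fun X hX => ?_⟩
  have hXM : M ≤ X := le_trans (le_max_right _ _) hX
  have hX0 : (0 : ℝ) < X := by exact_mod_cast lt_of_lt_of_le hM hXM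
  have hXge1 : (1 : ℝ) ≤ X := by exact_mod_cast le_trans hM hXM
  have hq1 : (1 : ℝ) ≤ X / M := by
    rw [le_div_iff₀ hM0, one_mul]; exact_mod_cast hXM
  set y : ℝ := ((X : ℝ) / M) ^ (1 / (h : ℝ)) with hy
  have hy1 : 1 ≤ y := Real.one_le_rpow hq1 (by positivity)
  have hyh : y ^ h = X / M := by
    rw [hy, ← Real.rpow_natCast, ← Real.rpow_mul (by positivity), one_div,
      inv_mul_cancel₀ hh0.ne', Real.rpow_one]
  set Z : ℕ := ⌊y⌋₊ with hZ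
  have hZ1 : 1 ≤ Z := Nat.one_le_floor_iff _ |>.2 hy1
  have hZy : (Z : ℝ) ≤ y := Nat.floor_le (by linarith)
  have hyZ : y / 2 ≤ Z := by
    have h1 : y < Z + 1 := Nat.lt_floor_add_one y
    have h2 : (1 : ℝ) ≤ Z := by exact_mod_cast hZ1
    linarith
  refine ⟨Z, hZ1, ?_, hXM, ?_⟩
  · have : (M : ℝ) * (Z : ℝ) ^ h ≤ X := by
      calc (M : ℝ) * (Z : ℝ) ^ h ≤ M * y ^ h :=
            mul_le_mul_of_nonneg_left (pow_le_pow_left₀ (by positivity) hZy _) hM0.le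
        _ = X := by rw [hyh]; field_simp
    exact_mod_cast this
  · have hXc1 : (1 : ℝ) ≤ (X : ℝ) ^ c := Real.one_le_rpow hXge1 hc.le
    have hN : (⌈(X : ℝ) ^ c⌉₊ : ℝ) ≤ 2 * (X : ℝ) ^ c := by
      have := Nat.ceil_lt_add_one (show (0 : ℝ) ≤ (X : ℝ) ^ c by positivity)
      linarith
    have hN3 : (⌈(X : ℝ) ^ c⌉₊ : ℝ) ^ 3 ≤ 8 * (X : ℝ) ^ (3 * c) := by
      calc (⌈(X : ℝ) ^ c⌉₊ : ℝ) ^ 3 ≤ (2 * (X : ℝ) ^ c) ^ 3 :=
            pow_le_pow_left₀ (by positivity) hN 3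
        _ = 8 * ((X : ℝ) ^ c) ^ 3 := by ring
        _ = 8 * (X : ℝ) ^ (3 * c) := by
            rw [← Real.rpow_natCast, ← Real.rpow_mul hX0.le]; norm_num; ring_nf
    have hZ0 : (0 : ℝ) < Z := by exact_mod_cast hZ1
    have hy0 : 0 < y := by linarith
    have hd : (X : ℝ) / (M * Z) ≤ X / M * (2 / y) := by
      rw [div_mul_div_comm, div_le_div_iff₀ (by positivity) (by positivity)]
      have : y ≤ 2 * Z := by linarith
      have : 0 ≤ (X : ℝ) * M := by positivity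
      nlinarith
    have hXX := hX1 X (le_trans (le_max_left _ _) hX)
    have hyinv : 1 / y = (M : ℝ) ^ (1 / (h : ℝ)) * (X : ℝ) ^ (-(1 / (h : ℝ))) := by
      rw [hy, Real.div_rpow hX0.le hM0.le, Real.rpow_neg hX0.le]
      field_simp
    have e3 : (X : ℝ) ^ (3 * c) * (1 / y) =
        (M : ℝ) ^ (1 / (h : ℝ)) * (X : ℝ) ^ (-(1 / (h : ℝ) - 3 * c)) := by
      rw [hyinv, show -(1 / (h : ℝ) - 3 * c) = 3 * c + -(1 / (h : ℝ)) by ring,
        Real.rpow_add hX0]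
      ring
    have e4 : (X : ℝ) ^ (3 * c) = X * (X : ℝ) ^ (-(1 - 3 * c)) := by
      rw [show -(1 - 3 * c) = 3 * c + -1 by ring, Real.rpow_add hX0, Real.rpow_neg_one]
      field_simp
    calc 4 * (⌈(X : ℝ) ^ c⌉₊ : ℝ) ^ 3 * (X / (M * Z) + 1)
        ≤ 4 * (8 * (X : ℝ) ^ (3 * c)) * (X / M * (2 / y) + 1) := by
          apply mul_le_mul _ _ (by positivity) (by positivity)
          · linarith
          · linarith
      _ = (64 * ((X : ℝ) ^ (3 * c) * (1 / y))) * (X / M) + 32 * (X : ℝ) ^ (3 * c) := by ring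
      _ = (64 * ((M : ℝ) ^ (1 / (h : ℝ)) * (X : ℝ) ^ (-(1 / (h : ℝ) - 3 * c)))) * (X / M) +
            32 * (X * (X : ℝ) ^ (-(1 - 3 * c))) := by rw [e3, ← e4]
      _ = (64 * (M : ℝ) ^ (1 / (h : ℝ)) * (X : ℝ) ^ (-(1 / (h : ℝ) - 3 * c)) +
            32 * M * (X : ℝ) ^ (-(1 - 3 * c))) * (X / M) := by
          field_simp
      _ ≤ ε * (X / M) := mul_le_mul_of_nonneg_right hXX.le (by positivity)

end Pool.Agent.H56.CV
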