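import Mathlib

/-!
Project CV (MP_2e7a1b_nt): choice of the parameters for the density theorem, second version.
-/

namespace Pool.Agent.H56.CV

open Finset Filter Topology

theorem param_choice2 (M : ℕ) (hM : 0 < M) (c : ℝ) (hc : 0 < c) (hc4 : c < 1 / 4) (ε : ℝ)
    (hε : 0 < ε) :
    ∃ X0 : ℕ, ∀ X : ℕ, X0 ≤ X → ∃ Z : ℕ, 1 ≤ Z ∧ M * Z ^ 2 ≤ X ∧ M ≤ X ∧
      (X : ℝ) ^ (2 * c) ≤ Z ∧
      4 * (⌈(X : ℝ) ^ c⌉₊ : ℝ) ^ 2 * (1 + Real.log (⌈(X : ℝ) ^ c⌉₊ : ℝ)) * (X / (M * Z) + 1) ≤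
        ε * (X / M) := by
  have hM0 : (0 : ℝ) < M := by exact_mod_cast hM
  set τ : ℝ := 1 / 2 - 2 * c with hτ
  have hτ0 : 0 < τ := by rw [hτ]; linarith
  have hτ1 : τ ≤ 1 := by rw [hτ]; linarith
  set e : ℝ := c * (2 + τ) with he
  have he1 : e < 1 / 2 := by
    rw [he, hτ]; nlinarith
  set B : ℝ := 32 * (1 + 1 / τ) with hB
  have hB0 : 0 < B := by positivity
  have t1 : Tendsto (fun X : ℕ => 2 * B * (M : ℝ) ^ (1 / 2 : ℝ) * (X : ℝ) ^ (-(1 / 2 - e)))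
      atTop (𝓝 (2 * B * (M : ℝ) ^ (1 / 2 : ℝ) * 0)) :=
    Tendsto.const_mul _ ((tendsto_rpow_neg_atTop (by linarith)).comp tendsto_natCast_atTop_atTop)
  have t2 : Tendsto (fun X : ℕ => B * (M : ℝ) * (X : ℝ) ^ (-(1 - e)))
      atTop (𝓝 (B * (M : ℝ) * 0)) :=
    Tendsto.const_mul _ ((tendsto_rpow_neg_atTop (by linarith)).comp tendsto_natCast_atTop_atTop)
  have t3 := t1.add t2
  simp only [mul_zero, add_zero] at t3
  have e1 := t3.eventually (gt_mem_nhds hε)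
  have t4 : Tendsto (fun X : ℕ => (X : ℝ) ^ τ) atTop atTop :=
    (tendsto_rpow_atTop hτ0).comp tendsto_natCast_atTop_atTop
  have e2 := t4.eventually_ge_atTop (2 * (M : ℝ) ^ (1 / 2 : ℝ))
  obtain ⟨X1, hX1⟩ := eventually_atTop.1 (e1.and e2)
  refine ⟨max X1 M, fun X hX => ?_⟩
  have hXM : M ≤ X := le_trans (le_max_right _ _) hX
  have hX0 : (0 : ℝ) < X := by exact_mod_cast lt_of_lt_of_le hM hXM
  have hXge1 : (1 : ℝ) ≤ X := by exact_mod_cast le_trans hM hXM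
  have hq1 : (1 : ℝ) ≤ X / M := by
    rw [le_div_iff₀ hM0, one_mul]; exact_mod_cast hXM
  obtain ⟨hXa, hXb⟩ := hX1 X (le_trans (le_max_left _ _) hX)
  set y : ℝ := ((X : ℝ) / M) ^ (1 / 2 : ℝ) with hy
  have hy1 : 1 ≤ y := Real.one_le_rpow hq1 (by positivity)
  have hy2 : y ^ 2 = X / M := by
    rw [hy, ← Real.rpow_natCast, ← Real.rpow_mul (by positivity)]
    norm_num
  set Z : ℕ := ⌊y⌋₊ with hZ
  have hZ1 : 1 ≤ Z := Nat.one_le_floor_iff _ |>.2 hy1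
  have hZy : (Z : ℝ) ≤ y := Nat.floor_le (by linarith)
  have hyZ : y / 2 ≤ Z := by
    have h1 : y < Z + 1 := Nat.lt_floor_add_one y
    have h2 : (1 : ℝ) ≤ Z := by exact_mod_cast hZ1
    linarith
  have hMh : (0 : ℝ) < (M : ℝ) ^ (1 / 2 : ℝ) := by positivity
  have hyX : y * (M : ℝ) ^ (1 / 2 : ℝ) = (X : ℝ) ^ (1 / 2 : ℝ) := by
    rw [hy, Real.div_rpow hX0.le hM0.le]
    field_simp
  refine ⟨Z, hZ1, ?_, hXM, ?_, ?_⟩
  · have : (M : ℝ) * (Z : ℝ) ^ 2 ≤ X := by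
      calc (M : ℝ) * (Z : ℝ) ^ 2 ≤ M * y ^ 2 :=
            mul_le_mul_of_nonneg_left (pow_le_pow_left₀ (by positivity) hZy _) hM0.le
        _ = X := by rw [hy2]; field_simp
    exact_mod_cast this
  · have h1 : (X : ℝ) ^ (1 / 2 : ℝ) = (X : ℝ) ^ (2 * c) * (X : ℝ) ^ τ := by
      rw [← Real.rpow_add hX0]; congr 1; rw [hτ]; ring
    have h2 : (X : ℝ) ^ (2 * c) * (2 * (M : ℝ) ^ (1 / 2 : ℝ)) ≤ y * (M : ℝ) ^ (1 / 2 : ℝ) := by
      rw [hyX, h1]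
      exact mul_le_mul_of_nonneg_left hXb (by positivity)
    have h3 : (X : ℝ) ^ (2 * c) * 2 ≤ y := by
      have : ((X : ℝ) ^ (2 * c) * 2) * (M : ℝ) ^ (1 / 2 : ℝ) ≤ y * (M : ℝ) ^ (1 / 2 : ℝ) := by
        linarith
      exact le_of_mul_le_mul_right this hMh
    linarith
  · have hXc1 : (1 : ℝ) ≤ (X : ℝ) ^ c := Real.one_le_rpow hXge1 hc.le
    set N : ℕ := ⌈(X : ℝ) ^ c⌉₊ with hN
    have hN2 : (N : ℝ) ≤ 2 * (X : ℝ) ^ c := by
      have := Nat.ceil_lt_add_one (show (0 : ℝ) ≤ (X : ℝ) ^ c by positivity)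
      linarith
    have hN1 : (1 : ℝ) ≤ N := le_trans hXc1 (Nat.le_ceil _)
    have hN0 : (0 : ℝ) < N := by linarith
    have hlog : 1 + Real.log N ≤ (1 + 1 / τ) * (N : ℝ) ^ τ := by
      have h1 := Real.log_le_rpow_div hN0.le hτ0
      have h2 : (1 : ℝ) ≤ (N : ℝ) ^ τ := Real.one_le_rpow hN1 hτ0.le
      have h3 : (1 + 1 / τ) * (N : ℝ) ^ τ = (N : ℝ) ^ τ + (N : ℝ) ^ τ / τ := by ring
      linarith
    have hlog0 : 0 ≤ Real.log N := Real.log_nonneg hN1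
    have hNN : 4 * (N : ℝ) ^ 2 * (1 + Real.log N) ≤ B * (X : ℝ) ^ e := by
      calc 4 * (N : ℝ) ^ 2 * (1 + Real.log N) ≤ 4 * (N : ℝ) ^ 2 * ((1 + 1 / τ) * (N : ℝ) ^ τ) :=
            mul_le_mul_of_nonneg_left hlog (by positivity)
        _ = 4 * (1 + 1 / τ) * (N : ℝ) ^ (2 + τ) := by
            rw [Real.rpow_add hN0, Real.rpow_two]; ring
        _ ≤ 4 * (1 + 1 / τ) * (2 * (X : ℝ) ^ c) ^ (2 + τ) := by
            apply mul_le_mul_of_nonneg_left _ (by positivity)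
            exact Real.rpow_le_rpow hN0.le hN2 (by positivity)
        _ = 4 * (1 + 1 / τ) * ((2 : ℝ) ^ (2 + τ) * (X : ℝ) ^ e) := by
            rw [Real.mul_rpow (by norm_num) (by positivity), ← Real.rpow_mul hX0.le, he]
        _ ≤ 4 * (1 + 1 / τ) * (8 * (X : ℝ) ^ e) := by
            apply mul_le_mul_of_nonneg_left _ (by positivity)
            apply mul_le_mul_of_nonneg_right _ (by positivity)
            calc (2 : ℝ) ^ (2 + τ) ≤ (2 : ℝ) ^ (3 : ℝ) :=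
                  Real.rpow_le_rpow_of_exponent_le (by norm_num) (by linarith)
              _ = 8 := by norm_num
        _ = B * (X : ℝ) ^ e := by rw [hB]; ring
    have hZ0 : (0 : ℝ) < Z := by exact_mod_cast hZ1
    have hy0 : 0 < y := by linarith
    have hd : (X : ℝ) / (M * Z) ≤ X / M * (2 / y) := by
      rw [div_mul_div_comm, div_le_div_iff₀ (by positivity) (by positivity)]
      have : y ≤ 2 * Z := by linarith
      have : 0 ≤ (X : ℝ) * M := by positivity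
      nlinarith
    have hyinv : 1 / y = (M : ℝ) ^ (1 / 2 : ℝ) * (X : ℝ) ^ (-(1 / 2 : ℝ)) := by
      rw [Real.rpow_neg hX0.le, ← hyX]
      field_simp
    have e3 : (X : ℝ) ^ e * (1 / y) =
        (M : ℝ) ^ (1 / 2 : ℝ) * (X : ℝ) ^ (-(1 / 2 - e)) := by
      rw [hyinv, show -(1 / 2 - e) = e + -(1 / 2) by ring, Real.rpow_add hX0]
      ring
    have e4 : (X : ℝ) ^ e = X * (X : ℝ) ^ (-(1 - e)) := by
      rw [show -(1 - e) = e + -1 by ring, Real.rpow_add hX0, Real.rpow_neg_one]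
      field_simp
    calc 4 * (N : ℝ) ^ 2 * (1 + Real.log N) * (X / (M * Z) + 1)
        ≤ (B * (X : ℝ) ^ e) * (X / M * (2 / y) + 1) := by
          apply mul_le_mul hNN _ (by positivity) (by positivity)
          linarith
      _ = (2 * B * ((X : ℝ) ^ e * (1 / y))) * (X / M) + B * (X : ℝ) ^ e := by ring
      _ = (2 * B * ((M : ℝ) ^ (1 / 2 : ℝ) * (X : ℝ) ^ (-(1 / 2 - e)))) * (X / M) +
            B * (X * (X : ℝ) ^ (-(1 - e))) := by rw [e3, ← e4]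
      _ = (2 * B * (M : ℝ) ^ (1 / 2 : ℝ) * (X : ℝ) ^ (-(1 / 2 - e)) +
            B * M * (X : ℝ) ^ (-(1 - e))) * (X / M) := by
          field_simp
      _ ≤ ε * (X / M) := mul_le_mul_of_nonneg_right hXa.le (by positivity)

end Pool.Agent.H56.CV
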