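import Pool.Agent.Helper56.CV.Defs

/-!
Project CV (MP_2e7a1b_nt), piece HC.

p is odd and does not divide t.  With j0 a kill exponent, p | t^4 2^(4j+2)+1 iff 2^(4j) = 2^(4 j0)
in ZMod p iff 4j = 4j0 mod ord2 p iff j = j0 mod ord2 p / gcd (ord2 p) 4
(pow_eq_pow_iff_modEq for the unit 2; Nat.ModEq cancel).
-/

namespace Pool.Agent.H56.CV

open Finset

private theorem HC_modEq (n i j : ℕ) (hn : 0 < n) :
    4 * i ≡ 4 * j [MOD n] ↔ i ≡ j [MOD n / Nat.gcd n 4] := by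
  constructor
  · intro h
    exact Nat.ModEq.cancel_left_div_gcd hn h
  · intro h
    have h2 := Nat.ModEq.mul_left' 4 h
    refine h2.of_dvd ?_
    obtain ⟨u, hu⟩ := Nat.gcd_dvd_right n 4
    obtain ⟨w, hw⟩ := Nat.gcd_dvd_left n 4
    have hg : 0 < Nat.gcd n 4 := Nat.gcd_pos_of_pos_left _ hn
    have hdiv : n / Nat.gcd n 4 = w := Nat.div_eq_of_eq_mul_right hg hw
    rw [hdiv]
    refine ⟨u, ?_⟩
    calc 4 * w = (Nat.gcd n 4 * u) * w := by rw [← hu]
      _ = (Nat.gcd n 4 * w) * u := by ring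
      _ = n * u := by rw [← hw]

theorem hole_class (t p : ℕ) (hp : p.Prime) (hk : Kills t p) :
    ∃ c : ℕ, ∀ j : ℕ, p ∣ t ^ 4 * 2 ^ (4 * j + 2) + 1 ↔
      j ≡ c [MOD ord2 p / Nat.gcd (ord2 p) 4] := by
  have : Fact p.Prime := ⟨hp⟩
  obtain ⟨j0, hj0⟩ := hk
  have hp2 : p ≠ 2 := by
    rintro rfl
    have h1 : 2 ∣ t ^ 4 * 2 ^ (4 * j0 + 2) :=
      Dvd.dvd.mul_left (dvd_pow_self 2 (by omega)) _
    have h2 := (Nat.dvd_add_right h1).1 hj0
    omega
  have h20 : (2 : ZMod p) ≠ 0 := by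
    intro h
    have : ((2 : ℕ) : ZMod p) = 0 := by exact_mod_cast h
    rw [ZMod.natCast_eq_zero_iff] at this
    exact hp2 ((Nat.prime_dvd_prime_iff_eq hp Nat.prime_two).1 this)
  have hcast : ∀ j : ℕ, p ∣ t ^ 4 * 2 ^ (4 * j + 2) + 1 ↔
      ((t : ZMod p) ^ 4 * 2 ^ (4 * j + 2) + 1 = 0) := by
    intro j
    rw [← ZMod.natCast_eq_zero_iff]
    push_cast
    rfl
  have ht0 : (t : ZMod p) ^ 4 ≠ 0 := by
    intro h
    have := (hcast j0).1 hj0
    rw [h] at this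
    simp at this
  have hord : 0 < ord2 p := by
    unfold ord2
    have : IsOfFinOrder (2 : ZMod p) := by
      rw [isOfFinOrder_iff_pow_eq_one]
      exact ⟨p - 1, by have := hp.two_le; omega, ZMod.pow_card_sub_one_eq_one h20⟩
    exact this.orderOf_pos
  refine ⟨j0, fun j => ?_⟩
  rw [← HC_modEq _ _ _ hord, hcast]
  have e0 := (hcast j0).1 hj0
  have key : ((t : ZMod p) ^ 4 * 2 ^ (4 * j + 2) + 1 = 0) ↔
      (2 : ZMod p) ^ (4 * j) = 2 ^ (4 * j0) := by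
    constructor
    · intro h
      have h4 : (t : ZMod p) ^ 4 * 2 ^ 2 * (2 : ZMod p) ^ (4 * j) =
          (t : ZMod p) ^ 4 * 2 ^ 2 * (2 : ZMod p) ^ (4 * j0) := by
        rw [pow_add] at h e0
        linear_combination h - e0
      exact mul_left_cancel₀ (mul_ne_zero ht0 (pow_ne_zero _ h20)) h4
    · intro h
      rw [pow_add] at e0 ⊢
      rw [h]
      exact e0
  rw [key]
  unfold ord2
  have := @pow_eq_pow_iff_modEq (ZMod p)ˣ _ (Units.mk0 (2 : ZMod p) h20) (4 * j0) (4 * j)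
  rw [← orderOf_units, Units.val_mk0] at this
  rw [← this, Units.ext_iff]
  simp

theorem kills_mod (t p : ℕ) : Kills t p ↔ Kills (t % p) p := by
  unfold Kills
  refine exists_congr fun j => ?_
  have h : (t % p) ^ 4 * 2 ^ (4 * j + 2) + 1 ≡ t ^ 4 * 2 ^ (4 * j + 2) + 1 [MOD p] := by
    have := Nat.mod_modEq t p
    exact ((this.pow 4).mul_right _).add_right 1
  constructor
  · intro h2
    exact (Nat.ModEq.dvd_iff h dvd_rfl).2 h2
  · intro h2
    exact (Nat.ModEq.dvd_iff h dvd_rfl).1 h2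

end Pool.Agent.H56.CV
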