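import Pool.Agent.Helper56.CV.AD
import Pool.Agent.Helper56.CV.HC

/-!
Project CV (MP_2e7a1b_nt): the covering of the Aurifeuillian part by classes.
-/

namespace Pool.Agent.H56.CV

open Finset

/-- The modulus of the class of `j` killed by a prime of order `n`. -/
def md (n : ℕ) : ℕ := n / Nat.gcd n 4

lemma gcd4_cases (n : ℕ) : Nat.gcd n 4 = 1 ∨ Nat.gcd n 4 = 2 ∨ Nat.gcd n 4 = 4 := by
  have h1 : Nat.gcd n 4 ∣ 4 := Nat.gcd_dvd_right n 4
  have h2 : Nat.gcd n 4 ≤ 4 := Nat.le_of_dvd (by norm_num) h1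
  interval_cases h : Nat.gcd n 4 <;> simp_all

lemma md_eq (n : ℕ) : n = md n ∨ n = 2 * md n ∨ n = 4 * md n := by
  have h1 : Nat.gcd n 4 * (n / Nat.gcd n 4) = n := Nat.mul_div_cancel' (Nat.gcd_dvd_left n 4)
  unfold md
  rcases gcd4_cases n with h | h | h <;> rw [h] at h1 ⊢ <;> omega

lemma wt_nonneg (n : ℕ) : 0 ≤ wt n := by unfold wt; positivity

lemma wt_md (n : ℕ) (hn : 1 ≤ n) : wt (md n) ≤ 4 * wt n := by
  have hd : md n ∣ n := Nat.div_dvd_of_dvd (Nat.gcd_dvd_left n 4)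
  have h4 : n ≤ 4 * md n := by
    rcases md_eq n with h | h | h <;> omega
  have hm : 1 ≤ md n := by omega
  unfold wt
  have hcard : (md n).primeFactors.card ≤ n.primeFactors.card :=
    Finset.card_le_card (Nat.primeFactors_mono hd (by omega))
  have hm0 : (0 : ℝ) < md n := by exact_mod_cast hm
  have hn0 : (0 : ℝ) < n := by exact_mod_cast hn
  have h4' : (n : ℝ) ≤ 4 * md n := by exact_mod_cast h4
  rw [div_le_iff₀ hm0]
  have h2 : (2 : ℝ) ^ (md n).primeFactors.card ≤ 2 ^ n.primeFactors.card :=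
    pow_le_pow_right₀ (by norm_num) hcard
  have h5 : (1 : ℝ) ≤ 4 * md n / n := by rw [le_div_iff₀ hn0]; linarith
  calc (2 : ℝ) ^ (md n).primeFactors.card ≤ 2 ^ n.primeFactors.card := h2
    _ ≤ 2 ^ n.primeFactors.card * (4 * md n / n) := le_mul_of_one_le_right (by positivity) h5
    _ = 4 * (2 ^ n.primeFactors.card / n) * md n := by ring

lemma ord2_pos_of_kills (t p : ℕ) (hp : p.Prime) (hk : Kills t p) : 1 ≤ ord2 p := by
  have hp2 : p ≠ 2 := by
    rintro rfl
    obtain ⟨j, hj⟩ := hk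
    have : 2 ∣ t ^ 4 * 2 ^ (4 * j + 2) := Dvd.dvd.mul_left (dvd_pow_self 2 (by omega)) _
    omega
  have hc : IsUnit (2 : ZMod p) := by
    have := (ZMod.unitOfCoprime 2 ((Nat.coprime_primes Nat.prime_two hp).2 hp2.symm)).isUnit
    simpa using this
  have := Fact.mk hp
  unfold ord2
  obtain ⟨u, hu⟩ := hc
  rw [← hu, orderOf_units]
  exact orderOf_pos u

/-- If `P` covers, the classes of the killers in `s` and `u` cover all `j`. -/
theorem core (t : ℕ) (P : Finset ℕ) (hP : IsCover (t ^ 4) P) (K h Y : ℕ) (hK : 2 ≤ K)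
    (hh : 1 ≤ h) (hno : ∀ p : ℕ, p.Prime → ord2 p < 4 * K → ¬ Kills t p) (s u : Finset ℕ)
    (hsu : ∀ p ∈ P, Kills t p → p ∈ s ∪ u) (hs : ∀ p ∈ s, p.Prime ∧ Kills t p)
    (hu : ∀ p ∈ u, p.Prime ∧ Kills t p) (hY : ∀ p ∈ s, ord2 p < Y) :
    1 ≤ distSum h K Y (fun m => ((s.filter (fun p => md (ord2 p) = m)).card : ℝ)) +
      ∑ p ∈ u, 4 * wt (ord2 p) := by
  classical
  by_contra hcon
  push Not at hcon
  have hex : ∀ p : ℕ, ∃ c : ℕ, p.Prime → Kills t p → ∀ j : ℕ,
      (p ∣ t ^ 4 * 2 ^ (4 * j + 2) + 1 ↔ j ≡ c [MOD md (ord2 p)]) := by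
    intro p
    by_cases h1 : p.Prime ∧ Kills t p
    · obtain ⟨c, hc⟩ := hole_class t p h1.1 h1.2
      exact ⟨c, fun _ _ => hc⟩
    · exact ⟨0, fun a b => absurd ⟨a, b⟩ h1⟩
  choose c hc using hex
  have hbig : ∀ p : ℕ, p.Prime → Kills t p → 4 * K ≤ ord2 p := by
    intro p hp hk
    by_contra hlt
    exact hno p hp (not_le.1 hlt) hk
  obtain ⟨j, hj⟩ := ap_distortion s u (fun p => md (ord2 p)) c K Y h hK hh
    (fun p hp => by
      have h1 := hbig p (hs p hp).1 (hs p hp).2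
      have h2 := hY p hp
      rcases md_eq (ord2 p) with h | h | h <;> constructor <;> omega)
    (fun p hp => by
      have h1 := hbig p (hu p hp).1 (hu p hp).2
      rcases md_eq (ord2 p) with h | h | h <;> omega)
    (by
      refine lt_of_le_of_lt ?_ hcon
      have : ∑ p ∈ u, wt (md (ord2 p)) ≤ ∑ p ∈ u, 4 * wt (ord2 p) := by
        apply Finset.sum_le_sum
        intro p hp
        exact wt_md _ (ord2_pos_of_kills t p (hu p hp).1 (hu p hp).2)
      linarith)
  obtain ⟨p, hpP, hpd⟩ := hP.2 (4 * j + 2) (by omega)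
  have hk : Kills t p := ⟨j, hpd⟩
  exact hj p (hsu p hpP hk) ((hc p (hP.1 p hpP) hk j).1 hpd)

/-- Counting a modulus by the three possible orders. -/
lemma card_md_le (s : Finset ℕ) (m : ℕ) :
    (s.filter (fun p => md (ord2 p) = m)).card ≤
      (s.filter (fun p => ord2 p = m)).card + (s.filter (fun p => ord2 p = 2 * m)).card +
        (s.filter (fun p => ord2 p = 4 * m)).card := by
  classical
  refine le_trans (Finset.card_le_card (t := (s.filter (fun p => ord2 p = m)) ∪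
    (s.filter (fun p => ord2 p = 2 * m)) ∪ (s.filter (fun p => ord2 p = 4 * m))) ?_) ?_
  · intro p hp
    simp only [Finset.mem_union, Finset.mem_filter] at hp ⊢
    obtain ⟨h1, h2⟩ := hp
    subst h2
    rcases md_eq (ord2 p) with h | h | h
    · exact Or.inl (Or.inl ⟨h1, h⟩)
    · exact Or.inl (Or.inr ⟨h1, h⟩)
    · exact Or.inr ⟨h1, h⟩
  · exact (Finset.card_union_le _ _).trans (Nat.add_le_add_right (Finset.card_union_le _ _) _)

end Pool.Agent.H56.CV
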