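import Pool.Agent.Helper56.CV.AD2
import Pool.Agent.Helper56.CV.AV2
import Pool.Agent.Helper56.CV.Core

/-!
Project CV (MP_2e7a1b_nt): the covering of the Aurifeuillian part by classes, two families.
-/

namespace Pool.Agent.H56.CV

open Finset

/-- First moment for the moduli with small largest prime factor and `h`-th moments for the
others. -/
noncomputable def tot (h Q K Y : ℕ) (f : ℕ → ℝ) : ℝ :=
  ∑ n ∈ (Finset.Ico K Y).filter (fun n => gpf n ≤ Q), f n * wt n +
    ∑ q ∈ Y.primesBelow.filter (fun q => Q < q), 4 ^ h * mom h q K Y f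

lemma tot_nonneg (h Q K Y : ℕ) (f : ℕ → ℝ) (hf : ∀ n, 0 ≤ f n) : 0 ≤ tot h Q K Y f := by
  unfold tot
  apply add_nonneg
  · exact Finset.sum_nonneg fun n _ => mul_nonneg (hf n) (wt_nonneg n)
  · exact Finset.sum_nonneg fun q _ => mul_nonneg (by positivity) (mom_nonneg h q K Y f hf)

lemma tot_mono (h Q K Y : ℕ) (f g : ℕ → ℝ) (hf : ∀ n, 0 ≤ f n)
    (hfg : ∀ n, K ≤ n → n < Y → f n ≤ g n) : tot h Q K Y f ≤ tot h Q K Y g := by
  unfold tot
  apply add_le_add
  · refine Finset.sum_le_sum fun n hn => mul_le_mul_of_nonneg_right ?_ (wt_nonneg n)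
    rw [Finset.mem_filter, Finset.mem_Ico] at hn
    exact hfg n hn.1.1 hn.1.2
  · refine Finset.sum_le_sum fun q _ => mul_le_mul_of_nonneg_left ?_ (by positivity)
    exact mom_mono h q K Y f g hf fun n h1 h2 _ => hfg n h1 h2

private lemma core2_low (s : Finset ℕ) (Q K Y : ℕ)
    (hs : ∀ p ∈ s, K ≤ md (ord2 p) ∧ md (ord2 p) < Y) :
    ∑ p ∈ s.filter (fun p => gpf (md (ord2 p)) ≤ Q), wt (md (ord2 p)) =
      ∑ n ∈ (Finset.Ico K Y).filter (fun n => gpf n ≤ Q),
        ((s.filter (fun p => md (ord2 p) = n)).card : ℝ) * wt n := by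
  rw [← Finset.sum_fiberwise_of_maps_to (s := s.filter (fun p => gpf (md (ord2 p)) ≤ Q))
    (t := (Finset.Ico K Y).filter (fun n => gpf n ≤ Q)) (g := fun p => md (ord2 p))]
  · apply Finset.sum_congr rfl
    intro n hn
    rw [Finset.mem_filter] at hn
    have h1 : (s.filter (fun p => gpf (md (ord2 p)) ≤ Q)).filter (fun p => md (ord2 p) = n) =
        s.filter (fun p => md (ord2 p) = n) := by
      ext p
      simp only [Finset.mem_filter]
      constructor
      · rintro ⟨⟨a, -⟩, b⟩; exact ⟨a, b⟩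
      · rintro ⟨a, b⟩; exact ⟨⟨a, by rw [b]; exact hn.2⟩, b⟩
    rw [h1, Finset.sum_congr rfl (g := fun _ => wt n) (fun p hp => by
      rw [(Finset.mem_filter.1 hp).2]), Finset.sum_const, nsmul_eq_mul]
  · intro p hp
    rw [Finset.mem_filter] at hp
    rw [Finset.mem_filter, Finset.mem_Ico]
    exact ⟨hs p hp.1, hp.2⟩

private lemma core2_high (s : Finset ℕ) (h Q K Y : ℕ) (hh : 1 ≤ h) :
    ∑ q ∈ Y.primesBelow, 4 ^ h * mom h q K Y (fun m =>
      (((s.filter (fun p => Q < gpf (md (ord2 p)))).filter (fun p => md (ord2 p) = m)).card : ℝ)) ≤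
    ∑ q ∈ Y.primesBelow.filter (fun q => Q < q), 4 ^ h * mom h q K Y (fun m =>
      ((s.filter (fun p => md (ord2 p) = m)).card : ℝ)) := by
  rw [← Finset.sum_filter_add_sum_filter_not Y.primesBelow (fun q => Q < q)]
  have h0 : ∑ q ∈ Y.primesBelow.filter (fun q => ¬ Q < q), (4 : ℝ) ^ h * mom h q K Y (fun m =>
      (((s.filter (fun p => Q < gpf (md (ord2 p)))).filter
        (fun p => md (ord2 p) = m)).card : ℝ)) = 0 := by
    apply Finset.sum_eq_zero
    intro q hq
    rw [Finset.mem_filter] at hq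
    rw [mom_zero h q K Y hh _ ?_, mul_zero]
    intro n _ _ hn
    rw [Nat.cast_eq_zero, Finset.card_eq_zero, Finset.filter_eq_empty_iff]
    intro p hp hpn
    rw [Finset.mem_filter, hpn, hn] at hp
    exact hq.2 hp.2
  rw [h0, add_zero]
  refine Finset.sum_le_sum fun q _ => mul_le_mul_of_nonneg_left ?_ (by positivity)
  refine mom_mono h q K Y _ _ (fun n => by positivity) fun n _ _ _ => ?_
  exact_mod_cast Finset.card_le_card (Finset.filter_subset_filter _ (Finset.filter_subset _ _))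

theorem core2 (t : ℕ) (P : Finset ℕ) (hP : IsCover (t ^ 4) P) (K h1 h2 Q Y : ℕ) (hK : 2 ≤ K)
    (hh1 : 1 ≤ h1) (hh2 : 1 ≤ h2)
    (hno : ∀ p : ℕ, p.Prime → ord2 p < 4 * K → ¬ Kills t p) (s1 s2 u : Finset ℕ)
    (hsu : ∀ p ∈ P, Kills t p → p ∈ s1 ∪ s2 ∪ u) (hs1 : ∀ p ∈ s1, p.Prime ∧ Kills t p)
    (hs2 : ∀ p ∈ s2, p.Prime ∧ Kills t p)
    (hu : ∀ p ∈ u, p.Prime ∧ Kills t p) (hY : ∀ p ∈ s1 ∪ s2, ord2 p < Y) :
    1 ≤ tot h1 Q K Y (fun m => ((s1.filter (fun p => md (ord2 p) = m)).card : ℝ)) +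
      tot h2 Q K Y (fun m => ((s2.filter (fun p => md (ord2 p) = m)).card : ℝ)) +
      ∑ p ∈ u, 4 * wt (ord2 p) := by
  classical
  by_contra hcon
  push Not at hcon
  have hex : ∀ p : ℕ, ∃ c : ℕ, p.Prime → Kills t p → ∀ j : ℕ,
      (p ∣ t ^ 4 * 2 ^ (4 * j + 2) + 1 ↔ j ≡ c [MOD md (ord2 p)]) := by
    intro p
    by_cases h1 : p.Prime ∧ Kills t p
    · obtain ⟨c, hc⟩ := hole_class t p h1.1 h1.2
      exact ⟨c, fun _ _ => hc⟩
    · exact ⟨0, fun a b => absurd ⟨a, b⟩ h1⟩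
  choose c hc using hex
  have hbig : ∀ p : ℕ, p.Prime → Kills t p → 4 * K ≤ ord2 p := by
    intro p hp hk
    by_contra hlt
    exact hno p hp (not_le.1 hlt) hk
  have hs : ∀ p ∈ s1 ∪ s2, p.Prime ∧ Kills t p := by
    intro p hp
    rcases Finset.mem_union.1 hp with h | h
    · exact hs1 p h
    · exact hs2 p h
  have hsK : ∀ p ∈ s1 ∪ s2, K ≤ md (ord2 p) ∧ md (ord2 p) < Y := by
    intro p hp
    have h1 := hbig p (hs p hp).1 (hs p hp).2
    have h2 := hY p hp
    rcases md_eq (ord2 p) with h | h | h <;> constructor <;> omega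
  set u' : Finset ℕ := u ∪ (s1.filter (fun p => gpf (md (ord2 p)) ≤ Q) ∪
    s2.filter (fun p => gpf (md (ord2 p)) ≤ Q)) with hu'
  obtain ⟨j, hj⟩ := ap_distortion2 (s1.filter (fun p => Q < gpf (md (ord2 p))))
    (s2.filter (fun p => Q < gpf (md (ord2 p)))) u' (fun p => md (ord2 p)) c K Y h1 h2 hK hh1 hh2
    (fun p hp => hsK p (by
      rcases Finset.mem_union.1 hp with h | h
      · exact Finset.mem_union_left _ (Finset.mem_of_mem_filter p h)
      · exact Finset.mem_union_right _ (Finset.mem_of_mem_filter p h)))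
    (fun p hp => by
      have hp' : p.Prime ∧ Kills t p := by
        rw [hu', Finset.mem_union, Finset.mem_union, Finset.mem_filter, Finset.mem_filter] at hp
        rcases hp with h | ⟨h, -⟩ | ⟨h, -⟩
        · exact hu p h
        · exact hs1 p h
        · exact hs2 p h
      have h1 := hbig p hp'.1 hp'.2
      rcases md_eq (ord2 p) with h | h | h <;> omega)
    (by
      refine lt_of_le_of_lt ?_ hcon
      have e1 := core2_high s1 h1 Q K Y hh1
      have e2 := core2_high s2 h2 Q K Y hh2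
      have e3 := core2_low s1 Q K Y (fun p hp => hsK p (Finset.mem_union_left _ hp))
      have e4 := core2_low s2 Q K Y (fun p hp => hsK p (Finset.mem_union_right _ hp))
      have e5 : ∑ p ∈ u, wt (md (ord2 p)) ≤ ∑ p ∈ u, 4 * wt (ord2 p) := by
        apply Finset.sum_le_sum
        intro p hp
        exact wt_md _ (ord2_pos_of_kills t p (hu p hp).1 (hu p hp).2)
      have e6 : ∑ p ∈ u', wt (md (ord2 p)) ≤ ∑ p ∈ u, wt (md (ord2 p)) +
          (∑ p ∈ s1.filter (fun p => gpf (md (ord2 p)) ≤ Q), wt (md (ord2 p)) +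
           ∑ p ∈ s2.filter (fun p => gpf (md (ord2 p)) ≤ Q), wt (md (ord2 p))) := by
        have g : ∀ A B : Finset ℕ, ∑ p ∈ A ∪ B, wt (md (ord2 p)) ≤
            ∑ p ∈ A, wt (md (ord2 p)) + ∑ p ∈ B, wt (md (ord2 p)) := by
          intro A B
          rw [← Finset.sum_union_inter]
          have : 0 ≤ ∑ p ∈ A ∩ B, wt (md (ord2 p)) :=
            Finset.sum_nonneg fun p _ => wt_nonneg _
          linarith
        exact (g _ _).trans (add_le_add (le_refl _) (g _ _))
      rw [Finset.sum_add_distrib]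
      unfold tot
      linarith)
  obtain ⟨p, hpP, hpd⟩ := hP.2 (4 * j + 2) (by omega)
  have hk : Kills t p := ⟨j, hpd⟩
  have hmem : p ∈ s1.filter (fun p => Q < gpf (md (ord2 p))) ∪
      s2.filter (fun p => Q < gpf (md (ord2 p))) ∪ u' := by
    have h1 := hsu p hpP hk
    simp only [hu', Finset.mem_union, Finset.mem_filter] at h1 ⊢
    rcases le_or_gt (gpf (md (ord2 p))) Q with h2 | h2
    · rcases h1 with (h1 | h1) | h1
      · exact Or.inr (Or.inr (Or.inl ⟨h1, h2⟩))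
      · exact Or.inr (Or.inr (Or.inr ⟨h1, h2⟩))
      · exact Or.inr (Or.inl h1)
    · rcases h1 with (h1 | h1) | h1
      · exact Or.inl (Or.inl ⟨h1, h2⟩)
      · exact Or.inl (Or.inr ⟨h1, h2⟩)
      · exact Or.inr (Or.inl h1)
  exact hj p hmem ((hc p (hP.1 p hpP) hk j).1 hpd)

end Pool.Agent.H56.CV
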