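import Pool.Agent.Helper56.CV.Defs

/-!
Project CV (MP_2e7a1b_nt), piece PO.

mem_PO: orderOf_dvd_iff_pow_eq_one and ZMod.natCast_self_eq_zero type arguments.
card_PO_le: the product of the elements divides 2^n - 1 < 2^n and each is >= 2.
sum_PO: the elements are 1 + n i with distinct i >= 1 (p prime, order n divides p-1) and there are at most
n of them, so the sum of 4n/p is at most 4 sum_{i <= n} 1/i <= 4(1 + log n)
(harmonic_le_one_add_log; sum over a set I of r positive integers of 1/i <= H_r).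
-/

namespace Pool.Agent.H56.CV

open Finset

theorem mem_PO (n : ℕ) (hn : 1 ≤ n) (p : ℕ) : p ∈ PO n ↔ p.Prime ∧ ord2 p = n := by
  unfold PO
  rw [Finset.mem_filter, Nat.mem_primeFactors]
  have h2 : 1 < 2 ^ n := Nat.one_lt_two_pow (by omega)
  constructor
  · rintro ⟨⟨hp, -, -⟩, h⟩
    exact ⟨hp, h⟩
  · rintro ⟨hp, h⟩
    refine ⟨⟨hp, ?_, by omega⟩, h⟩
    have h3 : (2 : ZMod p) ^ n = 1 := by
      rw [← h]
      exact pow_orderOf_eq_one _
    rw [← ZMod.natCast_eq_zero_iff, Nat.cast_sub h2.le]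
    push_cast
    rw [h3, sub_self]

theorem card_PO_le (n : ℕ) : (PO n).card ≤ n := by
  rcases Nat.eq_zero_or_pos n with rfl | hn
  · simp [PO]
  have h2 : 1 < 2 ^ n := Nat.one_lt_two_pow (by omega)
  have h3 : (2 ^ n - 1).primeFactors.card ≤ n := by
    have h4 : 2 ^ (2 ^ n - 1).primeFactors.card ≤ ∏ p ∈ (2 ^ n - 1).primeFactors, p := by
      have := Finset.pow_card_le_prod (s := (2 ^ n - 1).primeFactors) (f := fun p => p) (n := 2)
        (fun p hp => (Nat.prime_of_mem_primeFactors hp).two_le)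
      exact this
    have h5 : ∏ p ∈ (2 ^ n - 1).primeFactors, p ≤ 2 ^ n - 1 :=
      Nat.le_of_dvd (by omega) (Nat.prod_primeFactors_dvd _)
    have h6 : 2 ^ (2 ^ n - 1).primeFactors.card < 2 ^ n := by omega
    exact ((Nat.pow_lt_pow_iff_right (by norm_num : 1 < 2)).1 h6).le
  exact (Finset.card_le_card (Finset.filter_subset _ _)).trans h3

/-- sum of reciprocals of distinct positive integers -/
private theorem PO_sum_inv_le (r : ℕ) : ∀ I : Finset ℕ, I.card = r → (∀ i ∈ I, 1 ≤ i) →
    ∑ i ∈ I, (1 : ℝ) / i ≤ ((harmonic r : ℚ) : ℝ) := by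
  induction r with
  | zero =>
    intro I hI _
    rw [Finset.card_eq_zero] at hI
    subst hI
    simp
  | succ r ih =>
    intro I hI hpos
    have hne : I.Nonempty := by
      rw [← Finset.card_pos]
      omega
    set m := I.max' hne with hm
    have hmI : m ∈ I := I.max'_mem hne
    have hle : r + 1 ≤ m := by
      have hsub : I ⊆ Finset.Icc 1 m := by
        intro i hi
        exact Finset.mem_Icc.2 ⟨hpos i hi, I.le_max' i hi⟩
      have := Finset.card_le_card hsub
      rw [Nat.card_Icc] at this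
      omega
    rw [← Finset.add_sum_erase I _ hmI, harmonic_succ]
    have h1 := ih (I.erase m) (by rw [Finset.card_erase_of_mem hmI]; omega)
      (fun i hi => hpos i (Finset.mem_of_mem_erase hi))
    push_cast
    have h2 : (1 : ℝ) / m ≤ ((r : ℝ) + 1)⁻¹ := by
      rw [one_div]
      apply inv_anti₀ (by positivity)
      exact_mod_cast hle
    linarith

theorem sum_PO (n : ℕ) (hn : 1 ≤ n) :
    ∑ p ∈ PO n, (4 * n : ℝ) / p ≤ 4 * (1 + Real.log n) := by
  have hn0 : (0 : ℝ) < n := by exact_mod_cast hn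
  have hdiv : ∀ p ∈ PO n, ∃ i, 1 ≤ i ∧ p = 1 + n * i := by
    intro p hp
    obtain ⟨hpr, ho⟩ := (mem_PO n hn p).1 hp
    haveI : Fact p.Prime := ⟨hpr⟩
    have h2 : (2 : ZMod p) ≠ 0 := by
      intro h
      unfold ord2 at ho
      rw [h, orderOf_eq_zero_iff.2] at ho
      · omega
      · rw [isOfFinOrder_iff_pow_eq_one]
        rintro ⟨k, hk, hk1⟩
        rw [zero_pow (by omega)] at hk1
        exact zero_ne_one hk1
    have hd : n ∣ p - 1 := by
      rw [← ho]
      exact orderOf_dvd_of_pow_eq_one (ZMod.pow_card_sub_one_eq_one h2)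
    obtain ⟨i, hi⟩ := hd
    have hp2 := hpr.two_le
    refine ⟨i, ?_, by omega⟩
    rcases Nat.eq_zero_or_pos i with rfl | h
    · omega
    · exact h
  let g : ℕ → ℕ := fun p => (p - 1) / n
  have hg : ∀ p ∈ PO n, 1 ≤ g p ∧ p = 1 + n * g p := by
    intro p hp
    obtain ⟨i, hi, h⟩ := hdiv p hp
    have : g p = i := by
      show (p - 1) / n = i
      rw [h, Nat.add_sub_cancel_left, Nat.mul_div_cancel_left _ (by omega)]
    rw [this]
    exact ⟨hi, h⟩
  have hinj : Set.InjOn g (PO n : Set ℕ) := by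
    intro p hp q hq h
    rw [(hg p hp).2, (hg q hq).2, h]
  have h1 : ∑ p ∈ PO n, (4 * n : ℝ) / p ≤ ∑ p ∈ PO n, 4 * ((1 : ℝ) / (g p : ℕ)) := by
    apply Finset.sum_le_sum
    intro p hp
    obtain ⟨hi, h⟩ := hg p hp
    have hgp : (0 : ℝ) < g p := by exact_mod_cast hi
    have hpe : (p : ℝ) = 1 + n * g p := by exact_mod_cast h
    rw [hpe, mul_one_div, div_le_div_iff₀ (by positivity) hgp]
    nlinarith
  have h2 : ∑ p ∈ PO n, 4 * ((1 : ℝ) / (g p : ℕ)) = 4 * ∑ i ∈ (PO n).image g, (1 : ℝ) / i := by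
    rw [← Finset.mul_sum, Finset.sum_image hinj]
  have h3 : ∑ i ∈ (PO n).image g, (1 : ℝ) / i ≤ 1 + Real.log n := by
    have h4 := PO_sum_inv_le ((PO n).image g).card ((PO n).image g) rfl (by
      intro i hi
      obtain ⟨p, hp, rfl⟩ := Finset.mem_image.1 hi
      exact (hg p hp).1)
    have h5 : ((PO n).image g).card ≤ n := (Finset.card_image_le).trans (card_PO_le n)
    rcases Nat.eq_zero_or_pos ((PO n).image g).card with h0 | h0
    · rw [h0] at h4
      have h6 : (0 : ℝ) ≤ Real.log n := Real.log_natCast_nonneg n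
      simp only [harmonic_zero, Rat.cast_zero] at h4
      linarith
    · have h6 := harmonic_le_one_add_log ((PO n).image g).card
      have h7 : Real.log ((PO n).image g).card ≤ Real.log n := by
        apply Real.log_le_log (by exact_mod_cast h0)
        exact_mod_cast h5
      linarith
  calc ∑ p ∈ PO n, (4 * n : ℝ) / p ≤ _ := h1
    _ = _ := h2
    _ ≤ _ := by linarith

end Pool.Agent.H56.CV
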