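import Pool.Agent.Helper56.CV.CL
import Pool.Agent.Helper56.CV.PO

/-!
Project CV (MP_2e7a1b_nt), piece DI.

discard_le: union bound over n in [K,N), p in PO n with p > Z, count_le for Q = {p}:
<= sum n * 4n (X/(M Z) + 1).
-/

namespace Pool.Agent.H56.CV

open Finset

/-- The numbers below `X` in the residue class killed by `p`. -/
private noncomputable def diG (M a X p : ℕ) : Finset ℕ :=
  @Finset.filter ℕ (fun t => t ≡ a [MOD M] ∧ ∀ q ∈ ({p} : Finset ℕ), Kills t q)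
    (Classical.decPred _) (Finset.range X)

private theorem diG_card (M a X p Z n : ℕ) (hM : 0 < M) (hZ : 1 ≤ Z) (hp : p.Prime)
    (hpM : ¬ p ∣ M) (hpZ : Z < p) (hn : ord2 p = n) :
    ((diG M a X p).card : ℝ) ≤ 4 * n * (X / (M * Z) + 1) := by
  have h := count_le M a X hM {p} (by
    intro q hq
    rw [Finset.mem_singleton] at hq
    subst hq
    exact ⟨hp, hpM⟩)
  rw [Finset.prod_singleton, Finset.prod_singleton, hn] at h
  refine le_trans h ?_
  have h1 : (X : ℝ) / (M * p) ≤ X / (M * Z) := by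
    have hZ' : (0 : ℝ) < Z := by exact_mod_cast hZ
    have hM' : (0 : ℝ) < M := by exact_mod_cast hM
    have hpZ' : (Z : ℝ) ≤ p := by exact_mod_cast hpZ.le
    gcongr
  gcongr

theorem discard_le (K M a X Z N : ℕ) (hZ : 1 ≤ Z) (hK : 1 ≤ K) (hM : 0 < M)
    (hMK : ∀ p : ℕ, p.Prime → p ∣ M → ord2 p < K) :
    letI := Classical.decPred (fun t => t ≡ a [MOD M] ∧
      ∃ p, p.Prime ∧ Z < p ∧ K ≤ ord2 p ∧ ord2 p < N ∧ Kills t p)
    (((Finset.range X).filter (fun t => t ≡ a [MOD M] ∧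
      ∃ p, p.Prime ∧ Z < p ∧ K ≤ ord2 p ∧ ord2 p < N ∧ Kills t p)).card : ℝ) ≤
      4 * (N : ℝ) ^ 3 * (X / (M * Z) + 1) := by
  set E : ℝ := X / (M * Z) + 1 with hE
  have hE0 : 0 ≤ E := by positivity
  have hsub : (@Finset.filter ℕ (fun t => t ≡ a [MOD M] ∧
      ∃ p, p.Prime ∧ Z < p ∧ K ≤ ord2 p ∧ ord2 p < N ∧ Kills t p)
      (Classical.decPred _) (Finset.range X)) ⊆ (Finset.Ico K N).biUnion fun n =>
        ((PO n).filter fun p => Z < p).biUnion fun p => diG M a X p := by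
    intro t ht
    replace ht := (@Finset.mem_filter _ _ (Classical.decPred _) _ _).1 ht
    obtain ⟨htX, hta, p, hp, hpZ, hpK, hpN, hk⟩ := ht
    rw [Finset.mem_biUnion]
    refine ⟨ord2 p, Finset.mem_Ico.2 ⟨hpK, hpN⟩, ?_⟩
    rw [Finset.mem_biUnion]
    refine ⟨p, Finset.mem_filter.2 ⟨(mem_PO _ (le_trans hK hpK) p).2 ⟨hp, rfl⟩, hpZ⟩, ?_⟩
    refine (@Finset.mem_filter _ _ (Classical.decPred _) _ _).2 ?_
    refine ⟨htX, hta, fun q hq => ?_⟩
    rw [Finset.mem_singleton] at hq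
    subst hq
    exact hk
  have h1 : ((@Finset.filter ℕ (fun t => t ≡ a [MOD M] ∧
      ∃ p, p.Prime ∧ Z < p ∧ K ≤ ord2 p ∧ ord2 p < N ∧ Kills t p)
      (Classical.decPred _) (Finset.range X)).card : ℝ) ≤
        ∑ n ∈ Finset.Ico K N, ∑ p ∈ (PO n).filter fun p => Z < p, ((diG M a X p).card : ℝ) := by
    have h2 := (Finset.card_le_card hsub).trans Finset.card_biUnion_le
    have h3 : ∑ n ∈ Finset.Ico K N, (((PO n).filter fun p => Z < p).biUnion
        fun p => diG M a X p).card ≤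
        ∑ n ∈ Finset.Ico K N, ∑ p ∈ (PO n).filter fun p => Z < p, (diG M a X p).card :=
      Finset.sum_le_sum fun n _ => Finset.card_biUnion_le
    exact_mod_cast h2.trans h3
  refine le_trans h1 ?_
  have h4 : ∀ n ∈ Finset.Ico K N, ∑ p ∈ (PO n).filter fun p => Z < p,
      ((diG M a X p).card : ℝ) ≤ 4 * (N : ℝ) ^ 2 * E := by
    intro n hn
    rw [Finset.mem_Ico] at hn
    have h5 : ∀ p ∈ (PO n).filter fun p => Z < p, ((diG M a X p).card : ℝ) ≤ 4 * n * E := by
      intro p hp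
      rw [Finset.mem_filter] at hp
      obtain ⟨hp1, hp2⟩ := hp
      obtain ⟨hp3, hp4⟩ := (mem_PO n (le_trans hK hn.1) p).1 hp1
      refine diG_card M a X p Z n hM hZ hp3 ?_ hp2 hp4
      intro hd
      have := hMK p hp3 hd
      omega
    refine le_trans (Finset.sum_le_card_nsmul _ _ _ h5) ?_
    rw [nsmul_eq_mul]
    have h6 : (((PO n).filter fun p => Z < p).card : ℝ) ≤ N := by
      have h7 : ((PO n).filter fun p => Z < p).card ≤ N :=
        (Finset.card_filter_le _ _).trans ((card_PO_le n).trans hn.2.le)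
      exact_mod_cast h7
    have h8 : (n : ℝ) ≤ N := by exact_mod_cast hn.2.le
    calc (((PO n).filter fun p => Z < p).card : ℝ) * (4 * n * E) ≤ N * (4 * N * E) := by
          gcongr
      _ = 4 * (N : ℝ) ^ 2 * E := by ring
  refine le_trans (Finset.sum_le_sum h4) ?_
  rw [Finset.sum_const, nsmul_eq_mul, Nat.card_Ico]
  have h9 : ((N - K : ℕ) : ℝ) ≤ N := by exact_mod_cast Nat.sub_le N K
  calc ((N - K : ℕ) : ℝ) * (4 * (N : ℝ) ^ 2 * E) ≤ N * (4 * (N : ℝ) ^ 2 * E) := by gcongr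
    _ = 4 * (N : ℝ) ^ 3 * E := by ring

end Pool.Agent.H56.CV
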