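import Pool.Agent.Helper56.CV.CL
import Pool.Agent.Helper56.CV.PO

/-!
Project CV (MP_2e7a1b_nt), piece DI2.

As discard_le (DI.lean, whose proof can be adapted): exchange the sums, count_le for Q = {p} bounds the number of t
by 4n(X/(MZ)+1), there are at most n primes in PO n, and wt n * n * 4n = 4 n 2^omega(n) <= 4 n tau(n);
sum over n < N of tau(n) <= N (1 + log N).
-/

namespace Pool.Agent.H56.CV

open Finset

/-- The numbers below `X` in the residue class killed by `p`. -/
private noncomputable def DI2_G (M a X p : ℕ) : Finset ℕ :=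
  @Finset.filter ℕ (fun t => t ≡ a [MOD M] ∧ ∀ q ∈ ({p} : Finset ℕ), Kills t q)
    (Classical.decPred _) (Finset.range X)

private theorem DI2_card (M a X p Z n : ℕ) (hM : 0 < M) (hZ : 1 ≤ Z) (hp : p.Prime)
    (hpM : ¬ p ∣ M) (hpZ : Z < p) (hn : ord2 p = n) :
    ((DI2_G M a X p).card : ℝ) ≤ 4 * n * (X / (M * Z) + 1) := by
  have h := count_le M a X hM {p} (by
    intro q hq
    rw [Finset.mem_singleton] at hq
    subst hq
    exact ⟨hp, hpM⟩)
  rw [Finset.prod_singleton, Finset.prod_singleton, hn] at h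
  refine le_trans h ?_
  have h1 : (X : ℝ) / (M * p) ≤ X / (M * Z) := by
    have hZ' : (0 : ℝ) < Z := by exact_mod_cast hZ
    have hM' : (0 : ℝ) < M := by exact_mod_cast hM
    have hpZ' : (Z : ℝ) ≤ p := by exact_mod_cast hpZ.le
    gcongr
  gcongr

/-- The primes which kill `t`, in terms of the sets `DI2_G`. -/
private theorem DI2_kill (M a X Z t n : ℕ) (hX : t < X) (ha : t ≡ a [MOD M])
    (inst : DecidablePred fun p => Z < p ∧ Kills t p) :
    (((@Finset.filter ℕ (fun p => Z < p ∧ Kills t p) inst (PO n)).card : ℕ) : ℝ) ≤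
      ∑ p ∈ (PO n).filter fun p => Z < p, if t ∈ DI2_G M a X p then (1 : ℝ) else 0 := by
  have h1 : (((@Finset.filter ℕ (fun p => Z < p ∧ Kills t p) inst (PO n)).card : ℕ) : ℝ) =
      ∑ p ∈ @Finset.filter ℕ (fun p => Z < p ∧ Kills t p) inst (PO n),
        if t ∈ DI2_G M a X p then (1 : ℝ) else 0 := by
    rw [Finset.card_eq_sum_ones, Nat.cast_sum]
    refine Finset.sum_congr rfl fun p hp => ?_
    rw [Finset.mem_filter] at hp
    rw [if_pos, Nat.cast_one]
    refine (@Finset.mem_filter _ _ (Classical.decPred _) _ _).2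
      ⟨Finset.mem_range.2 hX, ha, fun q hq => ?_⟩
    rw [Finset.mem_singleton] at hq
    subst hq
    exact hp.2.2
  rw [h1]
  refine Finset.sum_le_sum_of_subset_of_nonneg (fun p hp => ?_) fun p _ _ => ?_
  · rw [Finset.mem_filter] at hp
    exact Finset.mem_filter.2 ⟨hp.1, hp.2.1⟩
  · split_ifs
    · exact zero_le_one
    · exact le_rfl

private theorem DI2_two_pow (n : ℕ) (hn : n ≠ 0) :
    (2 : ℕ) ^ n.primeFactors.card ≤ n.divisors.card := by
  rw [Nat.card_divisors hn]
  refine Finset.pow_card_le_prod _ _ _ fun p hp => ?_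
  have h1 := Nat.Prime.factorization_pos_of_dvd (Nat.prime_of_mem_primeFactors hp) hn
    (Nat.dvd_of_mem_primeFactors hp)
  omega

/-- The average of the number of divisors. -/
private theorem DI2_tau (N : ℕ) :
    ∑ n ∈ Finset.Ico 1 N, (2 : ℝ) ^ n.primeFactors.card ≤ N * (1 + Real.log N) := by
  rcases Nat.eq_zero_or_pos N with rfl | hN
  · simp
  obtain ⟨m, rfl⟩ : ∃ m, N = m + 1 := ⟨N - 1, by omega⟩
  have h1 : ∑ n ∈ Finset.Ico 1 (m + 1), (2 : ℝ) ^ n.primeFactors.card ≤
      ∑ n ∈ Finset.Ioc 0 m, ((n.divisors.card : ℕ) : ℝ) := by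
    have h2 : Finset.Ico 1 (m + 1) = Finset.Ioc 0 m := by
      ext x
      rw [Finset.mem_Ico, Finset.mem_Ioc]
      omega
    rw [h2]
    refine Finset.sum_le_sum fun n hn => ?_
    rw [Finset.mem_Ioc] at hn
    exact_mod_cast DI2_two_pow n (by omega)
  have h2 : ∑ n ∈ Finset.Ioc 0 m, ((n.divisors.card : ℕ) : ℝ) =
      ∑ d ∈ Finset.Ioc 0 m, ((m / d : ℕ) : ℝ) := by
    have h3 : ∀ n ∈ Finset.Ioc 0 m, ((n.divisors.card : ℕ) : ℝ) =
        ∑ d ∈ Finset.Ioc 0 m, if d ∣ n then (1 : ℝ) else 0 := by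
      intro n hn
      rw [Finset.mem_Ioc] at hn
      have h4 : n.divisors = (Finset.Ioc 0 m).filter fun d => d ∣ n := by
        ext d
        rw [Nat.mem_divisors, Finset.mem_filter, Finset.mem_Ioc]
        constructor
        · rintro ⟨h5, -⟩
          exact ⟨⟨Nat.pos_of_dvd_of_pos h5 hn.1, (Nat.le_of_dvd hn.1 h5).trans hn.2⟩, h5⟩
        · rintro ⟨-, h5⟩
          exact ⟨h5, by omega⟩
      rw [h4, Finset.card_filter, Nat.cast_sum]
      refine Finset.sum_congr rfl fun d _ => ?_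
      split_ifs <;> simp
    rw [Finset.sum_congr rfl h3, Finset.sum_comm]
    refine Finset.sum_congr rfl fun d _ => ?_
    rw [← Nat.Ioc_filter_dvd_card_eq_div, Finset.card_filter, Nat.cast_sum]
    refine Finset.sum_congr rfl fun n _ => ?_
    split_ifs <;> simp
  have h3 : ∑ d ∈ Finset.Ioc 0 m, ((m / d : ℕ) : ℝ) ≤ m * (harmonic m : ℝ) := by
    rw [harmonic_eq_sum_Icc]
    push_cast
    rw [Finset.mul_sum]
    have h4 : Finset.Ioc 0 m = Finset.Icc 1 m := by
      ext x
      rw [Finset.mem_Icc, Finset.mem_Ioc]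
      omega
    rw [h4]
    refine Finset.sum_le_sum fun d _ => ?_
    rw [← div_eq_mul_inv]
    exact Nat.cast_div_le
  have h4 : (harmonic m : ℝ) ≤ 1 + Real.log m := harmonic_le_one_add_log m
  have h5 : Real.log m ≤ Real.log ((m + 1 : ℕ) : ℝ) := by
    rcases Nat.eq_zero_or_pos m with rfl | hm
    · simp
    · apply Real.log_le_log (by exact_mod_cast hm)
      exact_mod_cast Nat.le_succ m
  have h6 : (0 : ℝ) ≤ Real.log m := Real.log_natCast_nonneg m
  calc _ ≤ m * (harmonic m : ℝ) := by rw [h2] at h1; exact h1.trans h3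
    _ ≤ m * (1 + Real.log ((m + 1 : ℕ) : ℝ)) := by
        apply mul_le_mul_of_nonneg_left _ (Nat.cast_nonneg m)
        linarith
    _ ≤ ((m + 1 : ℕ) : ℝ) * (1 + Real.log ((m + 1 : ℕ) : ℝ)) := by
        apply mul_le_mul_of_nonneg_right _ (by linarith)
        exact_mod_cast Nat.le_succ m

theorem large_mass (K M a X Z N : ℕ) (hZ : 1 ≤ Z) (hK : 1 ≤ K) (hM : 0 < M)
    (hMK : ∀ p : ℕ, p.Prime → p ∣ M → ord2 p < K) :
    letI := fun t => Classical.decPred (fun p => Z < p ∧ Kills t p)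
    ∑ t ∈ (Finset.range X).filter (fun t => t ≡ a [MOD M]),
      ∑ n ∈ Finset.Ico K N, wt n * (((PO n).filter (fun p => Z < p ∧ Kills t p)).card : ℝ) ≤
      4 * (N : ℝ) ^ 2 * (1 + Real.log N) * (X / (M * Z) + 1) := by
  set E : ℝ := X / (M * Z) + 1 with hE
  have hE0 : 0 ≤ E := by positivity
  have hwt : ∀ n, 0 ≤ wt n := fun n => by
    unfold wt
    positivity
  refine (Finset.sum_le_sum fun t ht => Finset.sum_le_sum fun n _ =>
    mul_le_mul_of_nonneg_left (DI2_kill M a X Z t n
      (Finset.mem_range.1 (Finset.mem_filter.1 ht).1) (Finset.mem_filter.1 ht).2 _)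
      (hwt n)).trans ?_
  rw [Finset.sum_comm]
  have h2 : ∀ n ∈ Finset.Ico K N, ∑ t ∈ (Finset.range X).filter (fun t => t ≡ a [MOD M]),
      wt n * ∑ p ∈ (PO n).filter fun p => Z < p,
        (if t ∈ DI2_G M a X p then (1 : ℝ) else 0) ≤
      4 * E * N * 2 ^ n.primeFactors.card := by
    intro n hn
    rw [Finset.mem_Ico] at hn
    rw [← Finset.mul_sum, Finset.sum_comm]
    have h3 : ∀ p ∈ (PO n).filter fun p => Z < p,
        ∑ t ∈ (Finset.range X).filter (fun t => t ≡ a [MOD M]),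
          (if t ∈ DI2_G M a X p then (1 : ℝ) else 0) ≤ 4 * n * E := by
      intro p hp
      rw [Finset.mem_filter] at hp
      obtain ⟨hp1, hp2⟩ := hp
      obtain ⟨hp3, hp4⟩ := (mem_PO n (le_trans hK hn.1) p).1 hp1
      have h4 : ∑ t ∈ (Finset.range X).filter (fun t => t ≡ a [MOD M]),
          (if t ∈ DI2_G M a X p then (1 : ℝ) else 0) ≤ ((DI2_G M a X p).card : ℝ) := by
        rw [← Finset.sum_filter, Finset.sum_const, nsmul_eq_mul, mul_one]
        have h5 : (((Finset.range X).filter (fun t => t ≡ a [MOD M])).filter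
            fun t => t ∈ DI2_G M a X p).card ≤ (DI2_G M a X p).card :=
          Finset.card_le_card fun t ht => (Finset.mem_filter.1 ht).2
        exact_mod_cast h5
      refine h4.trans (DI2_card M a X p Z n hM hZ hp3 ?_ hp2 hp4)
      intro hd
      have := hMK p hp3 hd
      omega
    have hn0 : (0 : ℝ) < n := by
      have : 0 < n := by omega
      exact_mod_cast this
    have h6 : ∑ p ∈ (PO n).filter fun p => Z < p,
        ∑ t ∈ (Finset.range X).filter (fun t => t ≡ a [MOD M]),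
          (if t ∈ DI2_G M a X p then (1 : ℝ) else 0) ≤ N * (4 * n * E) := by
      refine le_trans (Finset.sum_le_card_nsmul _ _ _ h3) ?_
      rw [nsmul_eq_mul]
      have h7 : (((PO n).filter fun p => Z < p).card : ℝ) ≤ N := by
        have h8 : ((PO n).filter fun p => Z < p).card ≤ N :=
          (Finset.card_filter_le _ _).trans ((card_PO_le n).trans hn.2.le)
        exact_mod_cast h8
      gcongr
    calc _ ≤ wt n * (N * (4 * n * E)) := mul_le_mul_of_nonneg_left h6 (hwt n)
      _ = 4 * E * N * 2 ^ n.primeFactors.card := by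
          unfold wt
          field_simp
  refine (Finset.sum_le_sum h2).trans ?_
  rw [← Finset.mul_sum]
  have h3 : ∑ n ∈ Finset.Ico K N, (2 : ℝ) ^ n.primeFactors.card ≤ N * (1 + Real.log N) := by
    refine le_trans (Finset.sum_le_sum_of_subset_of_nonneg ?_ fun _ _ _ => by positivity)
      (DI2_tau N)
    exact Finset.Ico_subset_Ico hK le_rfl
  calc 4 * E * N * ∑ n ∈ Finset.Ico K N, (2 : ℝ) ^ n.primeFactors.card
      ≤ 4 * E * N * (N * (1 + Real.log N)) := by gcongr
    _ = 4 * (N : ℝ) ^ 2 * (1 + Real.log N) * E := by ring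

end Pool.Agent.H56.CV
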