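import Pool.Agent.Helper56.CV.Defs

/-!
Project CV (MP_2e7a1b_nt), piece EU.

Rankin / Euler product: f(L) = tau(L)^(h+1) L^(t-1) is multiplicative, so by
EulerProduct.summable_and_hasSum_smoothNumbers_prod_primesBelow_tsum the sum over Ls is at most
prod over p < q of sum_a (a+1)^(h+1) p^(-a(1-t)), and for a >= 1
p^(-a(1-t)) = p^(-1) p^t p^(-(a-1)(1-t)) <= (E0/p) 2^(-(a-1)*3/4), so the factor at p is
<= 1 + C'/p <= exp(C'/p) with C' = E0 * sum_{a>=1} (a+1)^(h+1) 2^(-3(a-1)/4).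
-/

namespace Pool.Agent.H56.CV

open Finset

/-- The ratio `2 ^ (-3/4)`. -/
private noncomputable def euR : ℝ := (2 : ℝ) ^ (-(3 / 4) : ℝ)

private lemma euR_pos : 0 < euR := by
  unfold euR; positivity

private lemma euR_lt_one : euR < 1 := by
  unfold euR
  exact Real.rpow_lt_one_of_one_lt_of_neg (by norm_num) (by norm_num)

private lemma eu_summable (k c : ℕ) : Summable (fun a : ℕ => ((a + c : ℕ) : ℝ) ^ k * euR ^ a) := by
  have h1 : Summable (fun a : ℕ => (a : ℝ) ^ k * euR ^ a) :=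
    summable_pow_mul_geometric_of_norm_lt_one k (by
      rw [Real.norm_eq_abs, abs_of_pos euR_pos]; exact euR_lt_one)
  have h2 := (summable_nat_add_iff c).mpr h1
  have h3 := h2.mul_left ((euR ^ c)⁻¹)
  refine h3.congr ?_
  intro a
  have : euR ^ c ≠ 0 := pow_ne_zero _ euR_pos.ne'
  rw [pow_add]
  field_simp

private lemma eu_pow_le (p : ℕ) (hp : 2 ≤ p) (t : ℝ) (ht : t ≤ 1 / 4) (a : ℕ) :
    ((p ^ a : ℕ) : ℝ) ^ (t - 1) ≤ euR ^ a := by
  have hpr : (2 : ℝ) ≤ p := by exact_mod_cast hp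
  have h1 : (1 : ℝ) ≤ ((p ^ a : ℕ) : ℝ) := by
    push_cast
    exact one_le_pow₀ (by linarith)
  calc ((p ^ a : ℕ) : ℝ) ^ (t - 1) ≤ ((p ^ a : ℕ) : ℝ) ^ (-(3 / 4) : ℝ) :=
        Real.rpow_le_rpow_of_exponent_le h1 (by linarith)
    _ ≤ ((2 : ℝ) ^ a) ^ (-(3 / 4) : ℝ) := by
        apply Real.rpow_le_rpow_of_nonpos (by positivity) _ (by norm_num)
        push_cast
        exact pow_le_pow_left₀ (by norm_num) hpr a
    _ = euR ^ a := by
        unfold euR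
        rw [← Real.rpow_natCast, ← Real.rpow_natCast, ← Real.rpow_mul (by norm_num),
          ← Real.rpow_mul (by norm_num)]
        ring_nf

theorem euler_bound (h : ℕ) (E0 : ℝ) (hE0 : 1 ≤ E0) :
    ∃ C' : ℝ, 0 ≤ C' ∧ ∀ (q : ℕ) (t : ℝ) (Ls : Finset ℕ), 0 ≤ t → t ≤ 1 / 4 →
      (q : ℝ) ^ t ≤ E0 → (∀ L ∈ Ls, L ∈ Nat.smoothNumbers q) →
      ∑ L ∈ Ls, (L.divisors.card : ℝ) ^ (h + 1) * (L : ℝ) ^ (t - 1) ≤
        Real.exp (C' * ∑ p ∈ q.primesBelow, (1 : ℝ) / p) := by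
  classical
  have hE0' : 0 ≤ E0 := by linarith
  have hS2 := eu_summable (h + 1) 2
  refine ⟨E0 * ∑' a : ℕ, ((a + 2 : ℕ) : ℝ) ^ (h + 1) * euR ^ a,
    mul_nonneg hE0' (tsum_nonneg fun a => by have := euR_pos; positivity), ?_⟩
  intro q t Ls ht0 ht1 hq hLs
  set f : ℕ → ℝ := fun L => (L.divisors.card : ℝ) ^ (h + 1) * (L : ℝ) ^ (t - 1) with hf
  have hfnn : ∀ L, 0 ≤ f L := fun L => by positivity
  have hf1 : f 1 = 1 := by simp [hf]
  have hmul : ∀ {m n : ℕ}, Nat.Coprime m n → f (m * n) = f m * f n := by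
    intro m n hmn
    simp only [hf]
    rw [Nat.Coprime.card_divisors_mul hmn]
    push_cast
    rw [Real.mul_rpow (by positivity) (by positivity), mul_pow]
    ring
  have hfp : ∀ (p : ℕ), p.Prime → ∀ a : ℕ,
      f (p ^ a) = ((a + 1 : ℕ) : ℝ) ^ (h + 1) * ((p ^ a : ℕ) : ℝ) ^ (t - 1) := by
    intro p hp a
    simp only [hf]
    rw [Nat.divisors_prime_pow hp, Finset.card_map, Finset.card_range]
  have hsum : ∀ {p : ℕ}, p.Prime → Summable (fun n : ℕ => ‖f (p ^ n)‖) := by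
    intro p hp
    refine Summable.of_nonneg_of_le (fun _ => norm_nonneg _) (fun a => ?_)
      (eu_summable (h + 1) 1)
    rw [Real.norm_eq_abs, abs_of_nonneg (hfnn _), hfp p hp a]
    exact mul_le_mul_of_nonneg_left (eu_pow_le p hp.two_le t ht1 a) (by positivity)
  have hE := EulerProduct.summable_and_hasSum_smoothNumbers_prod_primesBelow_tsum hf1 hmul hsum q
  have hle : ∑ L ∈ Ls, f L ≤ ∏ p ∈ q.primesBelow, ∑' n : ℕ, f (p ^ n) := by
    rw [← Finset.sum_subtype_of_mem f hLs]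
    exact sum_le_hasSum _ (fun m _ => hfnn m) hE.2
  refine hle.trans ?_
  rw [Finset.mul_sum, Real.exp_sum]
  apply Finset.prod_le_prod
  · intro p _
    exact tsum_nonneg fun a => hfnn _
  · intro p hp
    obtain ⟨hpq, hpp⟩ := Nat.mem_primesBelow.mp hp
    have hp0 : (0 : ℝ) < p := by exact_mod_cast hpp.pos
    have hsp : Summable (fun n : ℕ => f (p ^ n)) := (hsum hpp).of_norm
    rw [hsp.tsum_eq_zero_add]
    have hpt : (p : ℝ) ^ t ≤ E0 :=
      le_trans (Real.rpow_le_rpow (by positivity) (by exact_mod_cast hpq.le) ht0) hq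
    have hterm : ∀ a : ℕ, f (p ^ (a + 1)) ≤
        (E0 * (1 / p)) * (((a + 2 : ℕ) : ℝ) ^ (h + 1) * euR ^ a) := by
      intro a
      rw [hfp p hpp (a + 1)]
      have h1 : ((p ^ (a + 1) : ℕ) : ℝ) ^ (t - 1) =
          ((p ^ a : ℕ) : ℝ) ^ (t - 1) * ((p : ℝ) ^ t * (1 / p)) := by
        rw [pow_succ]
        push_cast
        rw [Real.mul_rpow (by positivity) (by positivity), Real.rpow_sub hp0 t 1, Real.rpow_one]
        ring
      rw [h1]
      have h2 := eu_pow_le p hpp.two_le t ht1 a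
      have h3 : (p : ℝ) ^ t * (1 / p) ≤ E0 * (1 / p) :=
        mul_le_mul_of_nonneg_right hpt (by positivity)
      have h4 : ((p ^ a : ℕ) : ℝ) ^ (t - 1) * ((p : ℝ) ^ t * (1 / p)) ≤
          euR ^ a * (E0 * (1 / p)) :=
        mul_le_mul h2 h3 (by positivity) (by have := euR_pos; positivity)
      calc ((a + 1 + 1 : ℕ) : ℝ) ^ (h + 1) *
            (((p ^ a : ℕ) : ℝ) ^ (t - 1) * ((p : ℝ) ^ t * (1 / p)))
          ≤ ((a + 1 + 1 : ℕ) : ℝ) ^ (h + 1) * (euR ^ a * (E0 * (1 / p))) :=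
            mul_le_mul_of_nonneg_left h4 (by positivity)
        _ = _ := by ring
    have hs1 : Summable (fun n : ℕ => f (p ^ (n + 1))) := (summable_nat_add_iff 1).mpr hsp
    have h5 : ∑' a : ℕ, f (p ^ (a + 1)) ≤
        (E0 * (1 / p)) * ∑' a : ℕ, ((a + 2 : ℕ) : ℝ) ^ (h + 1) * euR ^ a := by
      rw [← tsum_mul_left]
      exact hs1.tsum_le_tsum hterm (hS2.mul_left _)
    have h6 : f (p ^ 0) = 1 := by rw [pow_zero]; exact hf1
    rw [h6]
    calc 1 + ∑' a : ℕ, f (p ^ (a + 1))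
        ≤ 1 + (E0 * (1 / p)) * ∑' a : ℕ, ((a + 2 : ℕ) : ℝ) ^ (h + 1) * euR ^ a := by linarith
      _ = E0 * (∑' a : ℕ, ((a + 2 : ℕ) : ℝ) ^ (h + 1) * euR ^ a) * (1 / p) + 1 := by ring
      _ ≤ _ := Real.add_one_le_exp _

end Pool.Agent.H56.CV
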