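import Pool.Agent.Helper56.CV.Defs
import Pool.Agent.Helper9.Fam.Mertens

/-!
Project CV (MP_2e7a1b_nt), piece ME.

ME: from Pool.Agent.Helper9.Fam.Mertens (mertens_two: sum of 1/p up to n is log log n + O(1)) or
directly; log log q <= kappa log q + const.   
-/

namespace Pool.Agent.H56.CV

open Finset

theorem mertens_small (κ : ℝ) (hκ : 0 < κ) :
    ∃ A : ℝ, 0 ≤ A ∧ ∀ q : ℕ, 1 ≤ q →
      ∑ p ∈ q.primesBelow, (1 : ℝ) / p ≤ κ * Real.log q + A := by
  obtain ⟨C, hC, h2⟩ := Pool.Agent.Helper9.Fam.mertens_two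
  refine ⟨C + |Real.log κ|, by positivity, fun q hq => ?_⟩
  rcases Nat.lt_or_ge q 2 with hlt | hge
  · have hq1 : q = 1 := by omega
    subst hq1
    have : Nat.primesBelow 1 = ∅ := by decide
    rw [this]
    simp only [Finset.sum_empty, Nat.cast_one, Real.log_one, mul_zero, zero_add]
    positivity
  · have h3 := (abs_le.mp (h2 q hge)).2
    have hsub : q.primesBelow ⊆ Pool.Agent.Helper9.Fam.pr q := by
      intro p hp
      rw [Nat.mem_primesBelow] at hp
      rw [Pool.Agent.Helper9.Fam.mem_pr]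
      exact ⟨hp.2, hp.1.le⟩
    have h4 : ∑ p ∈ q.primesBelow, (1 : ℝ) / p
        ≤ ∑ p ∈ Pool.Agent.Helper9.Fam.pr q, (1 : ℝ) / p :=
      Finset.sum_le_sum_of_subset_of_nonneg hsub (fun i _ _ => by positivity)
    have hL : 0 < Real.log (q : ℝ) := Real.log_pos (by exact_mod_cast hge)
    have h5 : Real.log (κ * Real.log q) ≤ κ * Real.log q - 1 :=
      Real.log_le_sub_one_of_pos (mul_pos hκ hL)
    rw [Real.log_mul hκ.ne' hL.ne'] at h5
    have h6 := neg_abs_le (Real.log κ)
    linarith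

end Pool.Agent.H56.CV
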