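import Pool.Agent.Helper56.CV.Defs

/-!
Project CV (MP_2e7a1b_nt), piece SL.

AM-GM: C sqrt x <= lam + C^2 x / (4 lam) with x = log n, and n^a = exp(a log n).
-/

namespace Pool.Agent.H56.CV

open Finset

theorem S_le (C δ : ℝ) (hC : 0 ≤ C) (n : ℕ) (hn : 1 ≤ n) (lam : ℝ) (hl : 0 < lam) :
    S C δ n ≤ (gpf n : ℝ) ^ (1 - δ) * Real.exp lam * (n : ℝ) ^ (C ^ 2 / (4 * lam)) := by
  have hn0 : (0 : ℝ) < n := by exact_mod_cast hn
  have hlog : 0 ≤ Real.log n := Real.log_nonneg (by exact_mod_cast hn)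
  set x := Real.log n with hx
  have hs : Real.sqrt x ^ 2 = x := Real.sq_sqrt hlog
  have h1 : C * Real.sqrt x ≤ lam + x * (C ^ 2 / (4 * lam)) := by
    have h2 : 0 ≤ (C * Real.sqrt x - 2 * lam) ^ 2 := sq_nonneg _
    have h3 : lam + x * (C ^ 2 / (4 * lam)) - C * Real.sqrt x =
        (C * Real.sqrt x - 2 * lam) ^ 2 / (4 * lam) := by
      rw [eq_div_iff (by positivity)]
      have h4 : (lam + x * (C ^ 2 / (4 * lam)) - C * Real.sqrt x) * (4 * lam) =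
          4 * lam ^ 2 + C ^ 2 * x - 4 * lam * (C * Real.sqrt x) := by
        field_simp
      rw [h4]
      have h5 : (C * Real.sqrt x - 2 * lam) ^ 2 =
          C ^ 2 * Real.sqrt x ^ 2 - 4 * lam * (C * Real.sqrt x) + 4 * lam ^ 2 := by ring
      rw [h5, hs]
      ring
    have h6 : 0 ≤ (C * Real.sqrt x - 2 * lam) ^ 2 / (4 * lam) := by positivity
    linarith
  have h7 : (n : ℝ) ^ (C ^ 2 / (4 * lam)) = Real.exp (x * (C ^ 2 / (4 * lam))) := by
    rw [Real.rpow_def_of_pos hn0]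
  have h8 : (0 : ℝ) ≤ (gpf n : ℝ) ^ (1 - δ) := Real.rpow_nonneg (Nat.cast_nonneg _) _
  unfold S
  rw [h7, mul_assoc, ← Real.exp_add]
  exact mul_le_mul_of_nonneg_left (Real.exp_le_exp.2 h1) h8

end Pool.Agent.H56.CV
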