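import Pool.Agent.Helper56.CV.Defs

/-!
Project CV (MP_2e7a1b_nt), piece TS.

TS: split at Q0 with sum_{q > Q0} A/q^2 <= eps/2; for
q <= Q0 the factor K^(-1/(8(1+log Q0))) tends to 0.
-/

namespace Pool.Agent.H56.CV

open Finset

theorem tail_small (A ε : ℝ) (hA : 0 ≤ A) (hε : 0 < ε) :
    ∃ K0 : ℕ, 2 ≤ K0 ∧ ∀ K : ℕ, K0 ≤ K → ∀ Q : Finset ℕ, (∀ q ∈ Q, 2 ≤ q) →
      ∑ q ∈ Q, A * ((q : ℝ) ^ 2)⁻¹ * (K : ℝ) ^ (-(1 / (8 * (1 + Real.log q)))) ≤ ε := by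
  have hsum : Summable (fun q : ℕ => A * ((q : ℝ) ^ 2)⁻¹) :=
    (Real.summable_nat_pow_inv.mpr (by norm_num)).mul_left A
  obtain ⟨s, hs⟩ := summable_iff_vanishing_norm.mp hsum (ε / 2) (by positivity)
  have hlim : Filter.Tendsto (fun K : ℕ => ∑ q ∈ s.filter (fun q => 2 ≤ q),
      A * ((q : ℝ) ^ 2)⁻¹ * (K : ℝ) ^ (-(1 / (8 * (1 + Real.log q))))) Filter.atTop
      (nhds (∑ q ∈ s.filter (fun q => 2 ≤ q), A * ((q : ℝ) ^ 2)⁻¹ * 0)) := by
    apply tendsto_finsetSum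
    intro q hq
    apply Filter.Tendsto.const_mul
    have hq2 : 2 ≤ q := (Finset.mem_filter.mp hq).2
    have hlog : 0 ≤ Real.log q := Real.log_nonneg (by exact_mod_cast (by omega : 1 ≤ q))
    have hpos : 0 < 1 / (8 * (1 + Real.log q)) := by positivity
    exact (tendsto_rpow_neg_atTop hpos).comp tendsto_natCast_atTop_atTop
  simp only [mul_zero, Finset.sum_const_zero] at hlim
  obtain ⟨K1, hK1⟩ := Filter.eventually_atTop.mp
    (hlim.eventually (Iic_mem_nhds (show (0 : ℝ) < ε / 2 by positivity)))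
  refine ⟨max K1 2, le_max_right _ _, ?_⟩
  intro K hK Q hQ
  have hKK1 : K1 ≤ K := le_trans (le_max_left _ _) hK
  have hK2 : 2 ≤ K := le_trans (le_max_right _ _) hK
  have hKr : (1 : ℝ) ≤ K := by exact_mod_cast (by omega : 1 ≤ K)
  have h1 := hK1 K hKK1
  rw [← Finset.sum_filter_add_sum_filter_not Q (fun q => q ∈ s)]
  have hA1 : ∑ q ∈ Q.filter (fun q => q ∈ s),
      A * ((q : ℝ) ^ 2)⁻¹ * (K : ℝ) ^ (-(1 / (8 * (1 + Real.log q)))) ≤ ε / 2 := by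
    refine le_trans (Finset.sum_le_sum_of_subset_of_nonneg ?_ ?_) h1
    · intro q hq
      rw [Finset.mem_filter] at hq ⊢
      exact ⟨hq.2, hQ q hq.1⟩
    · intro q _ _
      positivity
  have hA2 : ∑ q ∈ Q.filter (fun q => ¬ q ∈ s),
      A * ((q : ℝ) ^ 2)⁻¹ * (K : ℝ) ^ (-(1 / (8 * (1 + Real.log q)))) ≤ ε / 2 := by
    have h2 := hs (Q.filter (fun q => ¬ q ∈ s)) (by
      rw [Finset.disjoint_left]
      intro q hq
      exact (Finset.mem_filter.mp hq).2)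
    have h3 : ∑ q ∈ Q.filter (fun q => ¬ q ∈ s), A * ((q : ℝ) ^ 2)⁻¹ ≤ ε / 2 :=
      le_trans (le_trans (le_abs_self _) (by rw [← Real.norm_eq_abs])) h2.le
    refine le_trans (Finset.sum_le_sum ?_) h3
    intro q hq
    have hq2 : 2 ≤ q := hQ q (Finset.mem_filter.mp hq).1
    have hlog : 0 ≤ Real.log q := Real.log_nonneg (by exact_mod_cast (by omega : 1 ≤ q))
    have h4 : (K : ℝ) ^ (-(1 / (8 * (1 + Real.log q)))) ≤ 1 := by
      apply Real.rpow_le_one_of_one_le_of_nonpos hKr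
      have : 0 < 1 / (8 * (1 + Real.log q)) := by positivity
      linarith
    have h5 : 0 ≤ A * ((q : ℝ) ^ 2)⁻¹ := by positivity
    calc A * ((q : ℝ) ^ 2)⁻¹ * (K : ℝ) ^ (-(1 / (8 * (1 + Real.log q))))
        ≤ A * ((q : ℝ) ^ 2)⁻¹ * 1 := mul_le_mul_of_nonneg_left h4 h5
      _ = A * ((q : ℝ) ^ 2)⁻¹ := mul_one _
  linarith

end Pool.Agent.H56.CV
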