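import Pool.Agent.Helper56.CV.ML
import Pool.Agent.Helper56.CV.SL
import Pool.Agent.Helper56.CV.EU
import Pool.Agent.Helper56.CV.ME
import Pool.Agent.Helper56.CV.TS

/-!
Project CV (MP_2e7a1b_nt), piece DS: the distortion sum for the threshold `S` is small.
-/

namespace Pool.Agent.H56.CV

open Finset

private lemma DS_one (C δ : ℝ) (hC : 0 ≤ C) (hδ : 0 < δ) (h : ℕ) (hh : 6 / δ ≤ h)
    (K q n : ℕ) (hK : 2 ≤ K) (hq : q.Prime) (hn : K ≤ n) (hg : gpf n = q) :
    S C δ n ≤ ((q : ℝ) ^ (1 - δ) * Real.exp (2 * h * C ^ 2 + 1 + δ / 2 * Real.log q) *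
      (K : ℝ) ^ (-(1 / (8 * h * (1 + Real.log q))))) *
      (n : ℝ) ^ (C ^ 2 / (4 * (2 * h * C ^ 2 + 1 + δ / 2 * Real.log q)) +
        1 / (8 * h * (1 + Real.log q))) := by
  have hq1 : (1 : ℝ) ≤ q := by exact_mod_cast hq.one_lt.le
  have hlq : 0 ≤ Real.log q := Real.log_nonneg hq1
  have hh0 : (0 : ℝ) < h := lt_of_lt_of_le (by positivity) hh
  have hlam : 0 < 2 * h * C ^ 2 + 1 + δ / 2 * Real.log q := by positivity
  have hK0 : (0 : ℝ) < K := by exact_mod_cast (by omega : 0 < K)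
  have hn0 : (0 : ℝ) < n := by exact_mod_cast (by omega : 0 < n)
  have h1 := S_le C δ hC n (by omega) _ hlam
  rw [hg] at h1
  set κ : ℝ := 1 / (8 * h * (1 + Real.log q)) with hκ
  have hκ0 : 0 ≤ κ := by positivity
  have h2 : (1 : ℝ) ≤ (K : ℝ) ^ (-κ) * (n : ℝ) ^ κ := by
    rw [Real.rpow_neg hK0.le, ← Real.inv_rpow hK0.le, ← Real.mul_rpow (by positivity) hn0.le]
    apply Real.one_le_rpow _ hκ0
    rw [inv_mul_eq_div, le_div_iff₀ hK0, one_mul]
    exact_mod_cast hn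
  rw [Real.rpow_add hn0]
  have hpos : 0 ≤ (q : ℝ) ^ (1 - δ) * Real.exp (2 * h * C ^ 2 + 1 + δ / 2 * Real.log q) *
      (n : ℝ) ^ (C ^ 2 / (4 * (2 * h * C ^ 2 + 1 + δ / 2 * Real.log q))) := by positivity
  calc S C δ n ≤ _ := h1
    _ ≤ (q : ℝ) ^ (1 - δ) * Real.exp (2 * h * C ^ 2 + 1 + δ / 2 * Real.log q) *
      (n : ℝ) ^ (C ^ 2 / (4 * (2 * h * C ^ 2 + 1 + δ / 2 * Real.log q))) *
      ((K : ℝ) ^ (-κ) * (n : ℝ) ^ κ) := le_mul_of_one_le_right hpos h2
    _ = _ := by ring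

theorem dist_small (C δ : ℝ) (hC : 0 ≤ C) (hδ : 0 < δ) (hδ1 : δ < 1) (ε : ℝ) (hε : 0 < ε) :
    ∃ K0 : ℕ, 2 ≤ K0 ∧ ∀ K Y : ℕ, K0 ≤ K → distSum ⌈6 / δ⌉₊ K Y (S C δ) ≤ ε := by
  set h : ℕ := ⌈6 / δ⌉₊ with hdef
  have hh : 6 / δ ≤ h := Nat.le_ceil _
  have h6 : 6 ≤ δ * h := by
    have := (div_le_iff₀ hδ).1 hh
    linarith
  have hh0 : (0 : ℝ) < h := lt_of_lt_of_le (by positivity) hh
  have hh1 : (1 : ℝ) ≤ h := by
    have : 0 < h := by exact_mod_cast hh0
    exact_mod_cast this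
  set E1 : ℝ := h * C ^ 2 / (2 * δ) + 1 / 8 with hE1
  have hE1p : 0 ≤ E1 := by positivity
  obtain ⟨C', hC', hEu⟩ := euler_bound h (Real.exp E1) (Real.one_le_exp hE1p)
  obtain ⟨A, hA, hMe⟩ := mertens_small (1 / (C' + 1)) (by positivity)
  set B : ℝ := 2 ^ h * (4 ^ h * Real.exp (h * (2 * h * C ^ 2 + 1) + E1 + C' * A)) with hB
  obtain ⟨K0, hK0, hT⟩ := tail_small B ε (by positivity) hε
  refine ⟨K0, hK0, fun K Y hKK => ?_⟩
  refine le_trans ?_ (hT K hKK Y.primesBelow fun q hq => (Nat.prime_of_mem_primesBelow hq).two_le)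
  unfold distSum
  apply Finset.sum_le_sum
  intro q hq
  have hqp := Nat.prime_of_mem_primesBelow hq
  have hq1 : (1 : ℝ) ≤ q := by exact_mod_cast hqp.one_lt.le
  have hq0 : (0 : ℝ) < q := by linarith
  have hK0' : (0 : ℝ) < K := by exact_mod_cast (by omega : 0 < K)
  set x : ℝ := Real.log q with hx
  have hx0 : 0 ≤ x := Real.log_nonneg hq1
  set y : ℝ := Real.log K with hy
  set lam : ℝ := 2 * h * C ^ 2 + 1 + δ / 2 * x with hlam
  have hlam0 : 0 < lam := by positivity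
  set κ : ℝ := 1 / (8 * h * (1 + x)) with hκ
  have hκ0 : 0 ≤ κ := by positivity
  set θ : ℝ := C ^ 2 / (4 * lam) + κ with hθ
  have hθ0 : 0 ≤ θ := by positivity
  have hκh : h * κ = 1 / (8 * (1 + x)) := by
    rw [hκ]; field_simp
  have hκh8 : h * κ ≤ 1 / 8 := by
    rw [hκh, div_le_div_iff₀ (by positivity) (by norm_num)]
    linarith
  have hc1 : h * (C ^ 2 / (4 * lam)) ≤ 1 / 8 := by
    rw [mul_div_assoc', div_le_div_iff₀ (by positivity) (by norm_num), hlam]
    have : 0 ≤ δ / 2 * x := by positivity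
    nlinarith
  have hhθ : h * θ ≤ 1 / 4 := by
    rw [hθ, mul_add]; linarith
  have hθ4 : θ ≤ 1 / 4 := by
    nlinarith
  have hlx : lam ≥ δ / 2 * x := by
    rw [hlam]
    have : 0 ≤ 2 * h * C ^ 2 := by positivity
    linarith
  have hθx : h * θ * x ≤ E1 := by
    rw [hθ, hE1]
    have e1 : h * (C ^ 2 / (4 * lam)) * x ≤ h * C ^ 2 / (2 * δ) := by
      rw [mul_div_assoc', div_mul_eq_mul_div, div_le_div_iff₀ (by positivity) (by positivity)]
      have : 0 ≤ h * C ^ 2 := by positivity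
      nlinarith
    have e2 : h * κ * x ≤ 1 / 8 := by
      rw [hκh, div_mul_eq_mul_div, div_le_div_iff₀ (by positivity) (by norm_num)]
      linarith
    calc h * (C ^ 2 / (4 * lam) + κ) * x = h * (C ^ 2 / (4 * lam)) * x + h * κ * x := by ring
      _ ≤ _ := add_le_add e1 e2
  set G : ℝ := (q : ℝ) ^ (1 - δ) * Real.exp lam * (K : ℝ) ^ (-κ) with hG
  have hG0 : 0 ≤ G := by positivity
  have hSn : ∀ n, 0 ≤ S C δ n := fun n => by unfold S; positivity
  have hm := mom_le h q K Y hqp (S C δ) hSn G θ hG0 hθ0 hθ4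
    (fun n hn hg => DS_one C δ hC hδ h hh K q n (by omega) hqp hn hg)
  have hqt : (q : ℝ) ^ (h * θ) ≤ Real.exp E1 := by
    rw [Real.rpow_def_of_pos hq0]
    apply Real.exp_le_exp.2
    rw [mul_comm]; exact hθx
  have hEu' := hEu q (h * θ) ((Finset.range (Y ^ h + 1)).filter (fun L => L ∈ Nat.smoothNumbers q))
    (by positivity) hhθ hqt (fun L hL => (Finset.mem_filter.1 hL).2)
  have hMe' := hMe q hqp.one_lt.le
  have hexp : Real.exp (C' * ∑ p ∈ q.primesBelow, (1 : ℝ) / p) ≤ Real.exp (x + C' * A) := by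
    apply Real.exp_le_exp.2
    have : C' * (1 / (C' + 1) * x + A) ≤ x + C' * A := by
      have h1 : C' * (1 / (C' + 1)) ≤ 1 := by
        rw [mul_one_div, div_le_one (by positivity)]; linarith
      have h2 := mul_le_mul_of_nonneg_right h1 hx0
      calc C' * (1 / (C' + 1) * x + A) = C' * (1 / (C' + 1)) * x + C' * A := by ring
        _ ≤ 1 * x + C' * A := by linarith
        _ = _ := by ring
    exact (mul_le_mul_of_nonneg_left hMe' hC').trans this
  clear_value lam κ θ E1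
  have hbase : 4 * G * (q : ℝ) ^ (θ - 1) =
      4 * Real.exp ((1 - δ) * x + lam - κ * y + (θ - 1) * x) := by
    rw [hG, Real.rpow_def_of_pos hq0, Real.rpow_def_of_pos hq0, Real.rpow_def_of_pos hK0']
    have e0 : (1 - δ) * x + lam - κ * y + (θ - 1) * x =
        x * (1 - δ) + lam + y * -κ + x * (θ - 1) := by ring
    rw [e0, Real.exp_add, Real.exp_add, Real.exp_add]
    ring
  have hfin : mom h q K Y (S C δ) ≤
      4 ^ h * Real.exp (h * (2 * h * C ^ 2 + 1) + E1 + C' * A) * ((q : ℝ) ^ 2)⁻¹ *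
        (K : ℝ) ^ (-(1 / (8 * (1 + x)))) := by
    calc mom h q K Y (S C δ) ≤ _ := hm
      _ ≤ (4 * G * (q : ℝ) ^ (θ - 1)) ^ h * Real.exp (x + C' * A) :=
          mul_le_mul_of_nonneg_left (hEu'.trans hexp) (by positivity)
      _ = 4 ^ h * Real.exp (h * ((1 - δ) * x + lam - κ * y + (θ - 1) * x) + (x + C' * A)) := by
          rw [hbase, mul_pow, ← Real.exp_nat_mul, mul_assoc, ← Real.exp_add]
      _ ≤ 4 ^ h * Real.exp ((h * (2 * h * C ^ 2 + 1) + E1 + C' * A) + (-(2 * x)) +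
            (y * (-(1 / (8 * (1 + x)))))) := by
          apply mul_le_mul_of_nonneg_left _ (by positivity)
          apply Real.exp_le_exp.2
          rw [← hκh]
          have : h * ((1 - δ) * x + lam - κ * y + (θ - 1) * x) + (x + C' * A) =
            h * (2 * h * C ^ 2 + 1) + h * θ * x + C' * A + (x - δ * h / 2 * x) - h * κ * y := by
            rw [hlam]; ring
          rw [this]
          have h3 : 0 ≤ (δ * h - 6) * x := mul_nonneg (by linarith) hx0
          have h4 : x - δ * h / 2 * x ≤ -(2 * x) := by linarith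
          have h5 : y * (-(h * κ)) = -(h * κ * y) := by ring
          rw [h5]
          linarith
      _ = _ := by
          rw [Real.exp_add, Real.exp_add, Real.rpow_def_of_pos hK0', ← hy]
          have : Real.exp (-(2 * x)) = ((q : ℝ) ^ 2)⁻¹ := by
            rw [Real.exp_neg, hx, show (2 : ℝ) * Real.log q = ((2 : ℕ) : ℝ) * Real.log q by norm_num,
              Real.exp_nat_mul, Real.exp_log hq0]
          rw [this]; ring
  calc 2 ^ h * mom h q K Y (S C δ) ≤ 2 ^ h * _ := mul_le_mul_of_nonneg_left hfin (by positivity)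
    _ = _ := by rw [hB]; ring

end Pool.Agent.H56.CV
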