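import Mathlib

/-!
Project CV (MP_2e7a1b_nt): basic definitions.
-/

namespace Pool.Agent.H56.CV

open Finset

/-- The largest prime factor of `n` (and `0` for `n ≤ 1`). -/
def gpf (n : ℕ) : ℕ := n.primeFactors.sup id

/-- The multiplicity threshold `gpf(n)^(1-δ) * exp(C * sqrt(log n))`. -/
noncomputable def S (C δ : ℝ) (n : ℕ) : ℝ :=
  (gpf n : ℝ) ^ (1 - δ) * Real.exp (C * Real.sqrt (Real.log n))

/-- The multiplicative order of `2` modulo `p` (it is `0` for `p = 2`). -/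
noncomputable def ord2 (p : ℕ) : ℕ := orderOf (2 : ZMod p)

/-- The number of elements of `P` with `ord2 = n`. -/
noncomputable def mult (P : Finset ℕ) (n : ℕ) : ℕ := (P.filter fun p => ord2 p = n).card

/-- `P` is a finite set of primes such that every `d * 2 ^ k + 1`, `k ≥ 1`, is divisible
by an element of `P`. -/
def IsCover (d : ℕ) (P : Finset ℕ) : Prop :=
  (∀ p ∈ P, p.Prime) ∧ ∀ k : ℕ, 1 ≤ k → ∃ p ∈ P, p ∣ d * 2 ^ k + 1

/-- `2 ^ ω(n) / n`. -/
noncomputable def wt (n : ℕ) : ℝ := (2 : ℝ) ^ n.primeFactors.card / (n : ℝ)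

/-- `p` divides a member of the Aurifeuillian part of the sequence of `t ^ 4`. -/
def Kills (t p : ℕ) : Prop := ∃ j : ℕ, p ∣ t ^ 4 * 2 ^ (4 * j + 2) + 1

/-- The lcm of the `q`-free parts of the entries. -/
def Lc (q : ℕ) {h : ℕ} (ν : Fin h → ℕ) : ℕ :=
  Finset.univ.lcm (fun k => ordCompl[q] (ν k))

/-- The weight of a tuple of moduli. -/
noncomputable def tw (q : ℕ) {h : ℕ} (ν : Fin h → ℕ) : ℝ :=
  (∏ k, ((q : ℝ) ^ ((ν k).factorization q))⁻¹) * wt (Lc q ν)

/-- The `h`-th moment sum at the prime `q` for the multiplicity function `f`. -/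
noncomputable def mom (h q K Y : ℕ) (f : ℕ → ℝ) : ℝ :=
  ∑ ν ∈ Fintype.piFinset (fun _ : Fin h => (Finset.Ico K Y).filter (fun n => gpf n = q)),
    (∏ k, f (ν k)) * tw q ν

/-- The total distortion sum. -/
noncomputable def distSum (h K Y : ℕ) (f : ℕ → ℝ) : ℝ :=
  ∑ q ∈ Y.primesBelow, 2 ^ h * mom h q K Y f

/-- The primes `p` with `ord2 p = n` (for `n ≥ 1`). -/
noncomputable def PO (n : ℕ) : Finset ℕ := (2 ^ n - 1).primeFactors.filter (fun p => ord2 p = n)

open Classical in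
/-- The number of primes `p ≤ Z` of order `n` which kill `t`. -/
noncomputable def sT (Z t n : ℕ) : ℕ := ((PO n).filter (fun p => p ≤ Z ∧ Kills t p)).card

end Pool.Agent.H56.CV
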