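import Pool.Agent.Helper56.CV.Defs

/-!
Project CV (MP_2e7a1b_nt): the sharper threshold.
-/

namespace Pool.Agent.H56.CV

open Finset

/-- The exact power of the largest prime factor of `n` which divides `n` (`1` for `n ≤ 1`). -/
def topPart (n : ℕ) : ℕ := ordProj[gpf n] n

/-- `n` divided by `topPart n`. -/
def restPart (n : ℕ) : ℕ := ordCompl[gpf n] n

/-- The threshold: if `n = q ^ a * m` with `q = gpf n` not dividing `m`, this is
`(q ^ a) ^ (1 - δ) * m ^ (min (1 - δ) (C / log q))`. -/
noncomputable def T (C δ : ℝ) (n : ℕ) : ℝ :=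
  (topPart n : ℝ) ^ (1 - δ) * (restPart n : ℝ) ^ (min (1 - δ) (C / Real.log (gpf n)))

end Pool.Agent.H56.CV
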