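import Pool.Agent.Helper56.CV.Defs

/-!
Project CV (MP_2e7a1b_nt), piece EC.

M = product of all primes with ord2 p < K (2 and the prime divisors of 2^n-1, 1 <= n < K), a by the
Chinese remainder theorem: a = 1 mod 2,3,17,257,641,65537, a = 256 mod 6700417, a = 0 modulo the
other primes dividing M (5, 7, ...).  ord2 of 3,17,257,65537,641,6700417 is 2,8,16,32,64,64 (< 65 <= K).
No kill: 3: 2^(even)+1 = 2; 17, 257, 65537, 641: 2^(4j+2) = -1 would need 4j+2 = 4, 8, 16, 32 modulo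
8, 16, 32, 64; 6700417: t^4 = 2^32 = -1, so 2^(4j+2) = 1 would need 64 | 4j+2.

-/

namespace Pool.Agent.H56.CV

open Finset

private theorem EC_no {p : ℕ} (hp : 2 < p) (r : ℕ) (hr : Even r)
    (h : (2 : ZMod p) ^ (2 * r) = -1) (j : ℕ) :
    ¬ ((2 : ZMod p) ^ (4 * j + 2) = 1 ∨ (2 : ZMod p) ^ (4 * j + 2) = -1) := by
  intro hx
  have h1 : ((2 : ZMod p) ^ (4 * j + 2)) ^ r = 1 := by
    rcases hx with hx | hx
    · rw [hx, one_pow]
    · rw [hx, hr.neg_one_pow]
  have h2 : ((2 : ZMod p) ^ (4 * j + 2)) ^ r = -1 := by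
    have e : (4 * j + 2) * r = (2 * r) * (2 * j + 1) := by ring
    rw [← pow_mul, e, pow_mul, h, Odd.neg_one_pow ⟨j, rfl⟩]
  have : Fact (2 < p) := ⟨hp⟩
  exact ZMod.neg_one_ne_one (h2.symm.trans h1)

private theorem EC_kill {t p : ℕ} (h : Kills t p) :
    ∃ j : ℕ, (t : ZMod p) ^ 4 * 2 ^ (4 * j + 2) = -1 := by
  obtain ⟨j, hj⟩ := h
  refine ⟨j, ?_⟩
  have h1 : ((t ^ 4 * 2 ^ (4 * j + 2) + 1 : ℕ) : ZMod p) = 0 :=
    (ZMod.natCast_eq_zero_iff _ _).2 hj
  push_cast at h1
  exact eq_neg_of_add_eq_zero_left h1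

private theorem EC_one {p : ℕ} (hp : 2 < p) (r : ℕ) (hr : Even r)
    (h : (2 : ZMod p) ^ (2 * r) = -1) {t : ℕ} (ht : t ≡ 1 [MOD p]) : ¬ Kills t p := by
  intro hk
  obtain ⟨j, hj⟩ := EC_kill hk
  have h1 : (t : ZMod p) = 1 := by
    have := (ZMod.natCast_eq_natCast_iff t 1 p).2 ht
    simpa using this
  rw [h1, one_pow, one_mul] at hj
  exact EC_no hp r hr h j (Or.inr hj)

private theorem EC_pow {p : ℕ} (n : ℕ) (a : ℕ) (h : 2 ^ n % p = a % p) :
    (2 : ZMod p) ^ n = (a : ZMod p) := by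
  have h1 := (ZMod.natCast_eq_natCast_iff (2 ^ n) a p).2 h
  push_cast at h1
  exact h1

private theorem EC_neg {p : ℕ} (n : ℕ) (h : (2 ^ n + 1) % p = 0) :
    (2 : ZMod p) ^ n = -1 := by
  have h1 : ((2 ^ n + 1 : ℕ) : ZMod p) = 0 :=
    (ZMod.natCast_eq_zero_iff _ _).2 (Nat.dvd_of_mod_eq_zero h)
  push_cast at h1
  exact eq_neg_of_add_eq_zero_left h1

private theorem EC_ord {p : ℕ} (n : ℕ) (hn : 0 < n) (h : (2 ^ n + 1) % p = 0) :
    ord2 p ≤ 2 * n := by
  have h1 := EC_neg n h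
  refine orderOf_le_of_pow_eq_one (by omega) ?_
  rw [mul_comm, pow_mul, h1]
  simp

/-- the residue -/
private def EC_r (p : ℕ) : ℕ :=
  if p = 2 ∨ p = 3 ∨ p = 17 ∨ p = 257 ∨ p = 641 ∨ p = 65537 then 1
  else if p = 6700417 then 256 else 0

theorem exists_class (K : ℕ) (hK : 65 ≤ K) :
    ∃ a M : ℕ, 0 < M ∧ (∀ p : ℕ, p.Prime → p ∣ M → ord2 p < K) ∧
      ∀ t : ℕ, t ≡ a [MOD M] →
        (t % 2 = 1 ∧ t % 3 = 1 ∧ t % 17 = 1 ∧ t % 257 = 1 ∧ t % 641 = 1 ∧ t % 65537 = 1 ∧
          t % 6700417 = 256) ∧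
        ∀ p : ℕ, p.Prime → ord2 p < K → ¬ Kills t p := by
  classical
  let B : ℕ := 2 * ∏ n ∈ Finset.Ico 1 K, (2 ^ n - 1)
  have hB : B ≠ 0 := by
    refine mul_ne_zero two_ne_zero (Finset.prod_ne_zero_iff.2 fun n hn => ?_)
    have h1 := (Finset.mem_Ico.1 hn).1
    have h2 : 2 ^ 1 ≤ 2 ^ n := Nat.pow_le_pow_right (by norm_num) h1
    omega
  let P : Finset ℕ := B.primeFactors.filter fun p => ord2 p < K
  have hP : ∀ p : ℕ, p ∈ P ↔ p.Prime ∧ ord2 p < K := by
    intro p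
    constructor
    · intro h
      obtain ⟨h1, h2⟩ := Finset.mem_filter.1 h
      exact ⟨Nat.prime_of_mem_primeFactors h1, h2⟩
    · rintro ⟨h1, h2⟩
      refine Finset.mem_filter.2 ⟨Nat.mem_primeFactors.2 ⟨h1, ?_, hB⟩, h2⟩
      by_cases hp2 : p = 2
      · subst hp2
        exact dvd_mul_right _ _
      · refine Dvd.dvd.mul_left ?_ _
        have : Fact p.Prime := ⟨h1⟩
        have h3 : (2 : ZMod p) ≠ 0 := by
          intro h3
          have h4 : ((2 : ℕ) : ZMod p) = 0 := by exact_mod_cast h3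
          have h5 := (ZMod.natCast_eq_zero_iff _ _).1 h4
          exact hp2 ((Nat.prime_dvd_prime_iff_eq h1 Nat.prime_two).1 h5)
        have h4 : 0 < ord2 p := orderOf_pos_iff.2 (isOfFinOrder_iff_pow_eq_one.2
          ⟨p - 1, by have := h1.two_le; omega, ZMod.pow_card_sub_one_eq_one h3⟩)
        have h5 : (2 : ZMod p) ^ ord2 p = 1 := pow_orderOf_eq_one _
        have h6 : p ∣ 2 ^ ord2 p - 1 := by
          have h7 : ((2 ^ ord2 p - 1 : ℕ) : ZMod p) = 0 := by
            rw [Nat.cast_sub Nat.one_le_two_pow]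
            push_cast
            rw [h5, sub_self]
          exact (ZMod.natCast_eq_zero_iff _ _).1 h7
        exact h6.trans (Finset.dvd_prod_of_mem (fun n => 2 ^ n - 1)
          (Finset.mem_Ico.2 ⟨h4, h2⟩))
  have hcop : Set.Pairwise (P : Set ℕ) (Function.onFun Nat.Coprime fun p => p) := by
    intro p hp q hq hpq
    exact (Nat.coprime_primes ((hP p).1 hp).1 ((hP q).1 hq).1).2 hpq
  obtain ⟨a, ha⟩ := Nat.chineseRemainderOfFinset EC_r (fun p => p) P
    (fun p hp => ((hP p).1 hp).1.ne_zero) hcop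
  refine ⟨a, ∏ p ∈ P, p, Finset.prod_pos fun p hp => ((hP p).1 hp).1.pos, ?_, ?_⟩
  · intro p hp hd
    obtain ⟨q, hq, hd2⟩ := (hp.prime.dvd_finsetProd_iff _).1 hd
    have h1 := (Nat.prime_dvd_prime_iff_eq hp ((hP q).1 hq).1).1 hd2
    rw [h1]
    exact ((hP q).1 hq).2
  · intro t ht
    have hr : ∀ p ∈ P, t ≡ EC_r p [MOD p] := fun p hp =>
      (ht.of_dvd (Finset.dvd_prod_of_mem _ hp)).trans (ha p hp)
    have o3 : ord2 3 ≤ 2 * 1 := EC_ord 1 (by norm_num) (by norm_num)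
    have o17 : ord2 17 ≤ 2 * 4 := EC_ord 4 (by norm_num) (by norm_num)
    have o257 : ord2 257 ≤ 2 * 8 := EC_ord 8 (by norm_num) (by norm_num)
    have o65537 : ord2 65537 ≤ 2 * 16 := EC_ord 16 (by norm_num) (by norm_num)
    have o641 : ord2 641 ≤ 2 * 32 := EC_ord 32 (by norm_num) (by norm_num)
    have o6700417 : ord2 6700417 ≤ 2 * 32 := EC_ord 32 (by norm_num) (by norm_num)
    have o2 : ord2 2 < K := by
      have h1 : ord2 2 = 0 := by
        rw [ord2, orderOf_eq_zero_iff']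
        intro n hn h
        have h2 : (2 : ZMod 2) = 0 := by decide
        rw [h2, zero_pow hn.ne'] at h
        exact absurd h (by decide)
      omega
    have m2 := hr 2 ((hP 2).2 ⟨Nat.prime_two, o2⟩)
    have m3 := hr 3 ((hP 3).2 ⟨Nat.prime_three, by omega⟩)
    have m17 := hr 17 ((hP 17).2 ⟨by norm_num, by omega⟩)
    have m257 := hr 257 ((hP 257).2 ⟨by norm_num, by omega⟩)
    have m641 := hr 641 ((hP 641).2 ⟨by norm_num, by omega⟩)
    have m65537 := hr 65537 ((hP 65537).2 ⟨by norm_num, by omega⟩)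
    have m6700417 := hr 6700417 ((hP 6700417).2 ⟨by norm_num, by omega⟩)
    have e2 : EC_r 2 = 1 := by simp [EC_r]
    have e3 : EC_r 3 = 1 := by simp [EC_r]
    have e17 : EC_r 17 = 1 := by simp [EC_r]
    have e257 : EC_r 257 = 1 := by simp [EC_r]
    have e641 : EC_r 641 = 1 := by simp [EC_r]
    have e65537 : EC_r 65537 = 1 := by simp [EC_r]
    have e6700417 : EC_r 6700417 = 256 := by simp [EC_r]
    rw [e2] at m2
    rw [e3] at m3
    rw [e17] at m17
    rw [e257] at m257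
    rw [e641] at m641
    rw [e65537] at m65537
    rw [e6700417] at m6700417
    refine ⟨⟨m2, m3, m17, m257, m641, m65537, m6700417⟩, ?_⟩
    intro p hp hord hk
    by_cases c2 : p = 2
    · subst c2
      obtain ⟨j, hj⟩ := hk
      have h1 : 2 ∣ t ^ 4 * 2 ^ (4 * j + 2) := Dvd.dvd.mul_left
        (dvd_pow_self 2 (by omega)) _
      have h2 := (Nat.dvd_add_right h1).1 hj
      norm_num at h2
    by_cases c3 : p = 3
    · subst c3
      obtain ⟨j, hj⟩ := EC_kill hk
      have h1 : (t : ZMod 3) = 1 := by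
        have := (ZMod.natCast_eq_natCast_iff t 1 3).2 m3
        simpa using this
      have h2 : (2 : ZMod 3) = -1 := by decide
      have h3 : (2 : ZMod 3) ^ (4 * j + 2) = 1 := by
        rw [h2]
        exact Even.neg_one_pow ⟨2 * j + 1, by ring⟩
      rw [h1, one_pow, one_mul, h3] at hj
      exact absurd hj (by decide)
    by_cases c17 : p = 17
    · subst c17
      exact EC_one (by norm_num) 2 (by decide) (EC_neg 4 (by norm_num)) m17 hk
    by_cases c257 : p = 257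
    · subst c257
      exact EC_one (by norm_num) 4 (by decide) (EC_neg 8 (by norm_num)) m257 hk
    by_cases c641 : p = 641
    · subst c641
      exact EC_one (by norm_num) 16 (by decide) (EC_neg 32 (by norm_num)) m641 hk
    by_cases c65537 : p = 65537
    · subst c65537
      exact EC_one (by norm_num) 8 (by decide) (EC_neg 16 (by norm_num)) m65537 hk
    by_cases c6700417 : p = 6700417
    · subst c6700417
      obtain ⟨j, hj⟩ := EC_kill hk
      have h1 : (t : ZMod 6700417) = 2 ^ 8 := by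
        have := (ZMod.natCast_eq_natCast_iff t 256 6700417).2 m6700417
        rw [this]
        norm_num
      have h2 : (2 : ZMod 6700417) ^ 32 = -1 := EC_neg 32 (by norm_num)
      have h3 : (t : ZMod 6700417) ^ 4 = -1 := by
        rw [h1, ← pow_mul]
        exact h2
      rw [h3, neg_one_mul, neg_inj] at hj
      exact EC_no (by norm_num) 16 (by decide) h2 j (Or.inl hj)
    · have h1 := hr p ((hP p).2 ⟨hp, hord⟩)
      have h2 : EC_r p = 0 := by
        simp [EC_r, c2, c3, c17, c257, c641, c65537, c6700417]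
      rw [h2] at h1
      have h3 : p ∣ t := (Nat.modEq_zero_iff_dvd).1 h1
      obtain ⟨j, hj⟩ := hk
      have h4 : p ∣ t ^ 4 * 2 ^ (4 * j + 2) := Dvd.dvd.mul_right
        (dvd_pow h3 (by norm_num)) _
      have h5 := (Nat.dvd_add_right h4).1 hj
      exact hp.one_lt.ne' (Nat.dvd_one.1 h5)

end Pool.Agent.H56.CV
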