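import Pool.Agent.Helper56.CV.Defs

/-!
Project CV (MP_2e7a1b_nt), piece PF.

prime_free: k odd: 3; k = 4 mod 8: 17; k = 8 mod 16: 257; k = 16 mod 32: 65537; k = 32 mod 64: 641;
64 | k: 6700417 (t^4 = 2^32 = -1); k = 4j+2: Sophie Germain 4x^4+1 = (2x^2+2x+1)(2x^2-2x+1), x = 2^j t.
t is at least 256, so the term is bigger than the primes.
-/

namespace Pool.Agent.H56.CV

open Finset

private lemma PF_dvd (t p k r c : ℕ) (ht : t % p = c) (hk : k % 64 = r) (h64 : 2 ^ 64 % p = 1)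
    (h : (c ^ 4 * 2 ^ r + 1) % p = 0) : p ∣ t ^ 4 * 2 ^ k + 1 := by
  have h1 : t ≡ c [MOD p] := by
    rw [← ht]; exact (Nat.mod_modEq t p).symm
  have hp1 : 1 % p = 1 := by
    rcases Nat.lt_or_ge 1 p with h2 | h2
    · exact Nat.mod_eq_of_lt h2
    · interval_cases p
      · rfl
      · rw [Nat.mod_one] at h64; omega
  have h2 : 2 ^ 64 ≡ 1 [MOD p] := by
    unfold Nat.ModEq; rw [h64, hp1]
  have h3 : 2 ^ k ≡ 2 ^ r [MOD p] := by
    have h4 : k = 64 * (k / 64) + r := by omega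
    rw [h4, pow_add, pow_mul]
    have := (h2.pow (k / 64)).mul_right (2 ^ r)
    rw [one_pow, one_mul] at this
    exact this
  have h5 : t ^ 4 * 2 ^ k + 1 ≡ c ^ 4 * 2 ^ r + 1 [MOD p] :=
    Nat.ModEq.add_right 1 ((h1.pow 4).mul h3)
  exact (Nat.modEq_zero_iff_dvd).1 (h5.trans h)

private lemma PF_np (t p k : ℕ) (ht : 256 ≤ t) (hp1 : 1 < p) (hp : p ≤ 6700417)
    (h : p ∣ t ^ 4 * 2 ^ k + 1) : ¬ (t ^ 4 * 2 ^ k + 1).Prime := by
  intro hpr
  rcases (Nat.dvd_prime hpr).1 h with h1 | h1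
  · omega
  · have h2 : 256 ^ 4 ≤ t ^ 4 := Nat.pow_le_pow_left ht 4
    have h3 : 1 ≤ 2 ^ k := Nat.one_le_two_pow
    have h4 : t ^ 4 ≤ t ^ 4 * 2 ^ k := Nat.le_mul_of_pos_right _ h3
    have h5 : (256 : ℕ) ^ 4 = 4294967296 := by norm_num
    omega

private lemma PF_sg (t j : ℕ) (ht : 256 ≤ t) : ¬ (t ^ 4 * 2 ^ (4 * j + 2) + 1).Prime := by
  have hx : 1 ≤ 2 ^ j * t := Nat.mul_pos (Nat.two_pow_pos j) (by omega)
  have hx2 : 256 ≤ 2 ^ j * t := by
    calc 256 ≤ t := ht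
      _ ≤ 2 ^ j * t := Nat.le_mul_of_pos_left _ (Nat.two_pow_pos j)
  obtain ⟨y, hy⟩ : ∃ y, 2 ^ j * t = y + 1 := ⟨2 ^ j * t - 1, by omega⟩
  have h1 : t ^ 4 * 2 ^ (4 * j + 2) + 1 = (2 * y ^ 2 + 6 * y + 5) * (2 * y ^ 2 + 2 * y + 1) := by
    have h2 : t ^ 4 * 2 ^ (4 * j + 2) = 4 * (2 ^ j * t) ^ 4 := by
      rw [pow_add, pow_mul', mul_pow]; ring
    rw [h2, hy]; ring
  rw [h1]
  apply Nat.not_prime_mul
  · have : 0 < y := by omega
    nlinarith
  · have : 0 < y := by omega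
    nlinarith

private lemma PF_j (k : ℕ) (h : k % 4 = 2) : ∃ j, k = 4 * j + 2 := ⟨k / 4, by omega⟩

private lemma PF_r (k r : ℕ) (h : ¬ k % 4 = 2) (hr : k % 64 = r) : r % 4 ≠ 2 := by omega

theorem prime_free (t : ℕ)
    (ht : t % 2 = 1 ∧ t % 3 = 1 ∧ t % 17 = 1 ∧ t % 257 = 1 ∧ t % 641 = 1 ∧ t % 65537 = 1 ∧
          t % 6700417 = 256) (k : ℕ) (hk : 1 ≤ k) : ¬ (t ^ 4 * 2 ^ k + 1).Prime := by
  obtain ⟨-, h3, h17, h257, h641, h65537, h67⟩ := ht
  have ht256 : 256 ≤ t := by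
    rw [← h67]; exact Nat.mod_le _ _
  have hlt : k % 64 < 64 := Nat.mod_lt _ (by norm_num)
  by_cases h4 : k % 4 = 2
  · obtain ⟨j, hj⟩ := PF_j k h4
    rw [hj]
    exact PF_sg t j ht256
  · generalize hr : k % 64 = r at hlt
    have hr4 : r % 4 ≠ 2 := PF_r k r h4 hr
    clear h4
    interval_cases r <;>
    first
      | exact absurd rfl hr4
      | exact PF_np t 3 k ht256 (by norm_num) (by norm_num)
          (PF_dvd t 3 k _ 1 h3 hr (by decide) (by decide))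
      | exact PF_np t 17 k ht256 (by norm_num) (by norm_num)
          (PF_dvd t 17 k _ 1 h17 hr (by decide) (by decide))
      | exact PF_np t 257 k ht256 (by norm_num) (by norm_num)
          (PF_dvd t 257 k _ 1 h257 hr (by decide) (by decide))
      | exact PF_np t 65537 k ht256 (by norm_num) (by norm_num)
          (PF_dvd t 65537 k _ 1 h65537 hr (by decide) (by decide))
      | exact PF_np t 641 k ht256 (by norm_num) (by norm_num)
          (PF_dvd t 641 k _ 1 h641 hr (by decide) (by decide))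
      | exact PF_np t 6700417 k ht256 (by norm_num) (by norm_num)
          (PF_dvd t 6700417 k _ 256 h67 hr (by decide) (by decide))

end Pool.Agent.H56.CV
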