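import Pool.Agent.Helper56.CV.Defs

/-!
Project CV (MP_2e7a1b_nt), piece SC.

S_comb: for m >= 2, gpf (2m) = gpf (4m) = gpf m =: q, q^(1-delta) >= 1,
sqrt(log (4m)) <= sqrt(log m) + sqrt(log 4), so the sum of the three is at most
3 e^(C sqrt(log 4)) S C delta m, and e^(sqrt(log m)) tends to infinity faster than any power of log m.
-/

namespace Pool.Agent.H56.CV

open Finset

private theorem SC_gpf_ge (m : ℕ) (hm : 2 ≤ m) : 2 ≤ gpf m := by
  unfold gpf
  have h1 : m.minFac ∈ m.primeFactors := by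
    rw [Nat.mem_primeFactors]
    exact ⟨Nat.minFac_prime (by omega), Nat.minFac_dvd m, by omega⟩
  have h2 : m.minFac ≤ m.primeFactors.sup id := Finset.le_sup (f := id) h1
  exact le_trans (Nat.minFac_prime (by omega)).two_le h2

private theorem SC_gpf_two (m : ℕ) (hm : 2 ≤ m) : gpf (2 * m) = gpf m := by
  have h2 := SC_gpf_ge m hm
  unfold gpf at h2 ⊢
  rw [Nat.primeFactors_mul (by norm_num) (by omega), Finset.sup_union,
    Nat.Prime.primeFactors Nat.prime_two]
  simp only [Finset.sup_singleton, id]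
  exact max_eq_right h2

private theorem SC_ev (h : ℕ) (A : ℝ) : ∀ᶠ s : ℝ in Filter.atTop,
    4 * (3 * (h : ℝ) * (1 + 4 * (1 + Real.log 4 + s ^ 2)) + 3 * A) ≤ Real.exp s := by
  have h1 : (fun s : ℝ => s ^ 0) =o[Filter.atTop] Real.exp := Real.isLittleO_pow_exp_atTop
  have h2 : (fun s : ℝ => s ^ 2) =o[Filter.atTop] Real.exp := Real.isLittleO_pow_exp_atTop
  have h3 : (fun s : ℝ => (4 * (3 * (h : ℝ) * (1 + 4 * (1 + Real.log 4)) + 3 * A)) * s ^ 0 +
      (48 * (h : ℝ)) * s ^ 2) =o[Filter.atTop] Real.exp :=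
    (h1.const_mul_left _).add (h2.const_mul_left _)
  have h4 := h3.bound (zero_lt_one)
  filter_upwards [h4] with s hs
  have h5 := le_trans (le_abs_self _) hs
  rw [one_mul, Real.norm_eq_abs, abs_of_pos (Real.exp_pos s)] at h5
  refine le_trans (le_of_eq ?_) h5
  ring

/-- comparison of `S` for `m`, `2m`, `4m`; note that `gpf (2m) = gpf (4m) = gpf m` for `m ≥ 2`. -/
theorem S_comb (C δ : ℝ) (hC : 0 ≤ C) (hδ : 0 < δ) (hδ1 : δ < 1) (h : ℕ) (hh : 1 ≤ h) :
    ∃ K1 : ℕ, 2 ≤ K1 ∧ ∀ m : ℕ, K1 ≤ m →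
      S C δ m + S C δ (2 * m) + S C δ (4 * m) ≤ S (C + 1) δ m ∧
      4 ^ h * (3 * ((h : ℝ) ^ h * (1 + (4 * (1 + Real.log (4 * m))) ^ h)) +
        (S C δ m + S C δ (2 * m) + S C δ (4 * m)) ^ h) ≤ (S (C + 1) δ m) ^ h := by
  set A : ℝ := Real.exp (C * Real.sqrt (Real.log 4)) with hA
  have hs : Filter.Tendsto (fun m : ℕ => Real.sqrt (Real.log (m : ℝ))) Filter.atTop
      Filter.atTop :=
    Real.tendsto_sqrt_atTop.comp (Real.tendsto_log_atTop.comp tendsto_natCast_atTop_atTop)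
  obtain ⟨K0, hK0⟩ := Filter.eventually_atTop.1 (hs.eventually (SC_ev h A))
  refine ⟨max 2 K0, le_max_left _ _, fun m hm => ?_⟩
  have hm2 : 2 ≤ m := le_trans (le_max_left _ _) hm
  have hmK : K0 ≤ m := le_trans (le_max_right _ _) hm
  have hev := hK0 m hmK
  set s : ℝ := Real.sqrt (Real.log (m : ℝ)) with hsdef
  have hs0 : 0 ≤ s := Real.sqrt_nonneg _
  have hmR : (2 : ℝ) ≤ (m : ℝ) := by exact_mod_cast hm2
  have hlog0 : 0 ≤ Real.log (m : ℝ) := Real.log_nonneg (by linarith)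
  have hs2 : s ^ 2 = Real.log (m : ℝ) := Real.sq_sqrt hlog0
  have hlog4 : 0 ≤ Real.log 4 := Real.log_nonneg (by norm_num)
  have hlog2 : 0 ≤ Real.log 2 := Real.log_nonneg (by norm_num)
  have hg2 : gpf (2 * m) = gpf m := SC_gpf_two m hm2
  have hg4 : gpf (4 * m) = gpf m := by
    have e : 4 * m = 2 * (2 * m) := by ring
    rw [e, SC_gpf_two (2 * m) (by omega), hg2]
  have hgR : (2 : ℝ) ≤ (gpf m : ℝ) := by exact_mod_cast SC_gpf_ge m hm2
  set G : ℝ := (gpf m : ℝ) ^ (1 - δ) with hG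
  have hG1 : 1 ≤ G := Real.one_le_rpow (by linarith) (by linarith)
  set B : ℝ := G * Real.exp (C * s) with hB
  have hB1 : 1 ≤ B := by
    have : 1 ≤ Real.exp (C * s) := Real.one_le_exp (mul_nonneg hC hs0)
    exact one_le_mul_of_one_le_of_one_le hG1 this
  have hB0 : 0 ≤ B := by linarith
  have hA0 : 0 < A := Real.exp_pos _
  have hsplit4 : Real.log ((4 * m : ℕ) : ℝ) = Real.log 4 + Real.log (m : ℝ) := by
    push_cast
    exact Real.log_mul (by norm_num) (by linarith)
  have hbd : ∀ k : ℕ, 1 ≤ k → k ≤ 4 → Real.exp (C * Real.sqrt (Real.log ((k * m : ℕ) : ℝ))) ≤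
      A * Real.exp (C * s) := by
    intro k hk1 hk4
    rw [hA, ← Real.exp_add, ← mul_add]
    apply Real.exp_le_exp.2
    apply mul_le_mul_of_nonneg_left _ hC
    have h1 : Real.log ((k * m : ℕ) : ℝ) ≤ Real.log 4 + Real.log (m : ℝ) := by
      rw [← hsplit4]
      apply Real.log_le_log
      · have : 0 < k * m := by positivity
        exact_mod_cast this
      · exact_mod_cast Nat.mul_le_mul_right m hk4
    calc Real.sqrt (Real.log ((k * m : ℕ) : ℝ))
        ≤ Real.sqrt (Real.log 4 + Real.log (m : ℝ)) := Real.sqrt_le_sqrt h1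
      _ ≤ Real.sqrt (Real.log 4) + Real.sqrt (Real.log (m : ℝ)) := by
          rw [Real.sqrt_le_left (by positivity)]
          have e1 := Real.sq_sqrt hlog4
          have e2 := Real.sq_sqrt hlog0
          nlinarith [Real.sqrt_nonneg (Real.log 4), Real.sqrt_nonneg (Real.log (m : ℝ))]
  have hS1 : S C δ m ≤ A * B := by
    have := hbd 1 le_rfl (by norm_num)
    rw [one_mul] at this
    unfold S
    rw [← hG, hB]
    calc G * Real.exp (C * Real.sqrt (Real.log (m : ℝ))) ≤ G * (A * Real.exp (C * s)) :=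
          mul_le_mul_of_nonneg_left this (by linarith)
      _ = A * (G * Real.exp (C * s)) := by ring
  have hS2 : S C δ (2 * m) ≤ A * B := by
    have := hbd 2 (by norm_num) (by norm_num)
    unfold S
    rw [hg2, ← hG, hB]
    calc G * Real.exp (C * Real.sqrt (Real.log ((2 * m : ℕ) : ℝ))) ≤
          G * (A * Real.exp (C * s)) := mul_le_mul_of_nonneg_left this (by linarith)
      _ = A * (G * Real.exp (C * s)) := by ring
  have hS4 : S C δ (4 * m) ≤ A * B := by
    have := hbd 4 (by norm_num) (by norm_num)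
    unfold S
    rw [hg4, ← hG, hB]
    calc G * Real.exp (C * Real.sqrt (Real.log ((4 * m : ℕ) : ℝ))) ≤
          G * (A * Real.exp (C * s)) := mul_le_mul_of_nonneg_left this (by linarith)
      _ = A * (G * Real.exp (C * s)) := by ring
  have hSn : ∀ n : ℕ, 0 ≤ S C δ n := fun n => by unfold S; positivity
  have hR : S (C + 1) δ m = B * Real.exp s := by
    unfold S
    rw [← hG, hB, ← hsdef, mul_assoc, ← Real.exp_add]
    congr 2
    ring
  have hsum : S C δ m + S C δ (2 * m) + S C δ (4 * m) ≤ 3 * A * B := by linarith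
  have hsum0 : 0 ≤ S C δ m + S C δ (2 * m) + S C δ (4 * m) := by
    have := hSn m
    have := hSn (2 * m)
    have := hSn (4 * m)
    linarith
  have hP : 0 ≤ 1 + Real.log 4 + s ^ 2 := by positivity
  have hhR : (1 : ℝ) ≤ (h : ℝ) := by exact_mod_cast hh
  refine ⟨?_, ?_⟩
  · rw [hR]
    refine le_trans hsum ?_
    have : 3 * A ≤ Real.exp s := by
      have h6 : 0 ≤ 3 * (h : ℝ) * (1 + 4 * (1 + Real.log 4 + s ^ 2)) := by positivity
      linarith
    calc 3 * A * B ≤ Real.exp s * B := mul_le_mul_of_nonneg_right this hB0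
      _ = B * Real.exp s := by ring
  · rw [hR]
    have hl : Real.log (4 * (m : ℝ)) = Real.log 4 + s ^ 2 := by
      rw [hs2, ← hsplit4]
      push_cast
      rfl
    rw [hl]
    set P : ℝ := 4 * (1 + (Real.log 4 + s ^ 2)) with hPdef
    have hP0 : 0 ≤ P := by rw [hPdef]; positivity
    have hne : h ≠ 0 := by omega
    have e1 : 1 + P ^ h ≤ (1 + P) ^ h := by
      have := pow_add_pow_le (x := (1 : ℝ)) (y := P) (by norm_num) hP0 hne
      simpa using this
    have e2 : 3 * ((h : ℝ) ^ h * (1 + P ^ h)) ≤ (3 * (h : ℝ) * (1 + P)) ^ h := by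
      rw [mul_pow (3 * (h : ℝ)) (1 + P) h, mul_pow (3 : ℝ) (h : ℝ) h]
      have e3 : (3 : ℝ) ≤ 3 ^ h := by
        calc (3 : ℝ) = 3 ^ 1 := by norm_num
          _ ≤ 3 ^ h := pow_le_pow_right₀ (by norm_num) hh
      calc 3 * ((h : ℝ) ^ h * (1 + P ^ h)) ≤ 3 ^ h * ((h : ℝ) ^ h * (1 + P) ^ h) := by
            apply mul_le_mul e3 _ (by positivity) (by positivity)
            exact mul_le_mul_of_nonneg_left e1 (by positivity)
        _ = 3 ^ h * (h : ℝ) ^ h * (1 + P) ^ h := by ring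
    have e4 : (S C δ m + S C δ (2 * m) + S C δ (4 * m)) ^ h ≤ (3 * A * B) ^ h :=
      pow_le_pow_left₀ hsum0 hsum h
    have e5 : 3 * ((h : ℝ) ^ h * (1 + P ^ h)) ≤ (3 * (h : ℝ) * (1 + P) * B) ^ h := by
      refine le_trans e2 (pow_le_pow_left₀ (by positivity) ?_ h)
      exact le_mul_of_one_le_right (by positivity) hB1
    have e6 : (3 * (h : ℝ) * (1 + P) * B) ^ h + (3 * A * B) ^ h ≤
        (3 * (h : ℝ) * (1 + P) * B + 3 * A * B) ^ h :=
      pow_add_pow_le (by positivity) (by positivity) hne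
    calc 4 ^ h * (3 * ((h : ℝ) ^ h * (1 + P ^ h)) +
          (S C δ m + S C δ (2 * m) + S C δ (4 * m)) ^ h)
        ≤ 4 ^ h * ((3 * (h : ℝ) * (1 + P) * B + 3 * A * B) ^ h) := by
          apply mul_le_mul_of_nonneg_left _ (by positivity)
          linarith
      _ = (B * (4 * (3 * (h : ℝ) * (1 + P) + 3 * A))) ^ h := by
          rw [← mul_pow]
          congr 1
          ring
      _ ≤ (B * Real.exp s) ^ h := by
          apply pow_le_pow_left₀ (by positivity)
          apply mul_le_mul_of_nonneg_left _ hB0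
          have e7 : P = 4 * (1 + Real.log 4 + s ^ 2) := by rw [hPdef]; ring
          rw [e7]
          exact hev

end Pool.Agent.H56.CV
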