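import Pool.Agent.Helper56.CV.DS
import Pool.Agent.Helper56.CV.AV
import Pool.Agent.Helper56.CV.EC
import Pool.Agent.Helper56.CV.PF
import Pool.Agent.Helper56.CV.SC
import Pool.Agent.Helper56.CV.Core

/-!
Project CV (MP_2e7a1b_nt): the deterministic theorem.
-/

namespace Pool.Agent.H56.CV

open Finset

open Classical in
/-- The mass of the primes of `P` of order at least `N` and of high multiplicity. -/
noncomputable def hiMass (C δ : ℝ) (N : ℕ) (P : Finset ℕ) : ℝ :=
  ∑ p ∈ P.filter (fun p => N ≤ ord2 p ∧ S C δ (ord2 p) < (mult P (ord2 p) : ℝ)),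
    (2 : ℝ) ^ (ord2 p).primeFactors.card / (ord2 p : ℝ)

lemma S_nonneg (C δ : ℝ) (n : ℕ) : 0 ≤ S C δ n := by unfold S; positivity

/-- the low multiplicity part -/
lemma low_card_le (C δ : ℝ) (P s : Finset ℕ)
    (hs : ∀ p ∈ s, p ∈ P ∧ (mult P (ord2 p) : ℝ) ≤ S C δ (ord2 p)) (n : ℕ) :
    ((s.filter (fun p => ord2 p = n)).card : ℝ) ≤ S C δ n := by
  by_cases h0 : (s.filter (fun p => ord2 p = n)) = ∅
  · rw [h0]; simpa using S_nonneg C δ n
  · obtain ⟨p, hp⟩ := Finset.nonempty_iff_ne_empty.2 h0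
    rw [Finset.mem_filter] at hp
    have h1 := (hs p hp.1).2
    rw [hp.2] at h1
    refine le_trans ?_ h1
    unfold mult
    exact_mod_cast Finset.card_le_card (fun x hx => by
      rw [Finset.mem_filter] at hx ⊢
      exact ⟨(hs x hx.1).1, hx.2⟩)

theorem deterministic (C δ : ℝ) (hC : 0 ≤ C) (hδ : 0 < δ) (hδ1 : δ < 1) (N : ℕ) :
    ∃ a M : ℕ, 0 < M ∧ ∀ t : ℕ, t ≡ a [MOD M] →
      Odd t ∧ (∀ k : ℕ, 1 ≤ k → ¬ (t ^ 4 * 2 ^ k + 1).Prime) ∧
      ∀ P : Finset ℕ, IsCover (t ^ 4) P → 1 / 5 ≤ hiMass C δ N P := by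
  classical
  have hh1 : 1 ≤ ⌈6 / δ⌉₊ := Nat.one_le_ceil_iff.2 (by positivity)
  obtain ⟨K0, hK0, hD⟩ := dist_small (C + 1) δ (by linarith) hδ hδ1 (1 / 5) (by norm_num)
  generalize ⌈6 / δ⌉₊ = h at hh1 hD
  obtain ⟨K1, hK1, hS⟩ := S_comb C δ hC hδ hδ1 h hh1
  obtain ⟨K, hKK0, hKK1, hKN, hK17⟩ : ∃ K : ℕ, K0 ≤ K ∧ K1 ≤ K ∧ N ≤ K ∧ 17 ≤ K :=
    ⟨max (max K0 K1) (max N 17), by omega, by omega, by omega, by omega⟩
  obtain ⟨a, M, hM, -, hcl⟩ := exists_class (4 * K) (by omega)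
  refine ⟨a, M, hM, fun t ht => ?_⟩
  obtain ⟨hres, hno⟩ := hcl t ht
  clear hcl
  refine ⟨Nat.odd_iff.2 hres.1, fun k hk => prime_free t hres k hk, fun P hP => ?_⟩
  clear hres
  set s := P.filter (fun p => Kills t p ∧ (mult P (ord2 p) : ℝ) ≤ S C δ (ord2 p)) with hs
  set u := P.filter (fun p => Kills t p ∧ S C δ (ord2 p) < (mult P (ord2 p) : ℝ)) with hu
  have hc := core t P hP K h (s.sup (fun p => ord2 p) + 1) (by omega) hh1 hno s u
    (fun p hp hk => by
      rcases le_or_gt (mult P (ord2 p) : ℝ) (S C δ (ord2 p)) with h1 | h1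
      · exact Finset.mem_union_left _ (by simp [hs, hp, hk, h1])
      · exact Finset.mem_union_right _ (by simp [hu, hp, hk, h1]))
    (fun p hp => by
      rw [hs, Finset.mem_filter] at hp
      exact ⟨hP.1 p hp.1, hp.2.1⟩)
    (fun p hp => by
      rw [hu, Finset.mem_filter] at hp
      exact ⟨hP.1 p hp.1, hp.2.1⟩)
    (fun p hp => Nat.lt_succ_of_le (Finset.le_sup (f := fun p => ord2 p) hp))
  have hlow : ∀ n, ((s.filter (fun p => ord2 p = n)).card : ℝ) ≤ S C δ n :=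
    low_card_le C δ P s (fun p hp => by
      rw [hs, Finset.mem_filter] at hp
      exact ⟨hp.1, hp.2.2⟩)
  have hmono : distSum h K (s.sup (fun p => ord2 p) + 1)
      (fun m => ((s.filter (fun p => md (ord2 p) = m)).card : ℝ)) ≤
      distSum h K (s.sup (fun p => ord2 p) + 1) (S (C + 1) δ) := by
    apply distSum_mono
    · intro n; positivity
    · intro m hm _
      refine le_trans ?_ (hS m (by omega)).1
      have h1 := card_md_le s m
      have h2 : ((s.filter (fun p => md (ord2 p) = m)).card : ℝ) ≤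
          (s.filter (fun p => ord2 p = m)).card + (s.filter (fun p => ord2 p = 2 * m)).card +
          (s.filter (fun p => ord2 p = 4 * m)).card := by exact_mod_cast h1
      linarith [hlow m, hlow (2 * m), hlow (4 * m)]
  have hsm := hD K (s.sup (fun p => ord2 p) + 1) hKK0
  rw [← Finset.mul_sum] at hc
  have hmass : ∑ p ∈ u, wt (ord2 p) ≤ hiMass C δ N P := by
    unfold hiMass wt
    apply Finset.sum_le_sum_of_subset_of_nonneg
    · intro p hp
      rw [hu, Finset.mem_filter] at hp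
      rw [Finset.mem_filter]
      refine ⟨hp.1, ?_, hp.2.2⟩
      by_contra hlt
      exact hno p (hP.1 p hp.1) (by omega) hp.2.1
    · intros; positivity
  linarith

end Pool.Agent.H56.CV
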