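import Pool.Agent.Helper56.CV.CL
import Pool.Agent.Helper56.CV.PO

/-!
Project CV (MP_2e7a1b_nt), piece MO.

moment_le: s^h <= h^h (1 + choose s h) (if s < h trivial, else choose s h >= (s/h)^h,
Nat.pow_le_choose type lemma or prod (s-i)/(h-i) >= (s/h)^h); sum over t of choose (sT Z t n) h =
sum over h-subsets A of {p in PO n, p <= Z} of #{t : all p in A kill t}, by count_le and
M prod p <= M Z^h <= X each is <= (2X/M) prod (4n/p); the sum over A of the product is <= (sum 4n/p)^h
(Finset.prod_powersetCard / esymm bound) <= (4(1+log n))^h by sum_PO.  The constant term: number of t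
is <= X/M + 1 <= 2X/M if Z >= 1; if Z = 0 the left side is 0.

-/

namespace Pool.Agent.H56.CV

open Finset

private lemma MO_pow_le (s h : ℕ) : s ^ h ≤ h ^ h * (1 + s.choose h) := by
  rcases Nat.lt_or_ge s h with hs | hs
  · calc s ^ h ≤ h ^ h := Nat.pow_le_pow_left hs.le h
      _ ≤ h ^ h * (1 + s.choose h) := Nat.le_mul_of_pos_right _ (by omega)
  · have h1 : s ^ h * h.factorial ≤ h ^ h * s.descFactorial h := by
      rw [← Nat.descFactorial_self, Nat.descFactorial_eq_prod_range,
        Nat.descFactorial_eq_prod_range]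
      have e1 : s ^ h = ∏ _i ∈ range h, s := by simp
      have e2 : h ^ h = ∏ _i ∈ range h, h := by simp
      rw [e1, e2, ← prod_mul_distrib, ← prod_mul_distrib]
      apply prod_le_prod'
      intro i hi
      rw [mem_range] at hi
      obtain ⟨k, rfl⟩ := Nat.exists_eq_add_of_le hs
      obtain ⟨l, rfl⟩ := Nat.exists_eq_add_of_le hi.le
      have e3 : i + l - i = l := by omega
      have e4 : i + l + k - i = l + k := by omega
      rw [e3, e4]
      nlinarith [Nat.zero_le (i * k), Nat.zero_le (l * k)]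
    rw [Nat.descFactorial_eq_factorial_mul_choose] at h1
    have h2 : s ^ h ≤ h ^ h * s.choose h := by
      have h3 : s ^ h * h.factorial ≤ (h ^ h * s.choose h) * h.factorial := by
        calc s ^ h * h.factorial ≤ h ^ h * (h.factorial * s.choose h) := h1
          _ = (h ^ h * s.choose h) * h.factorial := by ring
      exact Nat.le_of_mul_le_mul_right h3 h.factorial_pos
    calc s ^ h ≤ h ^ h * s.choose h := h2
      _ ≤ h ^ h * (1 + s.choose h) := Nat.mul_le_mul_left _ (by omega)

private lemma MO_esymm {ι : Type} [DecidableEq ι] (f : ι → ℝ) (B : Finset ι)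
    (hf : ∀ i ∈ B, 0 ≤ f i) : ∀ h : ℕ,
    ∑ Q ∈ B.powersetCard h, ∏ p ∈ Q, f p ≤ (∑ p ∈ B, f p) ^ h := by
  induction B using Finset.induction_on with
  | empty =>
    intro h
    cases h with
    | zero => simp
    | succ h => simp [Finset.powersetCard_eq_empty.2 (by simp : (∅ : Finset ι).card < h + 1)]
  | insert a B ha ih =>
    intro h
    have hB : ∀ i ∈ B, 0 ≤ f i := fun i hi => hf i (mem_insert_of_mem hi)
    have hS : 0 ≤ ∑ p ∈ B, f p := sum_nonneg hB
    have hfa : 0 ≤ f a := hf a (mem_insert_self _ _)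
    cases h with
    | zero => simp
    | succ h =>
      rw [Finset.powersetCard_succ_insert ha, Finset.sum_union]
      · rw [Finset.sum_image]
        · have h1 : ∑ Q ∈ B.powersetCard h, ∏ p ∈ insert a Q, f p =
              f a * ∑ Q ∈ B.powersetCard h, ∏ p ∈ Q, f p := by
            rw [mul_sum]
            refine sum_congr rfl fun Q hQ => ?_
            rw [mem_powersetCard] at hQ
            exact prod_insert fun h2 => ha (hQ.1 h2)
          rw [h1, sum_insert ha]
          have h2 := ih hB h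
          have h3 := ih hB (h + 1)
          have h4 : (∑ p ∈ B, f p) ^ h ≤ (f a + ∑ p ∈ B, f p) ^ h :=
            pow_le_pow_left₀ hS (by linarith) h
          calc _ ≤ (∑ p ∈ B, f p) ^ (h + 1) + f a * (∑ p ∈ B, f p) ^ h :=
                add_le_add h3 (mul_le_mul_of_nonneg_left h2 hfa)
            _ = (f a + ∑ p ∈ B, f p) * (∑ p ∈ B, f p) ^ h := by ring
            _ ≤ (f a + ∑ p ∈ B, f p) * (f a + ∑ p ∈ B, f p) ^ h :=
                mul_le_mul_of_nonneg_left h4 (by linarith)
            _ = (f a + ∑ p ∈ B, f p) ^ (h + 1) := by ring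
        · intro Q hQ Q' hQ' hQQ
          have hQ1 : a ∉ Q := fun h2 => ha ((mem_powersetCard.1 (mem_coe.1 hQ)).1 h2)
          have hQ2 : a ∉ Q' := fun h2 => ha ((mem_powersetCard.1 (mem_coe.1 hQ')).1 h2)
          rw [← erase_insert hQ1, ← erase_insert hQ2, hQQ]
      · rw [Finset.disjoint_left]
        intro Q hQ hQ'
        rw [mem_image] at hQ'
        obtain ⟨Q', -, rfl⟩ := hQ'
        exact ha ((mem_powersetCard.1 hQ).1 (mem_insert_self _ _))

theorem moment_le (h K M a X Z n : ℕ) (hh : 1 ≤ h) (hM : 0 < M)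
    (hMK : ∀ p : ℕ, p.Prime → p ∣ M → ord2 p < K) (hn : K ≤ n) (hn1 : 1 ≤ n)
    (hX : M * Z ^ h ≤ X) :
    ∑ t ∈ (Finset.range X).filter (fun t => t ≡ a [MOD M]), ((sT Z t n : ℝ)) ^ h ≤
      (2 * X / M) * ((h : ℝ) ^ h * (1 + (4 * (1 + Real.log n)) ^ h)) := by
  classical
  have hlog : 0 ≤ Real.log n := Real.log_natCast_nonneg n
  have hMpos : (0 : ℝ) < M := by exact_mod_cast hM
  rcases Nat.eq_zero_or_pos Z with rfl | hZ
  · have h0 : ∀ t, sT 0 t n = 0 := by
      intro t
      rw [sT, card_eq_zero, filter_eq_empty_iff]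
      intro p hp hpp
      have hp1 := ((mem_PO n hn1 p).1 hp).1.pos
      omega
    have h1 : ∑ t ∈ (Finset.range X).filter (fun t => t ≡ a [MOD M]), ((sT 0 t n : ℝ)) ^ h = 0 := by
      refine sum_eq_zero fun t _ => ?_
      rw [h0, Nat.cast_zero, zero_pow (by omega)]
    rw [h1]
    positivity
  · -- the main case
    set T := (Finset.range X).filter (fun t => t ≡ a [MOD M]) with hT
    set B := (PO n).filter (fun p => p ≤ Z) with hB
    have hMX : M ≤ X := by
      calc M = M * 1 := (Nat.mul_one M).symm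
        _ ≤ M * Z ^ h := Nat.mul_le_mul_left _ (Nat.one_le_pow _ _ hZ)
        _ ≤ X := hX
    have hXM : (1 : ℝ) ≤ X / M := by
      rw [le_div_iff₀ hMpos, one_mul]
      exact_mod_cast hMX
    have hBp : ∀ p ∈ B, p.Prime ∧ ord2 p = n ∧ p ≤ Z ∧ ¬ p ∣ M := by
      intro p hp
      rw [hB, mem_filter, mem_PO n hn1] at hp
      refine ⟨hp.1.1, hp.1.2, hp.2, fun hd => ?_⟩
      have := hMK p hp.1.1 hd
      omega
    -- number of `t`
    have hTcard : (T.card : ℝ) ≤ 2 * X / M := by
      have h1 := count_le M a X hM ∅ (by simp)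
      simp only [notMem_empty, false_implies, implies_true, and_true, prod_empty, mul_one,
        one_mul] at h1
      have h2 : (T.card : ℝ) ≤ X / M + 1 := by
        convert h1
      have h3 : (2 * X / M : ℝ) = X / M + X / M := by ring
      rw [h3]
      linarith
    -- the binomial moments
    have hsT : ∀ t, ((sT Z t n).choose h : ℝ) =
        ∑ Q ∈ B.powersetCard h, if ∀ p ∈ Q, Kills t p then (1 : ℝ) else 0 := by
      intro t
      have h1 : (PO n).filter (fun p => p ≤ Z ∧ Kills t p) = B.filter (fun p => Kills t p) := by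
        rw [hB, filter_filter]
      have h2 : (sT Z t n).choose h =
          ((B.powersetCard h).filter (fun Q => ∀ p ∈ Q, Kills t p)).card := by
        rw [sT]
        have h3 : ((PO n).filter (fun p => p ≤ Z ∧ Kills t p)).card =
            (B.filter (fun p => Kills t p)).card := by
          convert congrArg Finset.card h1
        rw [h3, ← card_powersetCard]
        congr 1
        ext Q
        rw [mem_powersetCard, mem_filter, mem_powersetCard]
        constructor
        · rintro ⟨h4, h5⟩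
          exact ⟨⟨fun p hp => (mem_filter.1 (h4 hp)).1, h5⟩, fun p hp => (mem_filter.1 (h4 hp)).2⟩
        · rintro ⟨⟨h4, h5⟩, h6⟩
          exact ⟨fun p hp => mem_filter.2 ⟨h4 hp, h6 p hp⟩, h5⟩
      rw [h2, card_filter]
      push_cast
      rfl
    have hQ : ∀ Q ∈ B.powersetCard h,
        ∑ t ∈ T, (if ∀ p ∈ Q, Kills t p then (1 : ℝ) else 0) ≤
          (2 * X / M) * ∏ p ∈ Q, (4 * n : ℝ) / p := by
      intro Q hQ
      rw [mem_powersetCard] at hQ
      have h1 := count_le M a X hM Q (fun p hp => ⟨(hBp p (hQ.1 hp)).1, (hBp p (hQ.1 hp)).2.2.2⟩)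
      have h2 : ∑ t ∈ T, (if ∀ p ∈ Q, Kills t p then (1 : ℝ) else 0) =
          (((Finset.range X).filter (fun t => t ≡ a [MOD M] ∧ ∀ p ∈ Q, Kills t p)).card : ℝ) := by
        rw [← filter_filter, card_filter]
        push_cast
        rfl
      have h3 : ∑ t ∈ T, (if ∀ p ∈ Q, Kills t p then (1 : ℝ) else 0) ≤
          (∏ p ∈ Q, (4 * ord2 p : ℝ)) * (X / (M * ∏ p ∈ Q, (p : ℝ)) + 1) := by
        rw [h2]
        convert h1
      have h4 : ∏ p ∈ Q, (4 * ord2 p : ℝ) = ∏ p ∈ Q, (4 * n : ℝ) := by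
        refine prod_congr rfl fun p hp => ?_
        rw [(hBp p (hQ.1 hp)).2.1]
      have h5 : (0 : ℝ) < ∏ p ∈ Q, (p : ℝ) :=
        prod_pos fun p hp => by exact_mod_cast (hBp p (hQ.1 hp)).1.pos
      have h6 : ∏ p ∈ Q, (p : ℝ) ≤ (Z : ℝ) ^ h := by
        calc ∏ p ∈ Q, (p : ℝ) ≤ ∏ _p ∈ Q, (Z : ℝ) :=
              prod_le_prod (fun p _ => by positivity)
                (fun p hp => by exact_mod_cast (hBp p (hQ.1 hp)).2.2.1)
          _ = (Z : ℝ) ^ h := by rw [prod_const, hQ.2]
      have h7 : (1 : ℝ) ≤ X / (M * ∏ p ∈ Q, (p : ℝ)) := by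
        rw [le_div_iff₀ (by positivity), one_mul]
        calc (M : ℝ) * ∏ p ∈ Q, (p : ℝ) ≤ M * (Z : ℝ) ^ h :=
              mul_le_mul_of_nonneg_left h6 hMpos.le
          _ ≤ X := by exact_mod_cast hX
      calc _ ≤ (∏ p ∈ Q, (4 * ord2 p : ℝ)) * (X / (M * ∏ p ∈ Q, (p : ℝ)) + 1) := h3
        _ ≤ (∏ p ∈ Q, (4 * n : ℝ)) * (X / (M * ∏ p ∈ Q, (p : ℝ)) +
              X / (M * ∏ p ∈ Q, (p : ℝ))) := by
            rw [h4]
            exact mul_le_mul_of_nonneg_left (by linarith) (prod_nonneg fun _ _ => by positivity)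
        _ = (2 * X / M) * ∏ p ∈ Q, (4 * n : ℝ) / p := by
            rw [prod_div_distrib]
            field_simp
            ring
    have hsum : ∑ t ∈ T, ((sT Z t n).choose h : ℝ) ≤
        (2 * X / M) * (4 * (1 + Real.log n)) ^ h := by
      calc ∑ t ∈ T, ((sT Z t n).choose h : ℝ)
          = ∑ Q ∈ B.powersetCard h, ∑ t ∈ T, (if ∀ p ∈ Q, Kills t p then (1 : ℝ) else 0) := by
            rw [sum_comm]
            exact sum_congr rfl fun t _ => hsT t
        _ ≤ ∑ Q ∈ B.powersetCard h, (2 * X / M) * ∏ p ∈ Q, (4 * n : ℝ) / p := sum_le_sum hQ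
        _ = (2 * X / M) * ∑ Q ∈ B.powersetCard h, ∏ p ∈ Q, (4 * n : ℝ) / p := by rw [mul_sum]
        _ ≤ (2 * X / M) * (∑ p ∈ B, (4 * n : ℝ) / p) ^ h :=
            mul_le_mul_of_nonneg_left
              (MO_esymm (fun p : ℕ => (4 * n : ℝ) / p) B (fun p _ => by positivity) h)
              (by positivity)
        _ ≤ (2 * X / M) * (4 * (1 + Real.log n)) ^ h := by
            refine mul_le_mul_of_nonneg_left ?_ (by positivity)
            refine pow_le_pow_left₀ (sum_nonneg fun p _ => by positivity) ?_ h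
            refine le_trans ?_ (sum_PO n hn1)
            exact sum_le_sum_of_subset_of_nonneg (filter_subset _ _) (fun p _ _ => by positivity)
    calc ∑ t ∈ T, ((sT Z t n : ℝ)) ^ h
        ≤ ∑ t ∈ T, (h : ℝ) ^ h * (1 + ((sT Z t n).choose h : ℝ)) := by
          refine sum_le_sum fun t _ => ?_
          exact_mod_cast MO_pow_le (sT Z t n) h
      _ = (h : ℝ) ^ h * (T.card + ∑ t ∈ T, ((sT Z t n).choose h : ℝ)) := by
          rw [← mul_sum, sum_add_distrib, sum_const, nsmul_eq_mul, mul_one]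
      _ ≤ (h : ℝ) ^ h * (2 * X / M + (2 * X / M) * (4 * (1 + Real.log n)) ^ h) := by
          refine mul_le_mul_of_nonneg_left (add_le_add hTcard hsum) (by positivity)
      _ = (2 * X / M) * ((h : ℝ) ^ h * (1 + (4 * (1 + Real.log n)) ^ h)) := by ring

end Pool.Agent.H56.CV
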