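import Pool.Agent.Helper56.CV.F1
import Pool.Agent.Helper56.CV.MO
import Pool.Agent.Helper56.CV.DI
import Pool.Agent.Helper56.CV.Choice

/-!
Project CV (MP_2e7a1b_nt): the density theorem.
-/

namespace Pool.Agent.H56.CV

open Finset

/-- the multiplicity function used for a given `t` -/
noncomputable def kT (C δ : ℝ) (Z t m : ℕ) : ℝ :=
  (sT Z t m : ℝ) + (sT Z t (2 * m) : ℝ) + (sT Z t (4 * m) : ℝ) +
    (S C δ m + S C δ (2 * m) + S C δ (4 * m))

lemma kT_nonneg (C δ : ℝ) (Z t m : ℕ) : 0 ≤ kT C δ Z t m := by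
  unfold kT
  have := S_nonneg C δ m
  have := S_nonneg C δ (2 * m)
  have := S_nonneg C δ (4 * m)
  positivity

lemma four_pow (a b c d : ℝ) (ha : 0 ≤ a) (hb : 0 ≤ b) (hc : 0 ≤ c) (hd : 0 ≤ d) (h : ℕ) :
    (a + b + c + d) ^ h ≤ 4 ^ h * (a ^ h + b ^ h + c ^ h + d ^ h) := by
  have hm : ∃ x : ℝ, 0 ≤ x ∧ a ≤ x ∧ b ≤ x ∧ c ≤ x ∧ d ≤ x ∧
      x ^ h ≤ a ^ h + b ^ h + c ^ h + d ^ h := by
    have pa : 0 ≤ a ^ h := pow_nonneg ha h
    have pb : 0 ≤ b ^ h := pow_nonneg hb h
    have pc : 0 ≤ c ^ h := pow_nonneg hc h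
    have pd : 0 ≤ d ^ h := pow_nonneg hd h
    rcases le_total a b with h1 | h1 <;> rcases le_total c d with h2 | h2
    · rcases le_total b d with h3 | h3
      · exact ⟨d, hd, by linarith, h3, h2, le_refl _, by linarith⟩
      · exact ⟨b, hb, h1, le_refl _, by linarith, h3, by linarith⟩
    · rcases le_total b c with h3 | h3
      · exact ⟨c, hc, by linarith, h3, le_refl _, h2, by linarith⟩
      · exact ⟨b, hb, h1, le_refl _, h3, by linarith, by linarith⟩
    · rcases le_total a d with h3 | h3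
      · exact ⟨d, hd, h3, by linarith, h2, le_refl _, by linarith⟩
      · exact ⟨a, ha, le_refl _, h1, by linarith, h3, by linarith⟩
    · rcases le_total a c with h3 | h3
      · exact ⟨c, hc, h3, by linarith, le_refl _, h2, by linarith⟩
      · exact ⟨a, ha, le_refl _, h1, h3, by linarith, by linarith⟩
  obtain ⟨x, hx, h1, h2, h3, h4, h5⟩ := hm
  calc (a + b + c + d) ^ h ≤ (4 * x) ^ h := pow_le_pow_left₀ (by positivity) (by linarith) h
    _ = 4 ^ h * x ^ h := mul_pow _ _ _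
    _ ≤ _ := mul_le_mul_of_nonneg_left h5 (by positivity)

/-- number of members of the class below `X` -/
lemma card_class_le (M a X : ℕ) (hM : 0 < M) (hMX : M ≤ X) :
    (((Finset.range X).filter (fun t => t ≡ a [MOD M])).card : ℝ) ≤ 2 * X / M := by
  classical
  have h1 := count_le M a X hM ∅ (by simp)
  simp only [Finset.notMem_empty, false_imp_iff, implies_true, and_true, Finset.prod_empty,
    mul_one, one_mul] at h1
  have h2 : (1 : ℝ) ≤ X / M := by
    have hM0 : (0 : ℝ) < M := by exact_mod_cast hM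
    rw [le_div_iff₀ hM0, one_mul]; exact_mod_cast hMX
  have h3 : (((Finset.range X).filter (fun t => t ≡ a [MOD M])).card : ℝ) ≤ X / M + 1 := by
    convert h1 using 3
  have h4 : (2 : ℝ) * X / M = X / M + X / M := by ring
  rw [h4]; linarith

lemma moment_all (h K M a X Z n : ℕ) (hh : 1 ≤ h) (hM : 0 < M)
    (hMK : ∀ p : ℕ, p.Prime → p ∣ M → ord2 p < K)
    (hno : ∀ t : ℕ, t ≡ a [MOD M] → ∀ p : ℕ, p.Prime → ord2 p < K → ¬ Kills t p)
    (hn1 : 1 ≤ n) (hX : M * Z ^ h ≤ X) :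
    ∑ t ∈ (Finset.range X).filter (fun t => t ≡ a [MOD M]), ((sT Z t n : ℝ)) ^ h ≤
      (2 * X / M) * ((h : ℝ) ^ h * (1 + (4 * (1 + Real.log n)) ^ h)) := by
  classical
  rcases le_or_gt K n with hK | hK
  · exact moment_le h K M a X Z n hh hM hMK hK hn1 hX
  · have h0 : ∑ t ∈ (Finset.range X).filter (fun t => t ≡ a [MOD M]), ((sT Z t n : ℝ)) ^ h = 0 := by
      apply Finset.sum_eq_zero
      intro t ht
      rw [Finset.mem_filter] at ht
      have : sT Z t n = 0 := by
        unfold sT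
        apply Finset.card_eq_zero.2
        apply Finset.eq_empty_of_forall_notMem
        intro p hp
        rw [Finset.mem_filter, mem_PO n hn1] at hp
        exact hno t ht.2 p hp.1.1 (by omega) hp.2.2
      rw [this]
      simp; omega
    rw [h0]
    have : 0 ≤ Real.log n := Real.log_natCast_nonneg n
    positivity

lemma kT_moment (C δ : ℝ) (h K M a X Z m : ℕ) (hh : 1 ≤ h) (hM : 0 < M)
    (hMK : ∀ p : ℕ, p.Prime → p ∣ M → ord2 p < 4 * K)
    (hno : ∀ t : ℕ, t ≡ a [MOD M] → ∀ p : ℕ, p.Prime → ord2 p < 4 * K → ¬ Kills t p)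
    (hm1 : 1 ≤ m) (hX : M * Z ^ h ≤ X) (hMX : M ≤ X)
    (hS : 4 ^ h * (3 * ((h : ℝ) ^ h * (1 + (4 * (1 + Real.log (4 * m))) ^ h)) +
        (S C δ m + S C δ (2 * m) + S C δ (4 * m)) ^ h) ≤ (S (C + 1) δ m) ^ h) :
    ∑ t ∈ (Finset.range X).filter (fun t => t ≡ a [MOD M]), (kT C δ Z t m) ^ h ≤
      (2 * X / M) * (S (C + 1) δ m) ^ h := by
  have hlog : ∀ i : ℕ, 1 ≤ i → i ≤ 4 →
      ∑ t ∈ (Finset.range X).filter (fun t => t ≡ a [MOD M]), ((sT Z t (i * m) : ℝ)) ^ h ≤
      (2 * X / M) * ((h : ℝ) ^ h * (1 + (4 * (1 + Real.log (4 * m))) ^ h)) := by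
    intro i hi1 hi4
    have hm0 : (0 : ℝ) < m := by exact_mod_cast hm1
    have hi0 : (0 : ℝ) < i := by exact_mod_cast hi1
    refine (moment_all h (4 * K) M a X Z (i * m) hh hM hMK hno
      (Nat.mul_pos hi1 hm1) hX).trans ?_
    apply mul_le_mul_of_nonneg_left _ (by positivity)
    apply mul_le_mul_of_nonneg_left _ (by positivity)
    have h1 : Real.log ((i * m : ℕ) : ℝ) ≤ Real.log (4 * m) := by
      apply Real.log_le_log
      · push_cast; positivity
      · push_cast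
        have : (i : ℝ) ≤ 4 := by exact_mod_cast hi4
        nlinarith
    have h0 : 0 ≤ Real.log ((i * m : ℕ) : ℝ) := Real.log_natCast_nonneg _
    have := pow_le_pow_left₀ (show 0 ≤ 4 * (1 + Real.log ((i * m : ℕ) : ℝ)) by positivity)
      (show 4 * (1 + Real.log ((i * m : ℕ) : ℝ)) ≤ 4 * (1 + Real.log (4 * m)) by linarith) h
    linarith
  have h1 := hlog 1 (by norm_num) (by norm_num)
  have h2 := hlog 2 (by norm_num) (by norm_num)
  have h4 := hlog 4 (by norm_num) (by norm_num)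
  rw [one_mul] at h1
  set B : ℝ := S C δ m + S C δ (2 * m) + S C δ (4 * m) with hB
  have hB0 : 0 ≤ B := by
    have := S_nonneg C δ m
    have := S_nonneg C δ (2 * m)
    have := S_nonneg C δ (4 * m)
    positivity
  have hcl := card_class_le M a X hM hMX
  calc ∑ t ∈ (Finset.range X).filter (fun t => t ≡ a [MOD M]), (kT C δ Z t m) ^ h
      ≤ ∑ t ∈ (Finset.range X).filter (fun t => t ≡ a [MOD M]),
        4 ^ h * ((sT Z t m : ℝ) ^ h + (sT Z t (2 * m) : ℝ) ^ h + (sT Z t (4 * m) : ℝ) ^ h +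
          B ^ h) := by
        apply Finset.sum_le_sum
        intro t _
        exact four_pow _ _ _ _ (by positivity) (by positivity) (by positivity) hB0 h
    _ = 4 ^ h * (∑ t ∈ (Finset.range X).filter (fun t => t ≡ a [MOD M]), (sT Z t m : ℝ) ^ h +
          ∑ t ∈ (Finset.range X).filter (fun t => t ≡ a [MOD M]), (sT Z t (2 * m) : ℝ) ^ h +
          ∑ t ∈ (Finset.range X).filter (fun t => t ≡ a [MOD M]), (sT Z t (4 * m) : ℝ) ^ h +
          ((Finset.range X).filter (fun t => t ≡ a [MOD M])).card * B ^ h) := by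
        rw [← Finset.mul_sum, Finset.sum_add_distrib, Finset.sum_add_distrib,
          Finset.sum_add_distrib, Finset.sum_const, nsmul_eq_mul]
    _ ≤ 4 ^ h * ((2 * X / M) * ((h : ℝ) ^ h * (1 + (4 * (1 + Real.log (4 * m))) ^ h)) +
          (2 * X / M) * ((h : ℝ) ^ h * (1 + (4 * (1 + Real.log (4 * m))) ^ h)) +
          (2 * X / M) * ((h : ℝ) ^ h * (1 + (4 * (1 + Real.log (4 * m))) ^ h)) +
          (2 * X / M) * B ^ h) := by
        apply mul_le_mul_of_nonneg_left _ (by positivity)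
        have := mul_le_mul_of_nonneg_right hcl (pow_nonneg hB0 h)
        linarith
    _ = (2 * X / M) * (4 ^ h * (3 * ((h : ℝ) ^ h * (1 + (4 * (1 + Real.log (4 * m))) ^ h)) +
          B ^ h)) := by ring
    _ ≤ (2 * X / M) * (S (C + 1) δ m) ^ h := mul_le_mul_of_nonneg_left hS (by positivity)

/-- one `t` which is not discarded -/
lemma one_t (C δ : ℝ) (h K N Y Z t : ℕ) (hK : 2 ≤ K) (hh : 1 ≤ h)
    (hno : ∀ p : ℕ, p.Prime → ord2 p < 4 * K → ¬ Kills t p)
    (hdis : ¬ ∃ p, p.Prime ∧ Z < p ∧ 4 * K ≤ ord2 p ∧ ord2 p < N ∧ Kills t p)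
    (P : Finset ℕ) (hP : IsCover (t ^ 4) P) (hY : ∀ p ∈ P, ord2 p < Y)
    (hhi : hiMass C δ N P < 1 / 5) :
    1 / 5 ≤ distSum h K Y (kT C δ Z t) := by
  classical
  set s := P.filter (fun p => Kills t p ∧
    (ord2 p < N ∨ (mult P (ord2 p) : ℝ) ≤ S C δ (ord2 p))) with hs
  set u := P.filter (fun p => Kills t p ∧ N ≤ ord2 p ∧
    S C δ (ord2 p) < (mult P (ord2 p) : ℝ)) with hu
  have hc := core t P hP K h Y hK hh hno s u
    (fun p hp hk => by
      rcases lt_or_ge (ord2 p) N with h0 | h0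
      · exact Finset.mem_union_left _ (by simp [hs, hp, hk, h0])
      · rcases le_or_gt (mult P (ord2 p) : ℝ) (S C δ (ord2 p)) with h1 | h1
        · exact Finset.mem_union_left _ (by simp [hs, hp, hk, h1])
        · exact Finset.mem_union_right _ (by simp [hu, hp, hk, h0, h1]))
    (fun p hp => by
      rw [hs, Finset.mem_filter] at hp
      exact ⟨hP.1 p hp.1, hp.2.1⟩)
    (fun p hp => by
      rw [hu, Finset.mem_filter] at hp
      exact ⟨hP.1 p hp.1, hp.2.1⟩)
    (fun p hp => hY p (Finset.mem_of_mem_filter p hp))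
  have hlow : ∀ n, 1 ≤ n → ((s.filter (fun p => ord2 p = n)).card : ℝ) ≤
      sT Z t n + S C δ n := by
    intro n hn
    rcases lt_or_ge n N with h0 | h0
    · have h1 : (s.filter (fun p => ord2 p = n)).card ≤ sT Z t n := by
        unfold sT
        apply Finset.card_le_card
        intro p hp
        rw [Finset.mem_filter, hs, Finset.mem_filter] at hp
        obtain ⟨⟨hpP, hk, -⟩, ho⟩ := hp
        rw [Finset.mem_filter, mem_PO n hn]
        refine ⟨⟨hP.1 p hpP, ho⟩, ?_, hk⟩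
        by_contra hlt
        exact hdis ⟨p, hP.1 p hpP, not_le.1 hlt,
          (by by_contra hh'; exact hno p (hP.1 p hpP) (not_le.1 hh') hk), ho ▸ h0, hk⟩
      have h2 : ((s.filter (fun p => ord2 p = n)).card : ℝ) ≤ sT Z t n := by exact_mod_cast h1
      linarith [S_nonneg C δ n]
    · have h1 : ((s.filter (fun p => ord2 p = n)).card : ℝ) ≤ S C δ n := by
        by_cases he : (s.filter (fun p => ord2 p = n)) = ∅
        · rw [he]; simpa using S_nonneg C δ n
        · obtain ⟨p, hp⟩ := Finset.nonempty_iff_ne_empty.2 he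
          rw [Finset.mem_filter, hs, Finset.mem_filter] at hp
          obtain ⟨⟨hpP, hk, h3⟩, ho⟩ := hp
          rw [ho] at h3
          have h4 : (mult P n : ℝ) ≤ S C δ n := by
            rcases h3 with h3 | h3
            · omega
            · exact h3
          refine le_trans ?_ h4
          unfold mult
          exact_mod_cast Finset.card_le_card (fun x hx => by
            rw [Finset.mem_filter, hs, Finset.mem_filter] at hx
            rw [Finset.mem_filter]
            exact ⟨hx.1.1, hx.2⟩)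
      have : (0 : ℝ) ≤ sT Z t n := by positivity
      linarith
  have hmono : distSum h K Y (fun m => ((s.filter (fun p => md (ord2 p) = m)).card : ℝ)) ≤
      distSum h K Y (kT C δ Z t) := by
    apply distSum_mono
    · intro n; positivity
    · intro m hm _
      have h1 := card_md_le s m
      have h2 : ((s.filter (fun p => md (ord2 p) = m)).card : ℝ) ≤
          (s.filter (fun p => ord2 p = m)).card + (s.filter (fun p => ord2 p = 2 * m)).card +
          (s.filter (fun p => ord2 p = 4 * m)).card := by exact_mod_cast h1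
      unfold kT
      linarith [hlow m (by omega), hlow (2 * m) (by omega), hlow (4 * m) (by omega)]
  rw [← Finset.mul_sum] at hc
  have hmass : ∑ p ∈ u, wt (ord2 p) ≤ hiMass C δ N P := by
    unfold hiMass wt
    apply Finset.sum_le_sum_of_subset_of_nonneg
    · intro p hp
      rw [hu, Finset.mem_filter] at hp
      rw [Finset.mem_filter]
      exact ⟨hp.1, hp.2.2.1, hp.2.2.2⟩
    · intros; positivity
  linarith

open Classical in
theorem density (δ : ℝ) (hδ : 0 < δ) (hδ1 : δ < 1) (C : ℝ) (hC : 0 ≤ C) (ε : ℝ) (hε : 0 < ε) :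
    ∃ a M : ℕ, 0 < M ∧
      (∀ t : ℕ, t ≡ a [MOD M] → Odd t ∧ ∀ k : ℕ, 1 ≤ k → ¬ (t ^ 4 * 2 ^ k + 1).Prime) ∧
      ∃ X0 : ℕ, ∀ X : ℕ, X0 ≤ X →
        (((Finset.range X).filter (fun t => t ≡ a [MOD M] ∧
          ∃ P : Finset ℕ, IsCover (t ^ 4) P ∧
            hiMass C δ ⌈(X : ℝ) ^ (δ / 21)⌉₊ P < 1 / 5)).card : ℝ) ≤ ε * (X / M) := by
  have hh1 : 1 ≤ ⌈6 / δ⌉₊ := Nat.one_le_ceil_iff.2 (by positivity)
  obtain ⟨K0, hK0, hD⟩ := dist_small (C + 1) δ (by linarith) hδ hδ1 (ε / 20) (by positivity)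
  have hc3 : 3 * (δ / 21) < 1 / (⌈6 / δ⌉₊ : ℝ) := by
    have h1 : (⌈6 / δ⌉₊ : ℝ) < 6 / δ + 1 := Nat.ceil_lt_add_one (by positivity)
    have h2 : 6 / δ + 1 < 7 / δ := by
      have : (7 : ℝ) / δ = 6 / δ + 1 / δ := by ring
      rw [this]
      have : 1 < 1 / δ := by rw [lt_div_iff₀ hδ]; linarith
      linarith
    have h3 : (0 : ℝ) < (⌈6 / δ⌉₊ : ℝ) := by exact_mod_cast hh1
    have h4 : (⌈6 / δ⌉₊ : ℝ) * δ < 7 := by
      have : (⌈6 / δ⌉₊ : ℝ) < 7 / δ := by linarith
      rwa [lt_div_iff₀ hδ] at this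
    rw [lt_div_iff₀ h3]
    nlinarith
  generalize ⌈6 / δ⌉₊ = h at hh1 hD hc3
  obtain ⟨K1, hK1, hS⟩ := S_comb C δ hC hδ hδ1 h hh1
  obtain ⟨K, hKK0, hKK1, hK17⟩ : ∃ K : ℕ, K0 ≤ K ∧ K1 ≤ K ∧ 17 ≤ K :=
    ⟨max (max K0 K1) 17, by omega, by omega, by omega⟩
  obtain ⟨a, M, hM, hMK, hcl⟩ := exists_class (4 * K) (by omega)
  have hno : ∀ t : ℕ, t ≡ a [MOD M] → ∀ p : ℕ, p.Prime → ord2 p < 4 * K → ¬ Kills t p :=
    fun t ht => (hcl t ht).2
  refine ⟨a, M, hM, fun t ht => ⟨Nat.odd_iff.2 (hcl t ht).1.1,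
    fun k hk => prime_free t (hcl t ht).1 k hk⟩, ?_⟩
  clear hcl
  obtain ⟨X0, hX0⟩ := param_choice h M hh1 hM (δ / 21) (by positivity) hc3 (ε / 2) (by positivity)
  refine ⟨X0, fun X hX => ?_⟩
  obtain ⟨Z, hZ1, hZX, hMX, hZ4⟩ := hX0 X hX
  generalize hN : ⌈(X : ℝ) ^ (δ / 21)⌉₊ = N at hZ4 ⊢
  set Bad := (Finset.range X).filter (fun t => t ≡ a [MOD M] ∧
          ∃ P : Finset ℕ, IsCover (t ^ 4) P ∧ hiMass C δ N P < 1 / 5) with hBad
  set D1 := (Finset.range X).filter (fun t => t ≡ a [MOD M] ∧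
      ∃ p, p.Prime ∧ Z < p ∧ 4 * K ≤ ord2 p ∧ ord2 p < N ∧ Kills t p) with hD1
  have hdis : (D1.card : ℝ) ≤ ε / 2 * (X / M) := by
    have := discard_le (4 * K) M a X Z N hZ1 (by omega) hM hMK
    refine le_trans (le_of_eq ?_) (this.trans hZ4)
    rw [hD1]
    congr!
  have hex : ∀ t : ℕ, ∃ P : Finset ℕ, t ∈ Bad → IsCover (t ^ 4) P ∧ hiMass C δ N P < 1 / 5 := by
    intro t
    by_cases ht : t ∈ Bad
    · obtain ⟨P, hP⟩ := (Finset.mem_filter.1 ht).2.2
      exact ⟨P, fun _ => hP⟩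
    · exact ⟨∅, fun h => absurd h ht⟩
  choose Pt hPt using hex
  set Y : ℕ := (Bad.sup (fun t => (Pt t).sup (fun p => ord2 p))) + 1 with hY
  have hYb : ∀ t ∈ Bad, ∀ p ∈ Pt t, ord2 p < Y := by
    intro t ht p hp
    apply Nat.lt_succ_of_le
    exact (Finset.le_sup (f := fun p => ord2 p) hp).trans
      (Finset.le_sup (f := fun t => (Pt t).sup (fun p => ord2 p)) ht)
  have hpt : ∀ t ∈ Bad \ D1, 1 / 5 ≤ distSum h K Y (kT C δ Z t) := by
    intro t ht
    rw [Finset.mem_sdiff] at ht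
    obtain ⟨ht1, ht2⟩ := ht
    have htB := ht1
    rw [hBad, Finset.mem_filter] at htB
    refine one_t C δ h K N Y Z t (by omega) hh1 (hno t htB.2.1) ?_ (Pt t) (hPt t ht1).1
      (hYb t ht1) (hPt t ht1).2
    intro hcon
    exact ht2 (by rw [hD1, Finset.mem_filter]; exact ⟨htB.1, htB.2.1, hcon⟩)
  have hsub : Bad \ D1 ⊆ (Finset.range X).filter (fun t => t ≡ a [MOD M]) := by
    intro t ht
    rw [Finset.mem_sdiff, hBad, Finset.mem_filter] at ht
    rw [Finset.mem_filter]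
    exact ⟨ht.1.1, ht.1.2.1⟩
  have hdn : ∀ t, 0 ≤ distSum h K Y (kT C δ Z t) := by
    intro t
    unfold distSum mom
    apply Finset.sum_nonneg
    intro q _
    apply mul_nonneg (by positivity)
    apply Finset.sum_nonneg
    intro ν _
    exact mul_nonneg (Finset.prod_nonneg fun k _ => kT_nonneg C δ Z t _) (tw_nonneg q ν)
  have hsum : ∑ t ∈ (Finset.range X).filter (fun t => t ≡ a [MOD M]),
      distSum h K Y (kT C δ Z t) ≤ (2 * X / M) * (ε / 20) := by
    refine (avg_dist h K Y hh1 _ (fun t m => kT C δ Z t m) (fun t m => kT_nonneg C δ Z t m)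
      (S (C + 1) δ) (2 * X / M) (by positivity) ?_ ?_).trans
      (mul_le_mul_of_nonneg_left (hD K Y hKK0) (by positivity))
    · intro n hn _
      unfold S
      have hg : 0 < gpf n := by
        unfold gpf
        obtain ⟨p, hp, hpn⟩ := Nat.exists_prime_and_dvd (show n ≠ 1 by omega)
        have : p ∈ n.primeFactors := Nat.mem_primeFactors.2 ⟨hp, hpn, by omega⟩
        exact lt_of_lt_of_le hp.pos (Finset.le_sup (f := id) this)
      have hg' : (0 : ℝ) < gpf n := by exact_mod_cast hg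
      positivity
    · intro n hn _
      exact kT_moment C δ h K M a X Z n hh1 hM hMK hno (by omega) hZX hMX (hS n (by omega)).2
  have hB2 : ((Bad \ D1).card : ℝ) ≤ ε / 2 * (X / M) := by
    have h1 : ((Bad \ D1).card : ℝ) * (1 / 5) ≤
        ∑ t ∈ Bad \ D1, distSum h K Y (kT C δ Z t) := by
      rw [← nsmul_eq_mul]
      exact Finset.card_nsmul_le_sum _ _ _ hpt
    have h2 : ∑ t ∈ Bad \ D1, distSum h K Y (kT C δ Z t) ≤
        ∑ t ∈ (Finset.range X).filter (fun t => t ≡ a [MOD M]), distSum h K Y (kT C δ Z t) :=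
      Finset.sum_le_sum_of_subset_of_nonneg hsub fun t _ _ => hdn t
    have h3 : (2 * (X : ℝ) / M) * (ε / 20) = (ε / 10) * (X / M) := by ring
    linarith
  have hle : (Bad.card : ℝ) ≤ ((Bad \ D1).card : ℝ) + D1.card := by
    have : Bad.card ≤ (Bad \ D1).card + D1.card := by
      have := Finset.card_le_card (show Bad ⊆ (Bad \ D1) ∪ D1 by
        intro t ht
        by_cases h : t ∈ D1
        · exact Finset.mem_union_right _ h
        · exact Finset.mem_union_left _ (Finset.mem_sdiff.2 ⟨ht, h⟩))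
      exact this.trans (Finset.card_union_le _ _)
    exact_mod_cast this
  linarith

end Pool.Agent.H56.CV
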