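import Pool.Agent.Helper56.CV.TD

/-!
Project CV (MP_2e7a1b_nt), piece FM.

T C delta n <= n^(1-delta) (T_le in TD.lean), wt n = 2^omega(n)/n <= 2^Q/n for the n with gpf n <= Q, such n are
(Q+1)-smooth; the sum over smooth n of n^(-delta) converges
(EulerProduct.summable_and_hasSum_smoothNumbers_prod_primesBelow_geometric with f n = n^(-delta), a monoid
hom), so its tail over n >= K is small.
-/

namespace Pool.Agent.H56.CV

open Finset

/-- `n ^ (-δ)` as a monoid homomorphism. -/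
private noncomputable def FM_hom (δ : ℝ) : ℕ →* ℝ where
  toFun n := (n : ℝ) ^ (-δ)
  map_one' := by simp
  map_mul' m n := by
    rw [Nat.cast_mul, Real.mul_rpow (Nat.cast_nonneg _) (Nat.cast_nonneg _)]

private theorem FM_summable (δ : ℝ) (hδ : 0 < δ) (Q : ℕ) :
    Summable ((Nat.smoothNumbers (Q + 1)).indicator (fun n : ℕ => (n : ℝ) ^ (-δ))) := by
  rw [← summable_subtype_iff_indicator]
  have h := (EulerProduct.summable_and_hasSum_smoothNumbers_prod_primesBelow_geometric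
    (f := FM_hom δ) (fun {p} hp => by
      have h1 : (1 : ℝ) < p := by exact_mod_cast hp.one_lt
      show ‖(p : ℝ) ^ (-δ)‖ < 1
      rw [Real.norm_of_nonneg (by positivity)]
      exact Real.rpow_lt_one_of_one_lt_of_neg h1 (by linarith)) (Q + 1)).1
  refine h.congr fun m => ?_
  show ‖(((m : ℕ) : ℝ)) ^ (-δ)‖ = (((m : ℕ) : ℝ)) ^ (-δ)
  rw [Real.norm_of_nonneg (by positivity)]

private theorem FM_mem {n Q : ℕ} (hn : n ≠ 0) (h : gpf n ≤ Q) : n ∈ Nat.smoothNumbers (Q + 1) := by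
  rw [Nat.mem_smoothNumbers']
  intro p hp hpn
  have h1 : p ∈ n.primeFactors := Nat.mem_primeFactors.2 ⟨hp, hpn, hn⟩
  have h2 : p ≤ gpf n := Finset.le_sup (f := id) h1
  omega

private theorem FM_wt {n Q : ℕ} (h : gpf n ≤ Q) : wt n ≤ 2 ^ (Q + 1) / (n : ℝ) := by
  unfold wt
  apply div_le_div_of_nonneg_right _ (Nat.cast_nonneg _)
  apply pow_le_pow_right₀ (by norm_num)
  have h1 : n.primeFactors ⊆ Finset.range (Q + 1) := by
    intro p hp
    have h2 : p ≤ gpf n := Finset.le_sup (f := id) hp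
    exact Finset.mem_range.2 (by omega)
  have h3 := Finset.card_le_card h1
  rwa [Finset.card_range] at h3

theorem first_small (G C δ : ℝ) (hG : 0 ≤ G) (hC : 0 ≤ C) (hδ : 0 < δ) (hδ1 : δ < 1) (Q : ℕ)
    (ε : ℝ) (hε : 0 < ε) :
    ∃ K0 : ℕ, ∀ K : ℕ, K0 ≤ K → ∀ Y : ℕ,
      ∑ n ∈ (Finset.Ico K Y).filter (fun n => gpf n ≤ Q), G * T C δ n * wt n ≤ ε := by
  have hM : (0 : ℝ) < G * 2 ^ (Q + 1) + 1 := by positivity
  obtain ⟨s, hs⟩ := summable_iff_vanishing_norm.mp (FM_summable δ hδ Q)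
    (ε / (G * 2 ^ (Q + 1) + 1)) (by positivity)
  refine ⟨s.sup id + 1, fun K hK Y => ?_⟩
  set t := (Finset.Ico K Y).filter (fun n => gpf n ≤ Q) with ht
  have hpos : ∀ n ∈ t, 1 ≤ n := by
    intro n hn
    have := (Finset.mem_Ico.1 (Finset.mem_filter.1 hn).1).1
    omega
  have hdis : Disjoint t s := by
    rw [Finset.disjoint_left]
    intro n hn hns
    have h1 := (Finset.mem_Ico.1 (Finset.mem_filter.1 hn).1).1
    have h2 : n ≤ s.sup id := Finset.le_sup (f := id) hns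
    omega
  have h1 := hs t hdis
  have h2 : ∑ n ∈ t, (Nat.smoothNumbers (Q + 1)).indicator (fun n : ℕ => (n : ℝ) ^ (-δ)) n =
      ∑ n ∈ t, (n : ℝ) ^ (-δ) := by
    apply Finset.sum_congr rfl
    intro n hn
    have h3 := hpos n hn
    exact Set.indicator_of_mem (FM_mem (by omega) (Finset.mem_filter.1 hn).2) _
  rw [h2] at h1
  have h3 : ∑ n ∈ t, (n : ℝ) ^ (-δ) < ε / (G * 2 ^ (Q + 1) + 1) :=
    lt_of_le_of_lt (Real.le_norm_self _) h1
  have h4 : ∀ n ∈ t, G * T C δ n * wt n ≤ G * 2 ^ (Q + 1) * (n : ℝ) ^ (-δ) := by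
    intro n hn
    have hn1 := hpos n hn
    have hn0 : (0 : ℝ) < n := by exact_mod_cast hn1
    have h5 := T_le C δ hδ1 n hn1
    have h6 := FM_wt (Finset.mem_filter.1 hn).2
    have h7 := T_nonneg C δ n
    have h8 : (0 : ℝ) ≤ wt n := by unfold wt; positivity
    have h9 : (n : ℝ) ^ (1 - δ) = (n : ℝ) * (n : ℝ) ^ (-δ) := by
      rw [show 1 - δ = 1 + -δ by ring, Real.rpow_add hn0, Real.rpow_one]
    calc G * T C δ n * wt n ≤ G * (n : ℝ) ^ (1 - δ) * (2 ^ (Q + 1) / (n : ℝ)) := by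
          apply mul_le_mul (mul_le_mul_of_nonneg_left h5 hG) h6 h8 (by positivity)
      _ = G * 2 ^ (Q + 1) * (n : ℝ) ^ (-δ) := by
          rw [h9]
          field_simp
  calc ∑ n ∈ t, G * T C δ n * wt n ≤ ∑ n ∈ t, G * 2 ^ (Q + 1) * (n : ℝ) ^ (-δ) :=
        Finset.sum_le_sum h4
    _ = G * 2 ^ (Q + 1) * ∑ n ∈ t, (n : ℝ) ^ (-δ) := by rw [Finset.mul_sum]
    _ ≤ G * 2 ^ (Q + 1) * (ε / (G * 2 ^ (Q + 1) + 1)) :=
        mul_le_mul_of_nonneg_left h3.le (by positivity)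
    _ ≤ ε := by
        rw [mul_div_assoc', div_le_iff₀ hM]
        nlinarith

end Pool.Agent.H56.CV
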