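import Pool.Agent.Helper56.CV.Defs2

/-!
Project CV (MP_2e7a1b_nt), piece TD.

Elementary facts on T.  n = topPart n * restPart n.  T_log: with q = gpf n, n = q^a m: if the exponent of m is
1 - delta use x^(1-delta) >= 1 + (1-delta) log x twice; if it is 1/log q then
T >= q^(a(1-delta)) (1 + log m / log q) and q^(a(1-delta)) >= 1 + (1-delta) a log q.
T_two, T_four: for m >= 2 gpf (2m) = gpf m; if gpf m >= 3 the factor 2 goes to restPart (exponent <= 1),
if gpf m = 2 it goes to topPart (exponent 1 - delta <= 1).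
-/

namespace Pool.Agent.H56.CV

open Finset

private theorem TD_gpf_mem (n : ℕ) (hn : 2 ≤ n) : gpf n ∈ n.primeFactors := by
  have h1 : n.primeFactors.Nonempty := Nat.nonempty_primeFactors.2 (by omega)
  obtain ⟨p, hp, h2⟩ := Finset.exists_mem_eq_sup n.primeFactors h1 id
  unfold gpf
  rw [h2]
  exact hp

private theorem TD_mul (n : ℕ) : topPart n * restPart n = n := Nat.ordProj_mul_ordCompl_eq_self n _

private theorem TD_top_pos (n : ℕ) (hn : 1 ≤ n) : 0 < topPart n := by
  rcases Nat.eq_zero_or_pos (topPart n) with h | h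
  · have := TD_mul n
    rw [h, zero_mul] at this
    omega
  · exact h

private theorem TD_rest_pos (n : ℕ) (hn : 1 ≤ n) : 0 < restPart n := by
  rcases Nat.eq_zero_or_pos (restPart n) with h | h
  · have := TD_mul n
    rw [h, mul_zero] at this
    omega
  · exact h

theorem T_nonneg (C δ : ℝ) (n : ℕ) : 0 ≤ T C δ n :=
  mul_nonneg (Real.rpow_nonneg (Nat.cast_nonneg _) _) (Real.rpow_nonneg (Nat.cast_nonneg _) _)

theorem T_pos (C δ : ℝ) (n : ℕ) (hn : 1 ≤ n) : 0 < T C δ n :=
  mul_pos (Real.rpow_pos_of_pos (Nat.cast_pos.2 (TD_top_pos n hn)) _)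
    (Real.rpow_pos_of_pos (Nat.cast_pos.2 (TD_rest_pos n hn)) _)

private theorem TD_rpow_mul (n : ℕ) (e : ℝ) :
    (topPart n : ℝ) ^ e * (restPart n : ℝ) ^ e = (n : ℝ) ^ e := by
  rw [← Real.mul_rpow (Nat.cast_nonneg _) (Nat.cast_nonneg _), ← Nat.cast_mul, TD_mul]

theorem T_le (C δ : ℝ) (hδ1 : δ < 1) (n : ℕ) (hn : 1 ≤ n) : T C δ n ≤ (n : ℝ) ^ (1 - δ) := by
  rw [← TD_rpow_mul n (1 - δ), T]
  refine mul_le_mul_of_nonneg_left ?_ (Real.rpow_nonneg (Nat.cast_nonneg _) _)
  apply Real.rpow_le_rpow_of_exponent_le _ (min_le_left _ _)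
  exact_mod_cast TD_rest_pos n hn

private theorem TD_exp (x e : ℝ) (hx : 0 < x) : 1 + e * Real.log x ≤ x ^ e := by
  rw [Real.rpow_def_of_pos hx]
  have := Real.add_one_le_exp (Real.log x * e)
  linarith

theorem T_log (δ : ℝ) (hδ : 0 < δ) (hδ1 : δ < 1) (n : ℕ) (hn : 1 ≤ n) :
    1 + (1 - δ) * Real.log n ≤ T 1 δ n := by
  have hn0 : (0 : ℝ) < n := by exact_mod_cast hn
  rcases Nat.eq_or_lt_of_le hn with rfl | hn2
  · have h1 : topPart 1 = 1 := by
      have := TD_mul 1
      exact Nat.eq_one_of_mul_eq_one_right this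
    have h2 : restPart 1 = 1 := by
      have := TD_mul 1
      exact Nat.eq_one_of_mul_eq_one_left this
    simp [T, h1, h2]
  have hq := TD_gpf_mem n hn2
  have hqp := Nat.prime_of_mem_primeFactors hq
  have hlq : 0 < Real.log (gpf n) := Real.log_pos (by exact_mod_cast hqp.one_lt)
  rcases le_total (1 - δ) (1 / Real.log (gpf n)) with h | h
  · rw [T, min_eq_left h, TD_rpow_mul]
    exact TD_exp _ _ hn0
  · rw [T, min_eq_right h]
    have htop : (0 : ℝ) < topPart n := by exact_mod_cast TD_top_pos n hn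
    have hrest : (1 : ℝ) ≤ restPart n := by exact_mod_cast TD_rest_pos n hn
    have hlr : 0 ≤ Real.log (restPart n) := Real.log_nonneg hrest
    have h1 := TD_exp (topPart n) (1 - δ) htop
    have h2 := TD_exp (restPart n) (1 / Real.log (gpf n)) (by linarith)
    have ha : 1 ≤ n.factorization (gpf n) :=
      hqp.factorization_pos_of_dvd (by omega) (Nat.dvd_of_mem_primeFactors hq)
    have hlt : Real.log (topPart n) = n.factorization (gpf n) * Real.log (gpf n) := by
      rw [topPart, Nat.cast_pow, Real.log_pow]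
    have hln : Real.log n = Real.log (topPart n) + Real.log (restPart n) := by
      rw [← Real.log_mul htop.ne' (by linarith), ← Nat.cast_mul, TD_mul]
    have ha' : (1 : ℝ) ≤ n.factorization (gpf n) := by exact_mod_cast ha
    have h3 : Real.log (gpf n) ≤ Real.log (topPart n) := by
      rw [hlt]
      nlinarith
    have h4 : 0 ≤ 1 + (1 - δ) * Real.log (topPart n) := by
      have : 0 ≤ (1 - δ) * Real.log (topPart n) := mul_nonneg (by linarith) (by linarith)
      linarith
    have h5 : 0 ≤ 1 + 1 / Real.log (gpf n) * Real.log (restPart n) := by positivity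
    calc 1 + (1 - δ) * Real.log n
        ≤ (1 + (1 - δ) * Real.log (topPart n)) *
          (1 + 1 / Real.log (gpf n) * Real.log (restPart n)) := by
          rw [hln]
          have h6 : (1 - δ) * Real.log (restPart n) ≤
              (1 - δ) * Real.log (topPart n) * (1 / Real.log (gpf n) * Real.log (restPart n)) := by
            have h7 : (1 - δ) * Real.log (topPart n) *
                (1 / Real.log (gpf n) * Real.log (restPart n)) =
                (1 - δ) * Real.log (restPart n) * (Real.log (topPart n) / Real.log (gpf n)) := by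
              ring
            rw [h7]
            have h8 : 1 ≤ Real.log (topPart n) / Real.log (gpf n) := by
              rw [le_div_iff₀ hlq]
              linarith
            have h9 : 0 ≤ (1 - δ) * Real.log (restPart n) := mul_nonneg (by linarith) hlr
            nlinarith
          have h10 : 0 ≤ 1 / Real.log (gpf n) * Real.log (restPart n) := by positivity
          nlinarith
      _ ≤ _ := mul_le_mul h1 h2 h5 (Real.rpow_nonneg htop.le _)

private theorem TD_gpf_two (m : ℕ) (hm : 2 ≤ m) : gpf (2 * m) = gpf m := by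
  have h1 := Nat.prime_of_mem_primeFactors (TD_gpf_mem m hm)
  have h2 : (2 * m).primeFactors = {2} ∪ m.primeFactors := by
    rw [Nat.primeFactors_mul two_ne_zero (by omega), Nat.prime_two.primeFactors]
  have h3 : gpf (2 * m) = 2 ⊔ gpf m := by
    unfold gpf
    rw [h2, Finset.sup_union, Finset.sup_singleton]
    rfl
  rw [h3]
  exact sup_eq_right.2 h1.two_le

private theorem TD_two_rpow (x e : ℝ) (hx : 0 ≤ x) (he : e ≤ 1) : (2 * x) ^ e ≤ 2 * x ^ e := by
  rw [Real.mul_rpow zero_le_two hx]
  refine mul_le_mul_of_nonneg_right ?_ (Real.rpow_nonneg hx _)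
  calc (2 : ℝ) ^ e ≤ (2 : ℝ) ^ (1 : ℝ) := Real.rpow_le_rpow_of_exponent_le one_le_two he
    _ = 2 := Real.rpow_one 2

theorem T_two (C δ : ℝ) (hC : 0 ≤ C) (hδ : 0 < δ) (hδ1 : δ < 1) (m : ℕ) (hm : 2 ≤ m) :
    T C δ (2 * m) ≤ 2 * T C δ m := by
  have hg := TD_gpf_two m hm
  have hq := Nat.prime_of_mem_primeFactors (TD_gpf_mem m hm)
  have hm0 : m ≠ 0 := by omega
  have hf : (2 * m).factorization (gpf m) =
      (2 : ℕ).factorization (gpf m) + m.factorization (gpf m) := by
    rw [Nat.factorization_mul two_ne_zero hm0]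
    rfl
  have htop0 : (0 : ℝ) ≤ topPart m := Nat.cast_nonneg _
  have hrest0 : (0 : ℝ) ≤ restPart m := Nat.cast_nonneg _
  by_cases h2 : gpf m = 2
  · have h3 : topPart (2 * m) = 2 * topPart m := by
      unfold topPart
      rw [hg, hf, h2, Nat.Prime.factorization_self Nat.prime_two, pow_add, pow_one]
    have h4 : restPart (2 * m) = restPart m := by
      have h5 := TD_mul (2 * m)
      rw [h3] at h5
      have h6 := TD_mul m
      have h7 : 0 < 2 * topPart m := by
        have := TD_top_pos m (by omega)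
        omega
      apply Nat.eq_of_mul_eq_mul_left h7
      rw [h5]
      conv_lhs => rw [← h6]
      ring
    unfold T
    rw [h3, h4, hg, Nat.cast_mul, Nat.cast_ofNat, ← mul_assoc]
    exact mul_le_mul_of_nonneg_right (TD_two_rpow _ _ htop0 (by linarith))
      (Real.rpow_nonneg hrest0 _)
  · have h3 : topPart (2 * m) = topPart m := by
      unfold topPart
      rw [hg, hf, Nat.factorization_eq_zero_of_not_dvd, zero_add]
      intro hd
      exact h2 ((Nat.prime_dvd_prime_iff_eq hq Nat.prime_two).1 hd)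
    have h4 : restPart (2 * m) = 2 * restPart m := by
      have h5 := TD_mul (2 * m)
      rw [h3] at h5
      have h6 := TD_mul m
      apply Nat.eq_of_mul_eq_mul_left (TD_top_pos m (by omega))
      rw [h5]
      conv_lhs => rw [← h6]
      ring
    unfold T
    rw [h3, h4, hg, Nat.cast_mul, Nat.cast_ofNat]
    have h5 := TD_two_rpow (restPart m) (min (1 - δ) (C / Real.log (gpf m))) hrest0
      ((min_le_left _ _).trans (by linarith))
    calc _ ≤ (topPart m : ℝ) ^ (1 - δ) *
          (2 * (restPart m : ℝ) ^ (min (1 - δ) (C / Real.log (gpf m)))) :=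
          mul_le_mul_of_nonneg_left h5 (Real.rpow_nonneg htop0 _)
      _ = _ := by ring

theorem T_four (C δ : ℝ) (hC : 0 ≤ C) (hδ : 0 < δ) (hδ1 : δ < 1) (m : ℕ) (hm : 2 ≤ m) :
    T C δ (4 * m) ≤ 4 * T C δ m := by
  have h1 := T_two C δ hC hδ hδ1 m hm
  have h2 := T_two C δ hC hδ hδ1 (2 * m) (by omega)
  have h3 : 2 * (2 * m) = 4 * m := by ring
  rw [h3] at h2
  linarith

end Pool.Agent.H56.CV
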