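import Pool.Agent.Helper56.CV.ML2
import Pool.Agent.Helper56.CV.EU
import Pool.Agent.Helper56.CV.ME
import Pool.Agent.Helper56.CV.TD

/-!
Project CV (MP_2e7a1b_nt), piece HM: the moment sums over the large primes are small.
-/

namespace Pool.Agent.H56.CV

open Finset

private lemma HM_tail (B τ : ℝ) (hB : 0 ≤ B) (hτ : 0 < τ) (ε : ℝ) (hε : 0 < ε) :
    ∃ Q0 : ℕ, ∀ s : Finset ℕ, (∀ q ∈ s, Q0 < q) →
      ∑ q ∈ s, B * (q : ℝ) ^ (-(1 + τ)) ≤ ε := by
  have hsum : Summable (fun q : ℕ => B * (q : ℝ) ^ (-(1 + τ))) :=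
    (Real.summable_nat_rpow.2 (by linarith)).mul_left B
  obtain ⟨s, hs⟩ := summable_iff_vanishing_norm.1 hsum ε hε
  refine ⟨s.sup id, fun t ht => ?_⟩
  have hd : Disjoint t s := by
    rw [Finset.disjoint_left]
    intro q hqt hqs
    have h1 : q ≤ s.sup id := Finset.le_sup (f := id) hqs
    have h2 := ht q hqt
    omega
  exact (le_abs_self _).trans (hs t hd).le

theorem high_small (G C δ : ℝ) (hG : 0 ≤ G) (hC : 0 ≤ C) (hδ : 0 < δ) (hδ1 : δ < 1) (h : ℕ)
    (hh : 1 ≤ h) (hhδ : 1 < h * δ) (ε : ℝ) (hε : 0 < ε) :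
    ∃ Q0 : ℕ, ∀ K Y : ℕ, ∑ q ∈ Y.primesBelow.filter (fun q => Q0 < q),
      4 ^ h * mom h q K Y (fun n => G * T C δ n) ≤ ε := by
  have hh0 : (0 : ℝ) < h := by exact_mod_cast hh
  obtain ⟨C', hC', hEu⟩ := euler_bound h (Real.exp (h * C)) (Real.one_le_exp (by positivity))
  set τ : ℝ := (h * δ - 1) / 2 with hτ
  have hτ0 : 0 < τ := by rw [hτ]; linarith
  obtain ⟨A, hA, hMe⟩ := mertens_small (τ / (C' + 1)) (by positivity)
  have h2δ : (2 : ℝ) ^ (-δ) < 1 := by
    apply Real.rpow_lt_one_of_one_lt_of_neg (by norm_num) (by linarith)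
  set c : ℝ := (1 - (2 : ℝ) ^ (-δ))⁻¹ with hc
  have hc0 : 0 < c := by rw [hc]; apply inv_pos.2; linarith
  set B : ℝ := 4 ^ h * ((G * c) ^ h * Real.exp (C' * A)) with hB
  obtain ⟨Q1, hQ1⟩ := HM_tail B τ (by positivity) hτ0 ε hε
  refine ⟨max Q1 ⌈Real.exp (4 * h * C)⌉₊, fun K Y => ?_⟩
  refine le_trans ?_ (hQ1 (Y.primesBelow.filter (fun q => max Q1 ⌈Real.exp (4 * h * C)⌉₊ < q))
    (fun q hq => lt_of_le_of_lt (le_max_left _ _) (Finset.mem_filter.1 hq).2))
  apply Finset.sum_le_sum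
  intro q hq
  rw [Finset.mem_filter] at hq
  have hqp := Nat.prime_of_mem_primesBelow hq.1
  have hq1 : (1 : ℝ) < q := by exact_mod_cast hqp.one_lt
  have hq0 : (0 : ℝ) < q := by linarith
  set x : ℝ := Real.log q with hx
  have hx0 : 0 < x := Real.log_pos hq1
  have hx4 : 4 * h * C ≤ x := by
    have h1 : Real.exp (4 * h * C) ≤ q := by
      have h2 := Nat.le_ceil (Real.exp (4 * h * C))
      have h3 : (⌈Real.exp (4 * h * C)⌉₊ : ℝ) ≤ q := by
        exact_mod_cast (lt_of_le_of_lt (le_max_right _ _) hq.2).le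
      linarith
    rw [hx, Real.le_log_iff_exp_le hq0]
    exact h1
  set θ : ℝ := C / x with hθ
  have hθ0 : 0 ≤ θ := by positivity
  have hhθ : h * θ ≤ 1 / 4 := by
    rw [hθ, mul_div_assoc', div_le_div_iff₀ hx0 (by norm_num)]
    linarith
  have hTn : ∀ n, 0 ≤ G * T C δ n := fun n => mul_nonneg hG (T_nonneg C δ n)
  have hfG : ∀ n, K ≤ n → gpf n = q → G * T C δ n ≤
      G * ((ordProj[q] n : ℕ) : ℝ) ^ (1 - δ) * ((ordCompl[q] n : ℕ) : ℝ) ^ θ := by
    intro n _ hn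
    have hn0 : n ≠ 0 := by
      rintro rfl
      have : gpf 0 = 0 := by simp [gpf]
      rw [this] at hn
      exact hqp.ne_zero hn.symm
    unfold T topPart restPart
    rw [hn, ← hx, ← hθ, mul_assoc]
    apply mul_le_mul_of_nonneg_left _ hG
    apply mul_le_mul_of_nonneg_left _ (by positivity)
    apply Real.rpow_le_rpow_of_exponent_le _ (min_le_right _ _)
    exact_mod_cast Nat.ordCompl_pos q hn0
  have hm := mom_le2 h q K Y hqp _ hTn G δ θ hG hδ hθ0 hfG
  have hqt : (q : ℝ) ^ (h * θ) ≤ Real.exp (h * C) := by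
    rw [Real.rpow_def_of_pos hq0]
    apply Real.exp_le_exp.2
    rw [← hx, hθ]
    apply le_of_eq
    field_simp
  have hEu' := hEu q (h * θ) ((Finset.range (Y ^ h + 1)).filter (fun L => L ∈ Nat.smoothNumbers q))
    (by positivity) hhθ hqt (fun L hL => (Finset.mem_filter.1 hL).2)
  have hMe' := hMe q hqp.one_lt.le
  have hexp : Real.exp (C' * ∑ p ∈ q.primesBelow, (1 : ℝ) / p) ≤ Real.exp (τ * x + C' * A) := by
    apply Real.exp_le_exp.2
    refine (mul_le_mul_of_nonneg_left hMe' hC').trans ?_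
    rw [← hx]
    have h1 : C' * (τ / (C' + 1)) ≤ τ := by
      rw [mul_div_assoc', div_le_iff₀ (by positivity)]
      nlinarith
    have h2 := mul_le_mul_of_nonneg_right h1 hx0.le
    calc C' * (τ / (C' + 1) * x + A) = C' * (τ / (C' + 1)) * x + C' * A := by ring
      _ ≤ τ * x + C' * A := by linarith
  have hfin : mom h q K Y (fun n => G * T C δ n) ≤
      ((G * c) ^ h * Real.exp (C' * A)) * (q : ℝ) ^ (-(1 + τ)) := by
    calc mom h q K Y (fun n => G * T C δ n) ≤ _ := hm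
      _ ≤ (G * c * (q : ℝ) ^ (-δ)) ^ h * Real.exp (τ * x + C' * A) :=
          mul_le_mul_of_nonneg_left (hEu'.trans hexp) (by positivity)
      _ = ((G * c) ^ h * Real.exp (C' * A)) *
            (Real.exp (h * (x * -δ)) * Real.exp (τ * x)) := by
          rw [mul_pow, Real.rpow_def_of_pos hq0, ← Real.exp_nat_mul, Real.exp_add, ← hx]
          ring
      _ = ((G * c) ^ h * Real.exp (C' * A)) * (q : ℝ) ^ (-(1 + τ)) := by
          rw [← Real.exp_add, Real.rpow_def_of_pos hq0, ← hx]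
          congr 2
          rw [hτ]; ring
  calc 4 ^ h * mom h q K Y (fun n => G * T C δ n) ≤ 4 ^ h * _ :=
        mul_le_mul_of_nonneg_left hfin (by positivity)
    _ = _ := by rw [hB]; ring

end Pool.Agent.H56.CV
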