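import Pool.Agent.Helper56.CV.Core2
import Pool.Agent.Helper56.CV.HM
import Pool.Agent.Helper56.CV.FM
import Pool.Agent.Helper56.CV.TD
import Pool.Agent.Helper56.CV.EC
import Pool.Agent.Helper56.CV.PF

/-!
Project CV (MP_2e7a1b_nt): the deterministic theorem, second version.
-/

namespace Pool.Agent.H56.CV

open Finset

lemma high_mono (h Q Q' K Y : ℕ) (hQ : Q ≤ Q') (f : ℕ → ℝ) (hf : ∀ n, 0 ≤ f n) :
    ∑ q ∈ Y.primesBelow.filter (fun q => Q' < q), 4 ^ h * mom h q K Y f ≤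
      ∑ q ∈ Y.primesBelow.filter (fun q => Q < q), 4 ^ h * mom h q K Y f := by
  apply Finset.sum_le_sum_of_subset_of_nonneg
  · intro q hq
    rw [Finset.mem_filter] at hq ⊢
    exact ⟨hq.1, lt_of_le_of_lt hQ hq.2⟩
  · intro q _ _
    exact mul_nonneg (by positivity) (mom_nonneg h q K Y f hf)

/-- The total sum for a multiple of the threshold is small. -/
theorem tot_small (G C δ : ℝ) (hG : 0 ≤ G) (hC : 0 ≤ C) (hδ : 0 < δ) (hδ1 : δ < 1) (h : ℕ)
    (hh : 1 ≤ h) (hhδ : 1 < h * δ) (ε : ℝ) (hε : 0 < ε) :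
    ∃ Q0 : ℕ, ∀ Q : ℕ, Q0 ≤ Q → ∃ K0 : ℕ, ∀ K : ℕ, K0 ≤ K → ∀ Y : ℕ,
      tot h Q K Y (fun n => G * T C δ n) ≤ ε := by
  obtain ⟨Q0, hQ0⟩ := high_small G C δ hG hC hδ hδ1 h hh hhδ (ε / 2) (by positivity)
  refine ⟨Q0, fun Q hQ => ?_⟩
  obtain ⟨K0, hK0⟩ := first_small G C δ hG hC hδ hδ1 Q (ε / 2) (by positivity)
  refine ⟨K0, fun K hK Y => ?_⟩
  unfold tot
  have h1 := hK0 K hK Y
  have h2 := hQ0 K Y
  have h3 := high_mono h Q0 Q K Y hQ (fun n => G * T C δ n)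
    (fun n => mul_nonneg hG (T_nonneg C δ n))
  linarith

lemma low_card_le2 (C δ : ℝ) (P s : Finset ℕ)
    (hs : ∀ p ∈ s, p ∈ P ∧ (mult P (ord2 p) : ℝ) ≤ T C δ (ord2 p)) (n : ℕ) :
    ((s.filter (fun p => ord2 p = n)).card : ℝ) ≤ T C δ n := by
  by_cases h0 : (s.filter (fun p => ord2 p = n)) = ∅
  · rw [h0]; simpa using T_nonneg C δ n
  · obtain ⟨p, hp⟩ := Finset.nonempty_iff_ne_empty.2 h0
    rw [Finset.mem_filter] at hp
    have h1 := (hs p hp.1).2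
    rw [hp.2] at h1
    refine le_trans ?_ h1
    unfold mult
    exact_mod_cast Finset.card_le_card (fun x hx => by
      rw [Finset.mem_filter] at hx ⊢
      exact ⟨(hs x hx.1).1, hx.2⟩)

lemma low_md_le (C δ : ℝ) (hC : 0 ≤ C) (hδ : 0 < δ) (hδ1 : δ < 1) (s : Finset ℕ)
    (hs : ∀ n : ℕ, ((s.filter (fun p => ord2 p = n)).card : ℝ) ≤ T C δ n) (m : ℕ) (hm : 2 ≤ m) :
    ((s.filter (fun p => md (ord2 p) = m)).card : ℝ) ≤ 7 * T C δ m := by
  have h1 := card_md_le s m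
  have h2 : ((s.filter (fun p => md (ord2 p) = m)).card : ℝ) ≤
      (s.filter (fun p => ord2 p = m)).card + (s.filter (fun p => ord2 p = 2 * m)).card +
      (s.filter (fun p => ord2 p = 4 * m)).card := by exact_mod_cast h1
  have h3 := T_two C δ hC hδ hδ1 m hm
  have h4 := T_four C δ hC hδ hδ1 m hm
  linarith [hs m, hs (2 * m), hs (4 * m)]

lemma exists_moment (δ : ℝ) (hδ : 0 < δ) : ∃ h : ℕ, 1 ≤ h ∧ 1 < h * δ := by
  refine ⟨⌊1 / δ⌋₊ + 1, by omega, ?_⟩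
  have h1 := Nat.lt_floor_add_one (1 / δ)
  rw [div_lt_iff₀ hδ] at h1
  push_cast
  exact h1

open Classical in
theorem deterministic2 (C δ η : ℝ) (hC : 0 ≤ C) (hδ : 0 < δ) (hδ1 : δ < 1) (hη : η < 1 / 4)
    (N : ℕ) :
    ∃ a M : ℕ, 0 < M ∧ ∀ t : ℕ, t ≡ a [MOD M] →
      Odd t ∧ (∀ k : ℕ, 1 ≤ k → ¬ (t ^ 4 * 2 ^ k + 1).Prime) ∧
      ∀ P : Finset ℕ, IsCover (t ^ 4) P →
        η ≤ ∑ p ∈ P.filter (fun p => N ≤ ord2 p ∧ T C δ (ord2 p) < (mult P (ord2 p) : ℝ)),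
          (2 : ℝ) ^ (ord2 p).primeFactors.card / (ord2 p : ℝ) := by
  obtain ⟨h, hh1, hhδ⟩ := exists_moment δ hδ
  obtain ⟨Q, hQ⟩ := tot_small 7 C δ (by norm_num) hC hδ hδ1 h hh1 hhδ (1 - 4 * η) (by linarith)
  obtain ⟨K0, hK0⟩ := hQ Q le_rfl
  obtain ⟨K, hKK0, hKN, hK17⟩ : ∃ K : ℕ, K0 ≤ K ∧ N ≤ K ∧ 17 ≤ K :=
    ⟨max K0 (max N 17), by omega, by omega, by omega⟩
  obtain ⟨a, M, hM, -, hcl⟩ := exists_class (4 * K) (by omega)
  refine ⟨a, M, hM, fun t ht => ?_⟩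
  obtain ⟨hres, hno⟩ := hcl t ht
  clear hcl
  refine ⟨Nat.odd_iff.2 hres.1, fun k hk => prime_free t hres k hk, fun P hP => ?_⟩
  clear hres
  set s := P.filter (fun p => Kills t p ∧ (mult P (ord2 p) : ℝ) ≤ T C δ (ord2 p)) with hs
  set u := P.filter (fun p => Kills t p ∧ T C δ (ord2 p) < (mult P (ord2 p) : ℝ)) with hu
  have hc := core2 t P hP K 1 h Q (s.sup (fun p => ord2 p) + 1) (by omega) le_rfl hh1 hno ∅ s u
    (fun p hp hk => by
      rcases le_or_gt (mult P (ord2 p) : ℝ) (T C δ (ord2 p)) with h1 | h1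
      · exact Finset.mem_union_left _ (by simp [hs, hp, hk, h1])
      · exact Finset.mem_union_right _ (by simp [hu, hp, hk, h1]))
    (fun p hp => absurd hp (Finset.notMem_empty p))
    (fun p hp => by
      rw [hs, Finset.mem_filter] at hp
      exact ⟨hP.1 p hp.1, hp.2.1⟩)
    (fun p hp => by
      rw [hu, Finset.mem_filter] at hp
      exact ⟨hP.1 p hp.1, hp.2.1⟩)
    (fun p hp => by
      rw [Finset.empty_union] at hp
      exact Nat.lt_succ_of_le (Finset.le_sup (f := fun p => ord2 p) hp))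
  have hlow : ∀ n, ((s.filter (fun p => ord2 p = n)).card : ℝ) ≤ T C δ n :=
    low_card_le2 C δ P s (fun p hp => by
      rw [hs, Finset.mem_filter] at hp
      exact ⟨hp.1, hp.2.2⟩)
  have hmono : tot h Q K (s.sup (fun p => ord2 p) + 1)
      (fun m => ((s.filter (fun p => md (ord2 p) = m)).card : ℝ)) ≤
      tot h Q K (s.sup (fun p => ord2 p) + 1) (fun n => 7 * T C δ n) := by
    apply tot_mono
    · intro n; positivity
    · intro m hm _
      exact low_md_le C δ hC hδ hδ1 s hlow m (by omega)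
  have hsm := hK0 K hKK0 (s.sup (fun p => ord2 p) + 1)
  have hzero : tot 1 Q K (s.sup (fun p => ord2 p) + 1)
      (fun m => (((∅ : Finset ℕ).filter (fun p => md (ord2 p) = m)).card : ℝ)) = 0 := by
    unfold tot
    rw [Finset.sum_eq_zero (fun n _ => by simp), Finset.sum_eq_zero (fun q _ => by
      rw [mom_zero 1 q K _ le_rfl _ (fun n _ _ _ => by simp), mul_zero]), add_zero]
  rw [← Finset.mul_sum] at hc
  have hmass : ∑ p ∈ u, wt (ord2 p) ≤
      ∑ p ∈ P.filter (fun p => N ≤ ord2 p ∧ T C δ (ord2 p) < (mult P (ord2 p) : ℝ)),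
          (2 : ℝ) ^ (ord2 p).primeFactors.card / (ord2 p : ℝ) := by
    unfold wt
    apply Finset.sum_le_sum_of_subset_of_nonneg
    · intro p hp
      rw [hu, Finset.mem_filter] at hp
      rw [Finset.mem_filter]
      refine ⟨hp.1, ?_, hp.2.2⟩
      by_contra hlt
      exact hno p (hP.1 p hp.1) (by omega) hp.2.1
    · intros; positivity
  linarith

end Pool.Agent.H56.CV
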