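import Pool.Agent.Helper56.CV.G1
import Pool.Agent.Helper56.CV.F2
import Pool.Agent.Helper56.CV.DI2
import Pool.Agent.Helper56.CV.Choice2

/-!
Project CV (MP_2e7a1b_nt): the density theorem, second version.
-/

namespace Pool.Agent.H56.CV

open Finset

open Classical in
/-- The mass of the primes `p > W` of `P` whose order is at least `N` and of high multiplicity
among the primes `> W` of `P`. -/
noncomputable def hiMass2 (C δ W N : ℝ) (P : Finset ℕ) : ℝ :=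
  ∑ p ∈ P.filter (fun p : ℕ => W < (p : ℝ) ∧ N ≤ (ord2 p : ℝ) ∧
      T C δ (ord2 p) < (mult (P.filter (fun p' : ℕ => W < (p' : ℝ))) (ord2 p) : ℝ)),
    (2 : ℝ) ^ (ord2 p).primeFactors.card / (ord2 p : ℝ)

/-- the random multiplicity function -/
noncomputable def kR (Z t m : ℕ) : ℝ :=
  (sT Z t m : ℝ) + (sT Z t (2 * m) : ℝ) + (sT Z t (4 * m) : ℝ)

lemma kR_nonneg (Z t m : ℕ) : 0 ≤ kR Z t m := by unfold kR; positivity

lemma kR_moment (i K M a X Z m : ℕ) (hi : i = 1 ∨ i = 2) (hM : 0 < M)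
    (hMK : ∀ p : ℕ, p.Prime → p ∣ M → ord2 p < 4 * K)
    (hno : ∀ t : ℕ, t ≡ a [MOD M] → ∀ p : ℕ, p.Prime → ord2 p < 4 * K → ¬ Kills t p)
    (hm1 : 1 ≤ m) (hZ : 1 ≤ Z) (hX : M * Z ^ 2 ≤ X) :
    ∑ t ∈ (Finset.range X).filter (fun t => t ≡ a [MOD M]), (kR Z t m) ^ i ≤
      (2 * X / M) * (768 * T 1 (3 / 4) m) ^ i := by
  have hi1 : 1 ≤ i := by rcases hi with h | h <;> omega
  have hX' : M * Z ^ i ≤ X := by
    refine le_trans (Nat.mul_le_mul_left M (Nat.pow_le_pow_right hZ ?_)) hX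
    rcases hi with h | h <;> omega
  have hm0 : (0 : ℝ) < m := by exact_mod_cast hm1
  have hlog : ∀ j : ℕ, 1 ≤ j → j ≤ 4 →
      ∑ t ∈ (Finset.range X).filter (fun t => t ≡ a [MOD M]), ((sT Z t (j * m) : ℝ)) ^ i ≤
      (2 * X / M) * ((i : ℝ) ^ i * (1 + (4 * (1 + Real.log (4 * m))) ^ i)) := by
    intro j hj1 hj4
    have hj0 : (0 : ℝ) < j := by exact_mod_cast hj1
    refine (moment_all i (4 * K) M a X Z (j * m) hi1 hM hMK hno
      (Nat.mul_pos hj1 hm1) hX').trans ?_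
    apply mul_le_mul_of_nonneg_left _ (by positivity)
    apply mul_le_mul_of_nonneg_left _ (by positivity)
    have h1 : Real.log ((j * m : ℕ) : ℝ) ≤ Real.log (4 * m) := by
      apply Real.log_le_log
      · push_cast; positivity
      · push_cast
        have : (j : ℝ) ≤ 4 := by exact_mod_cast hj4
        nlinarith
    have h0 : 0 ≤ Real.log ((j * m : ℕ) : ℝ) := Real.log_natCast_nonneg _
    have := pow_le_pow_left₀ (show 0 ≤ 4 * (1 + Real.log ((j * m : ℕ) : ℝ)) by positivity)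
      (show 4 * (1 + Real.log ((j * m : ℕ) : ℝ)) ≤ 4 * (1 + Real.log (4 * m)) by linarith) i
    linarith
  have h1 := hlog 1 (by norm_num) (by norm_num)
  have h2 := hlog 2 (by norm_num) (by norm_num)
  have h4 := hlog 4 (by norm_num) (by norm_num)
  rw [one_mul] at h1
  have hT := T_log (3 / 4) (by norm_num) (by norm_num) m hm1
  set T1 : ℝ := T 1 (3 / 4) m with hT1
  have hlogm : 0 ≤ Real.log m := Real.log_natCast_nonneg m
  have hT1' : 1 ≤ T1 := by
    have : (1 - 3 / 4 : ℝ) * Real.log m = 1 / 4 * Real.log m := by ring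
    linarith [this, mul_nonneg (by norm_num : (0 : ℝ) ≤ 1 / 4) hlogm]
  have hl4 : Real.log 4 ≤ 2 := by
    have h3 : Real.log 4 = 2 * Real.log 2 := by
      rw [show (4 : ℝ) = 2 ^ 2 by norm_num, Real.log_pow]; norm_num
    have h4 := Real.log_two_lt_d9
    linarith
  have hl4m : 4 * (1 + Real.log (4 * m)) ≤ 16 * T1 := by
    rw [Real.log_mul (by norm_num) hm0.ne']
    have : (1 - 3 / 4 : ℝ) * Real.log m = 1 / 4 * Real.log m := by ring
    linarith
  have hl0 : 0 ≤ 4 * (1 + Real.log (4 * m)) := by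
    have : 0 ≤ Real.log (4 * m) := by
      rw [Real.log_mul (by norm_num) hm0.ne']
      have : 0 ≤ Real.log 4 := Real.log_nonneg (by norm_num)
      linarith
    positivity
  have hi0 : (0 : ℝ) ^ i = 0 := zero_pow (by omega)
  have hfin : (4 : ℝ) ^ i * (3 * ((i : ℝ) ^ i * (1 + (4 * (1 + Real.log (4 * m))) ^ i))) ≤
      (768 * T1) ^ i := by
    have h5 : (4 * (1 + Real.log (4 * m))) ^ i ≤ (16 * T1) ^ i := pow_le_pow_left₀ hl0 hl4m i
    rcases hi with h | h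
    · subst h
      simp only [pow_one, Nat.cast_one] at h5 ⊢
      linarith
    · subst h
      have h6 : (4 : ℝ) ^ 2 * (3 * (((2 : ℕ) : ℝ) ^ 2 *
          (1 + (4 * (1 + Real.log (4 * m))) ^ 2))) ≤
          (4 : ℝ) ^ 2 * (3 * (((2 : ℕ) : ℝ) ^ 2 * (1 + (16 * T1) ^ 2))) := by gcongr
      refine h6.trans ?_
      push_cast
      nlinarith
  calc ∑ t ∈ (Finset.range X).filter (fun t => t ≡ a [MOD M]), (kR Z t m) ^ i
      ≤ ∑ t ∈ (Finset.range X).filter (fun t => t ≡ a [MOD M]),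
        4 ^ i * ((sT Z t m : ℝ) ^ i + (sT Z t (2 * m) : ℝ) ^ i + (sT Z t (4 * m) : ℝ) ^ i) := by
        apply Finset.sum_le_sum
        intro t _
        have := four_pow (sT Z t m : ℝ) (sT Z t (2 * m) : ℝ) (sT Z t (4 * m) : ℝ) 0
          (by positivity) (by positivity) (by positivity) le_rfl i
        rw [hi0, add_zero, add_zero] at this
        exact this
    _ = 4 ^ i * (∑ t ∈ (Finset.range X).filter (fun t => t ≡ a [MOD M]), (sT Z t m : ℝ) ^ i +
          ∑ t ∈ (Finset.range X).filter (fun t => t ≡ a [MOD M]), (sT Z t (2 * m) : ℝ) ^ i +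
          ∑ t ∈ (Finset.range X).filter (fun t => t ≡ a [MOD M]), (sT Z t (4 * m) : ℝ) ^ i) := by
        rw [← Finset.mul_sum, Finset.sum_add_distrib, Finset.sum_add_distrib]
    _ ≤ 4 ^ i * ((2 * X / M) * ((i : ℝ) ^ i * (1 + (4 * (1 + Real.log (4 * m))) ^ i)) +
          (2 * X / M) * ((i : ℝ) ^ i * (1 + (4 * (1 + Real.log (4 * m))) ^ i)) +
          (2 * X / M) * ((i : ℝ) ^ i * (1 + (4 * (1 + Real.log (4 * m))) ^ i))) := by
        apply mul_le_mul_of_nonneg_left _ (by positivity)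
        linarith
    _ = (2 * X / M) * ((4 : ℝ) ^ i *
          (3 * ((i : ℝ) ^ i * (1 + (4 * (1 + Real.log (4 * m))) ^ i)))) := by ring
    _ ≤ (2 * X / M) * (768 * T1) ^ i := mul_le_mul_of_nonneg_left hfin (by positivity)

/-- The average of the total sums of the random parts. -/
lemma tot_avg (Q K Y M a X Z : ℕ) (hK : 1 ≤ K) (hM : 0 < M)
    (hMK : ∀ p : ℕ, p.Prime → p ∣ M → ord2 p < 4 * K)
    (hno : ∀ t : ℕ, t ≡ a [MOD M] → ∀ p : ℕ, p.Prime → ord2 p < 4 * K → ¬ Kills t p)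
    (hZ : 1 ≤ Z) (hX : M * Z ^ 2 ≤ X) :
    ∑ t ∈ (Finset.range X).filter (fun t => t ≡ a [MOD M]), tot 2 Q K Y (kR Z t) ≤
      (2 * X / M) * tot 2 Q K Y (fun n => 768 * T 1 (3 / 4) n) := by
  unfold tot
  rw [Finset.sum_add_distrib, mul_add]
  apply add_le_add
  · rw [Finset.sum_comm, Finset.mul_sum]
    apply Finset.sum_le_sum
    intro n hn
    rw [Finset.mem_filter, Finset.mem_Ico] at hn
    have h1 := kR_moment 1 K M a X Z n (Or.inl rfl) hM hMK hno (by omega) hZ hX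
    simp only [pow_one] at h1
    rw [← Finset.sum_mul, ← mul_assoc]
    exact mul_le_mul_of_nonneg_right h1 (wt_nonneg n)
  · rw [Finset.sum_comm, Finset.mul_sum]
    apply Finset.sum_le_sum
    intro q _
    rw [← Finset.mul_sum, mul_left_comm]
    apply mul_le_mul_of_nonneg_left _ (by positivity)
    refine avg_mom 2 q K Y (by norm_num) _ (fun t m => kR Z t m) (fun t m => kR_nonneg Z t m)
      _ _ ?_ ?_
    · intro n hn _
      have := T_pos 1 (3 / 4) n (by omega)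
      positivity
    · intro n hn _
      exact kR_moment 2 K M a X Z n (Or.inr rfl) hM hMK hno (by omega) hZ hX

open Classical in
/-- mass of the large killers of small order -/
noncomputable def bigMass (K N Z t : ℕ) : ℝ :=
  ∑ n ∈ Finset.Ico K N, wt n * (((PO n).filter (fun p => Z < p ∧ Kills t p)).card : ℝ)

lemma bigMass_nonneg (K N Z t : ℕ) : 0 ≤ bigMass K N Z t := by
  unfold bigMass
  exact Finset.sum_nonneg fun n _ => mul_nonneg (wt_nonneg n) (by positivity)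

lemma one_t2 (C δ c η : ℝ) (hC : 0 ≤ C) (hδ : 0 < δ) (hδ1 : δ < 1) (h Q K N Y Z X t : ℕ)
    (hK : 2 ≤ K) (hh : 1 ≤ h)
    (hno : ∀ p : ℕ, p.Prime → ord2 p < 4 * K → ¬ Kills t p)
    (hW : (X : ℝ) ^ (2 * c) ≤ Z) (hN : (X : ℝ) ^ c ≤ N)
    (P : Finset ℕ) (hP : IsCover (t ^ 4) P) (hY : ∀ p ∈ P, ord2 p < Y)
    (hhi : hiMass2 C δ ((X : ℝ) ^ (2 * c)) ((X : ℝ) ^ c) P < η)
    (hlow : tot h Q K Y (fun n => 7 * T C δ n) ≤ (1 - 4 * η) / 2) :
    (1 - 4 * η) / 2 ≤ tot 2 Q K Y (kR Z t) + 4 * bigMass (4 * K) N Z t := by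
  classical
  set W : ℝ := (X : ℝ) ^ (2 * c) with hWd
  set PW := P.filter (fun p' : ℕ => W < (p' : ℝ)) with hPW
  set s1 := P.filter (fun p => Kills t p ∧ p ≤ Z) with hs1
  set s2 := P.filter (fun p => Kills t p ∧ Z < p ∧ N ≤ ord2 p ∧
    (mult PW (ord2 p) : ℝ) ≤ T C δ (ord2 p)) with hs2
  set u1 := P.filter (fun p => Kills t p ∧ Z < p ∧ N ≤ ord2 p ∧
    T C δ (ord2 p) < (mult PW (ord2 p) : ℝ)) with hu1
  set u2 := P.filter (fun p => Kills t p ∧ Z < p ∧ ord2 p < N) with hu2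
  have hkill : ∀ p ∈ P, Kills t p → 4 * K ≤ ord2 p := by
    intro p hp hk
    by_contra hlt
    exact hno p (hP.1 p hp) (not_le.1 hlt) hk
  have hc := core2 t P hP K 2 h Q Y hK (by norm_num) hh hno s1 s2 (u1 ∪ u2)
    (fun p hp hk => by
      simp only [Finset.mem_union, hs1, hs2, hu1, hu2, Finset.mem_filter]
      rcases le_or_gt p Z with h0 | h0
      · exact Or.inl (Or.inl ⟨hp, hk, h0⟩)
      · rcases lt_or_ge (ord2 p) N with h3 | h3
        · exact Or.inr (Or.inr ⟨hp, hk, h0, h3⟩)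
        · rcases le_or_gt (mult PW (ord2 p) : ℝ) (T C δ (ord2 p)) with h1 | h1
          · exact Or.inl (Or.inr ⟨hp, hk, h0, h3, h1⟩)
          · exact Or.inr (Or.inl ⟨hp, hk, h0, h3, h1⟩))
    (fun p hp => by
      rw [hs1, Finset.mem_filter] at hp
      exact ⟨hP.1 p hp.1, hp.2.1⟩)
    (fun p hp => by
      rw [hs2, Finset.mem_filter] at hp
      exact ⟨hP.1 p hp.1, hp.2.1⟩)
    (fun p hp => by
      rw [Finset.mem_union, hu1, hu2, Finset.mem_filter, Finset.mem_filter] at hp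
      rcases hp with hp | hp
      · exact ⟨hP.1 p hp.1, hp.2.1⟩
      · exact ⟨hP.1 p hp.1, hp.2.1⟩)
    (fun p hp => by
      rw [Finset.mem_union, hs1, hs2, Finset.mem_filter, Finset.mem_filter] at hp
      rcases hp with hp | hp
      · exact hY p hp.1
      · exact hY p hp.1)
  have hc1 : ∀ n, 1 ≤ n → ((s1.filter (fun p => ord2 p = n)).card : ℝ) ≤ sT Z t n := by
    intro n hn
    have h1 : (s1.filter (fun p => ord2 p = n)).card ≤ sT Z t n := by
      unfold sT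
      apply Finset.card_le_card
      intro p hp
      rw [Finset.mem_filter, hs1, Finset.mem_filter] at hp
      rw [Finset.mem_filter, mem_PO n hn]
      exact ⟨⟨hP.1 p hp.1.1, hp.2⟩, hp.1.2.2, hp.1.2.1⟩
    exact_mod_cast h1
  have hc2 : ∀ n, ((s2.filter (fun p => ord2 p = n)).card : ℝ) ≤ T C δ n := by
    apply low_card_le2 C δ PW s2
    intro p hp
    rw [hs2, Finset.mem_filter] at hp
    refine ⟨?_, hp.2.2.2.2⟩
    rw [hPW, Finset.mem_filter]
    refine ⟨hp.1, lt_of_le_of_lt hW ?_⟩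
    exact_mod_cast hp.2.2.1
  have ht1 : tot 2 Q K Y (fun m => ((s1.filter (fun p => md (ord2 p) = m)).card : ℝ)) ≤
      tot 2 Q K Y (kR Z t) := by
    apply tot_mono
    · intro n; positivity
    · intro m hm _
      have h1 := card_md_le s1 m
      have h2 : ((s1.filter (fun p => md (ord2 p) = m)).card : ℝ) ≤
          (s1.filter (fun p => ord2 p = m)).card + (s1.filter (fun p => ord2 p = 2 * m)).card +
          (s1.filter (fun p => ord2 p = 4 * m)).card := by exact_mod_cast h1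
      unfold kR
      linarith [hc1 m (by omega), hc1 (2 * m) (by omega), hc1 (4 * m) (by omega)]
  have ht2 : tot h Q K Y (fun m => ((s2.filter (fun p => md (ord2 p) = m)).card : ℝ)) ≤
      tot h Q K Y (fun n => 7 * T C δ n) := by
    apply tot_mono
    · intro n; positivity
    · intro m hm _
      exact low_md_le C δ hC hδ hδ1 s2 hc2 m (by omega)
  rw [← Finset.mul_sum] at hc
  have hm1 : ∑ p ∈ u1, wt (ord2 p) ≤ hiMass2 C δ W ((X : ℝ) ^ c) P := by
    unfold hiMass2 wt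
    apply Finset.sum_le_sum_of_subset_of_nonneg
    · intro p hp
      rw [hu1, Finset.mem_filter] at hp
      rw [Finset.mem_filter]
      refine ⟨hp.1, lt_of_le_of_lt hW ?_, hN.trans ?_, ?_⟩
      · exact_mod_cast hp.2.2.1
      · exact_mod_cast hp.2.2.2.1
      · exact hp.2.2.2.2
    · intros; positivity
  have hm2 : ∑ p ∈ u2, wt (ord2 p) ≤ bigMass (4 * K) N Z t := by
    unfold bigMass
    rw [← Finset.sum_fiberwise_of_maps_to (s := u2) (t := Finset.Ico (4 * K) N)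
      (g := fun p => ord2 p)]
    · apply Finset.sum_le_sum
      intro n hn
      rw [Finset.mem_Ico] at hn
      rw [Finset.sum_congr rfl (g := fun _ => wt n) (fun p hp => by
        rw [(Finset.mem_filter.1 hp).2]), Finset.sum_const, nsmul_eq_mul, mul_comm]
      apply mul_le_mul_of_nonneg_left _ (wt_nonneg n)
      have : (u2.filter (fun p => ord2 p = n)).card ≤
          ((PO n).filter (fun p => Z < p ∧ Kills t p)).card := by
        apply Finset.card_le_card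
        intro p hp
        rw [Finset.mem_filter, hu2, Finset.mem_filter] at hp
        rw [Finset.mem_filter, mem_PO n (by omega)]
        exact ⟨⟨hP.1 p hp.1.1, hp.2⟩, hp.1.2.2.1, hp.1.2.1⟩
      exact_mod_cast this
    · intro p hp
      rw [hu2, Finset.mem_filter] at hp
      rw [Finset.mem_Ico]
      exact ⟨hkill p hp.1 hp.2.1, hp.2.2.2⟩
  have hm3 : ∑ p ∈ u1 ∪ u2, wt (ord2 p) ≤ ∑ p ∈ u1, wt (ord2 p) + ∑ p ∈ u2, wt (ord2 p) := by
    rw [← Finset.sum_union_inter]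
    have : 0 ≤ ∑ p ∈ u1 ∩ u2, wt (ord2 p) := Finset.sum_nonneg fun p _ => wt_nonneg _
    linarith
  linarith

open Classical in
theorem density2 (C δ c η : ℝ) (hC : 0 ≤ C) (hδ : 0 < δ) (hδ1 : δ < 1) (hc : 0 < c)
    (hc4 : c < 1 / 4) (hη : η < 1 / 4) (ε : ℝ) (hε : 0 < ε) :
    ∃ a M : ℕ, 0 < M ∧
      (∀ t : ℕ, t ≡ a [MOD M] → Odd t ∧ ∀ k : ℕ, 1 ≤ k → ¬ (t ^ 4 * 2 ^ k + 1).Prime) ∧
      ∃ X0 : ℕ, ∀ X : ℕ, X0 ≤ X →
        (((Finset.range X).filter (fun t => t ≡ a [MOD M] ∧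
          ∃ P : Finset ℕ, IsCover (t ^ 4) P ∧
            hiMass2 C δ ((X : ℝ) ^ (2 * c)) ((X : ℝ) ^ c) P < η)).card : ℝ) ≤
          ε * (X / M) := by
  obtain ⟨h, hh1, hhδ⟩ := exists_moment δ hδ
  obtain ⟨κ, hκ⟩ : ∃ κ : ℝ, κ = (1 - 4 * η) / 2 := ⟨_, rfl⟩
  have hκ0 : 0 < κ := by rw [hκ]; linarith
  obtain ⟨Q1, hQ1⟩ := tot_small 7 C δ (by norm_num) hC hδ hδ1 h hh1 hhδ κ hκ0
  obtain ⟨Q2, hQ2⟩ := tot_small 768 1 (3 / 4) (by norm_num) (by norm_num) (by norm_num)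
    (by norm_num) 2 (by norm_num) (by norm_num) (ε * κ / 4) (by positivity)
  obtain ⟨Q, hQ1', hQ2'⟩ : ∃ Q : ℕ, Q1 ≤ Q ∧ Q2 ≤ Q := ⟨max Q1 Q2, by omega, by omega⟩
  obtain ⟨K1, hK1⟩ := hQ1 Q hQ1'
  obtain ⟨K2, hK2⟩ := hQ2 Q hQ2'
  obtain ⟨K, hKK1, hKK2, hK17⟩ : ∃ K : ℕ, K1 ≤ K ∧ K2 ≤ K ∧ 17 ≤ K :=
    ⟨max (max K1 K2) 17, by omega, by omega, by omega⟩
  obtain ⟨a, M, hM, hMK, hcl⟩ := exists_class (4 * K) (by omega)
  have hno : ∀ t : ℕ, t ≡ a [MOD M] → ∀ p : ℕ, p.Prime → ord2 p < 4 * K → ¬ Kills t p :=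
    fun t ht => (hcl t ht).2
  refine ⟨a, M, hM, fun t ht => ⟨Nat.odd_iff.2 (hcl t ht).1.1,
    fun k hk => prime_free t (hcl t ht).1 k hk⟩, ?_⟩
  clear hcl
  obtain ⟨X0, hX0⟩ := param_choice2 M hM c hc hc4 (ε * κ / 8) (by positivity)
  refine ⟨X0, fun X hX => ?_⟩
  obtain ⟨Z, hZ1, hZX, hMX, hWZ, hZ4⟩ := hX0 X hX
  have hNc : (X : ℝ) ^ c ≤ (⌈(X : ℝ) ^ c⌉₊ : ℝ) := Nat.le_ceil _
  generalize ⌈(X : ℝ) ^ c⌉₊ = N at hZ4 hNc
  set Bad := (Finset.range X).filter (fun t => t ≡ a [MOD M] ∧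
          ∃ P : Finset ℕ, IsCover (t ^ 4) P ∧
            hiMass2 C δ ((X : ℝ) ^ (2 * c)) ((X : ℝ) ^ c) P < η) with hBad
  have hex : ∀ t : ℕ, ∃ P : Finset ℕ, t ∈ Bad → IsCover (t ^ 4) P ∧
      hiMass2 C δ ((X : ℝ) ^ (2 * c)) ((X : ℝ) ^ c) P < η := by
    intro t
    by_cases ht : t ∈ Bad
    · obtain ⟨P, hP⟩ := (Finset.mem_filter.1 ht).2.2
      exact ⟨P, fun _ => hP⟩
    · exact ⟨∅, fun h => absurd h ht⟩
  choose Pt hPt using hex
  set Y : ℕ := (Bad.sup (fun t => (Pt t).sup (fun p => ord2 p))) + 1 with hY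
  have hYb : ∀ t ∈ Bad, ∀ p ∈ Pt t, ord2 p < Y := by
    intro t ht p hp
    apply Nat.lt_succ_of_le
    exact (Finset.le_sup (f := fun p => ord2 p) hp).trans
      (Finset.le_sup (f := fun t => (Pt t).sup (fun p => ord2 p)) ht)
  have hpt : ∀ t ∈ Bad, κ ≤ tot 2 Q K Y (kR Z t) + 4 * bigMass (4 * K) N Z t := by
    intro t ht
    have htB := ht
    rw [hBad, Finset.mem_filter] at htB
    have := one_t2 C δ c η hC hδ hδ1 h Q K N Y Z X t (by omega) hh1 (hno t htB.2.1) hWZ hNc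
      (Pt t) (hPt t ht).1 (hYb t ht) (hPt t ht).2 (by rw [← hκ]; exact hK1 K hKK1 Y)
    rw [← hκ] at this
    exact this
  have hsub : Bad ⊆ (Finset.range X).filter (fun t => t ≡ a [MOD M]) := by
    intro t ht
    rw [hBad, Finset.mem_filter] at ht
    rw [Finset.mem_filter]
    exact ⟨ht.1, ht.2.1⟩
  have hnn : ∀ t, 0 ≤ tot 2 Q K Y (kR Z t) + 4 * bigMass (4 * K) N Z t := by
    intro t
    have h1 := tot_nonneg 2 Q K Y (kR Z t) (kR_nonneg Z t)
    have h2 := bigMass_nonneg (4 * K) N Z t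
    linarith
  have h1 : (Bad.card : ℝ) * κ ≤
      ∑ t ∈ (Finset.range X).filter (fun t => t ≡ a [MOD M]),
        (tot 2 Q K Y (kR Z t) + 4 * bigMass (4 * K) N Z t) := by
    calc (Bad.card : ℝ) * κ ≤
        ∑ t ∈ Bad, (tot 2 Q K Y (kR Z t) + 4 * bigMass (4 * K) N Z t) := by
          rw [← nsmul_eq_mul]
          exact Finset.card_nsmul_le_sum _ _ _ hpt
      _ ≤ _ := Finset.sum_le_sum_of_subset_of_nonneg hsub fun t _ _ => hnn t
  rw [Finset.sum_add_distrib, ← Finset.mul_sum] at h1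
  have h2 := tot_avg Q K Y M a X Z (by omega) hM hMK hno hZ1 hZX
  have h3 := mul_le_mul_of_nonneg_left (hK2 K hKK2 Y)
    (show (0 : ℝ) ≤ 2 * X / M by positivity)
  have h4 : ∑ t ∈ (Finset.range X).filter (fun t => t ≡ a [MOD M]), bigMass (4 * K) N Z t ≤
      ε * κ / 8 * (X / M) := by
    refine le_trans ?_ hZ4
    have := large_mass (4 * K) M a X Z N hZ1 (by omega) hM hMK
    refine le_trans (le_of_eq ?_) this
    unfold bigMass
    congr!
  have h5 : (2 * (X : ℝ) / M) * (ε * κ / 4) = (ε * (X / M)) * κ / 2 := by ring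
  have h6 : (Bad.card : ℝ) * κ ≤ (ε * (X / M)) * κ := by
    have h7 : 4 * (ε * κ / 8 * ((X : ℝ) / M)) = (ε * (X / M)) * κ / 2 := by ring
    linarith
  exact le_of_mul_le_mul_right h6 hκ0

end Pool.Agent.H56.CV
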