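import Pool.Agent.Helper56.CV.Defs2

/-!
Project CV (MP_2e7a1b_nt), piece ML2.

Variant of mom_le (see ML.lean, whose proof can be copied): now f n <= G * (q^v)^(1-delta) * m^theta for
n = q^v m, q not dividing m.  sum over v >= 1 of (q^v)^(1-delta) q^(-v) = sum q^(-v delta) <=
q^(-delta) / (1 - 2^(-delta)).  No upper bound on theta is needed (it only enters as L^theta).
-/

namespace Pool.Agent.H56.CV

open Finset

private theorem ml2_gpf {n q : ℕ} (hq : q.Prime) (hn : gpf n = q) : n ≠ 0 ∧ q ∣ n := by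
  have hne : n.primeFactors.Nonempty := by
    rw [Finset.nonempty_iff_ne_empty]
    intro he
    have : gpf n = 0 := by simp [gpf, he]
    exact hq.ne_zero (hn.symm.trans this)
  obtain ⟨p, hp, hp'⟩ := Finset.exists_mem_eq_sup n.primeFactors hne id
  have h1 : p = q := by
    rw [← hn]
    exact hp'.symm
  subst h1
  exact ⟨(Nat.mem_primeFactors.1 hp).2.2, (Nat.mem_primeFactors.1 hp).2.1⟩

private theorem ml2_le_gpf {n p : ℕ} (hp : p.Prime) (hn : n ≠ 0) (h : p ∣ n) : p ≤ gpf n :=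
  Finset.le_sup (f := id) (Nat.mem_primeFactors.2 ⟨hp, h, hn⟩)

private theorem ml2_wt (L : ℕ) (hL : L ≠ 0) : wt L ≤ (L.divisors.card : ℝ) / L := by
  unfold wt
  have h1 : (2 : ℕ) ^ L.primeFactors.card ≤ L.divisors.card := by
    rw [Nat.card_divisors hL, ← Finset.prod_const]
    apply Finset.prod_le_prod'
    intro p hp
    have h2 : 0 < L.factorization p :=
      (Nat.mem_primeFactors.1 hp).1.factorization_pos_of_dvd hL (Nat.mem_primeFactors.1 hp).2.1
    omega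
  have h2 : (2 : ℝ) ^ L.primeFactors.card ≤ (L.divisors.card : ℝ) := by exact_mod_cast h1
  gcongr

private theorem ml2_x {q : ℕ} (hq : q.Prime) {δ : ℝ} (hδ : 0 < δ) :
    0 < (q : ℝ) ^ (-δ) ∧ (q : ℝ) ^ (-δ) ≤ (2 : ℝ) ^ (-δ) := by
  have hq2 : (2 : ℝ) ≤ q := by exact_mod_cast hq.two_le
  have hq0 : (0 : ℝ) < q := by linarith
  exact ⟨Real.rpow_pos_of_pos hq0 _,
    Real.rpow_le_rpow_of_nonpos (by norm_num) hq2 (by linarith)⟩

private theorem ml2_two {δ : ℝ} (hδ : 0 < δ) : (2 : ℝ) ^ (-δ) < 1 :=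
  Real.rpow_lt_one_of_one_lt_of_neg (by norm_num) (by linarith)

private theorem ml2_geom {x y : ℝ} (hx0 : 0 < x) (hx : x ≤ y) (hy : y < 1) (N : ℕ) :
    ∑ v ∈ Finset.range N, x ^ (v + 1) ≤ (1 - y)⁻¹ * x := by
  have h1 := geom_sum_mul_neg x N
  have h2 : ∑ v ∈ Finset.range N, x ^ (v + 1) = (∑ v ∈ Finset.range N, x ^ v) * x := by
    rw [Finset.sum_mul]
    exact Finset.sum_congr rfl fun v _ => by ring
  have h3 : 0 ≤ ∑ v ∈ Finset.range N, x ^ v := Finset.sum_nonneg fun v _ => by positivity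
  have h4 : 0 ≤ x ^ N := by positivity
  have h6 : 0 < 1 - y := by linarith
  have h5 : ∑ v ∈ Finset.range N, x ^ v ≤ (1 - y)⁻¹ := by
    rw [← one_div, le_div_iff₀ h6]
    have h7 : (∑ v ∈ Finset.range N, x ^ v) * (1 - y) ≤
        (∑ v ∈ Finset.range N, x ^ v) * (1 - x) :=
      mul_le_mul_of_nonneg_left (by linarith) h3
    linarith
  rw [h2]
  exact mul_le_mul_of_nonneg_right h5 hx0.le

/-- the inner sum -/
private theorem ml2_inner (q K Y L : ℕ) (hq : q.Prime) (hL : L ≠ 0) (f : ℕ → ℝ) (G δ θ : ℝ)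
    (hG : 0 ≤ G) (hδ : 0 < δ) (hθ0 : 0 ≤ θ)
    (hfG : ∀ n, K ≤ n → gpf n = q →
      f n ≤ G * ((ordProj[q] n : ℕ) : ℝ) ^ (1 - δ) * ((ordCompl[q] n : ℕ) : ℝ) ^ θ) :
    ∑ n ∈ ((Finset.Ico K Y).filter (fun n => gpf n = q)).filter (fun n => ordCompl[q] n ∣ L),
      f n * ((q : ℝ) ^ (n.factorization q))⁻¹ ≤
      (L.divisors.card : ℝ) * (G * (L : ℝ) ^ θ) * ((1 - (2 : ℝ) ^ (-δ))⁻¹ * (q : ℝ) ^ (-δ)) := by
  classical
  obtain ⟨hx0, hx⟩ := ml2_x hq hδ
  set x : ℝ := (q : ℝ) ^ (-δ) with hxdef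
  have hq0 : (0 : ℝ) < q := by exact_mod_cast hq.pos
  set T := ((Finset.Ico K Y).filter (fun n => gpf n = q)).filter (fun n => ordCompl[q] n ∣ L)
    with hT
  let g : ℕ → ℕ × ℕ := fun n => (ordCompl[q] n, n.factorization q - 1)
  have hTm : ∀ n ∈ T, K ≤ n ∧ n < Y ∧ gpf n = q ∧ ordCompl[q] n ∣ L ∧ n ≠ 0 ∧
      1 ≤ n.factorization q ∧ n.factorization q ≤ Y := by
    intro n hn
    rw [hT, Finset.mem_filter, Finset.mem_filter, Finset.mem_Ico] at hn
    obtain ⟨h0, h1⟩ := ml2_gpf hq hn.1.2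
    refine ⟨hn.1.1.1, hn.1.1.2, hn.1.2, hn.2, h0, hq.factorization_pos_of_dvd h0 h1, ?_⟩
    exact (Nat.factorization_lt q h0).le.trans hn.1.1.2.le
  have h1 : ∑ n ∈ T, f n * ((q : ℝ) ^ (n.factorization q))⁻¹ ≤
      ∑ n ∈ T, G * (L : ℝ) ^ θ * x ^ ((g n).2 + 1) := by
    apply Finset.sum_le_sum
    intro n hn
    obtain ⟨h1, h2, h3, h4, h5, h6, h7⟩ := hTm n hn
    have h8 : (g n).2 + 1 = n.factorization q := by
      change n.factorization q - 1 + 1 = _
      omega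
    rw [h8]
    have h9 : ((ordProj[q] n : ℕ) : ℝ) ^ (1 - δ) * ((q : ℝ) ^ (n.factorization q))⁻¹ =
        x ^ (n.factorization q) := by
      have e0 : (0 : ℝ) < (q : ℝ) ^ (n.factorization q) := by positivity
      have e1 : ((ordProj[q] n : ℕ) : ℝ) = (q : ℝ) ^ (n.factorization q) := by push_cast; rfl
      rw [e1, hxdef, ← Real.rpow_natCast ((q : ℝ) ^ (-δ)), ← Real.rpow_mul hq0.le,
        mul_comm (-δ), Real.rpow_mul hq0.le, Real.rpow_natCast, ← div_eq_mul_inv,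
        ← Real.rpow_sub_one e0.ne']
      congr 1
      ring
    have h11 : ((ordCompl[q] n : ℕ) : ℝ) ^ θ ≤ (L : ℝ) ^ θ := by
      apply Real.rpow_le_rpow (by positivity) _ hθ0
      exact_mod_cast Nat.le_of_dvd (Nat.pos_of_ne_zero hL) h4
    calc f n * ((q : ℝ) ^ (n.factorization q))⁻¹
        ≤ (G * ((ordProj[q] n : ℕ) : ℝ) ^ (1 - δ) * ((ordCompl[q] n : ℕ) : ℝ) ^ θ) *
          ((q : ℝ) ^ (n.factorization q))⁻¹ :=
          mul_le_mul_of_nonneg_right (hfG n h1 h3) (by positivity)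
      _ = G * ((ordCompl[q] n : ℕ) : ℝ) ^ θ * x ^ (n.factorization q) := by
          rw [← h9]
          ring
      _ ≤ G * (L : ℝ) ^ θ * x ^ (n.factorization q) := by
          gcongr
  refine h1.trans ?_
  have hinj : Set.InjOn g T := by
    intro a ha b hb hab
    obtain ⟨-, -, -, -, -, ha6, -⟩ := hTm a ha
    obtain ⟨-, -, -, -, -, hb6, -⟩ := hTm b hb
    have e1 : ordCompl[q] a = ordCompl[q] b := congrArg Prod.fst hab
    have e2 : a.factorization q - 1 = b.factorization q - 1 := congrArg Prod.snd hab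
    have e3 : a.factorization q = b.factorization q := by omega
    rw [← Nat.ordProj_mul_ordCompl_eq_self a q, ← Nat.ordProj_mul_ordCompl_eq_self b q, e1, e3]
  have h2 : ∑ n ∈ T, G * (L : ℝ) ^ θ * x ^ ((g n).2 + 1) =
      ∑ y ∈ T.image g, G * (L : ℝ) ^ θ * x ^ (y.2 + 1) := by
    rw [Finset.sum_image hinj]
  rw [h2]
  have hsub : T.image g ⊆ L.divisors ×ˢ Finset.range Y := by
    intro y hy
    rw [Finset.mem_image] at hy
    obtain ⟨n, hn, rfl⟩ := hy
    obtain ⟨h1, h2, h3, h4, h5, h6, h7⟩ := hTm n hn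
    rw [Finset.mem_product, Nat.mem_divisors, Finset.mem_range]
    refine ⟨⟨h4, hL⟩, ?_⟩
    change n.factorization q - 1 < Y
    omega
  refine (Finset.sum_le_sum_of_subset_of_nonneg hsub (fun y _ _ => by positivity)).trans ?_
  rw [Finset.sum_product]
  simp only
  rw [Finset.sum_const, nsmul_eq_mul, ← Finset.mul_sum, ← mul_assoc]
  have h3 := ml2_geom hx0 hx (ml2_two hδ) Y
  exact mul_le_mul_of_nonneg_left h3 (by positivity)

theorem mom_le2 (h q K Y : ℕ) (hq : q.Prime) (f : ℕ → ℝ) (hf : ∀ n, 0 ≤ f n) (G δ θ : ℝ)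
    (hG : 0 ≤ G) (hδ : 0 < δ) (hθ0 : 0 ≤ θ)
    (hfG : ∀ n, K ≤ n → gpf n = q →
      f n ≤ G * ((ordProj[q] n : ℕ) : ℝ) ^ (1 - δ) * ((ordCompl[q] n : ℕ) : ℝ) ^ θ) :
    mom h q K Y f ≤ (G * (1 - (2 : ℝ) ^ (-δ))⁻¹ * (q : ℝ) ^ (-δ)) ^ h *
      ∑ L ∈ (Finset.range (Y ^ h + 1)).filter (fun L => L ∈ Nat.smoothNumbers q),
        ((L.divisors.card : ℝ) ^ (h + 1) * (L : ℝ) ^ (h * θ - 1)) := by
  classical
  have hq0 : (0 : ℝ) < q := by exact_mod_cast hq.pos
  obtain ⟨hx0, hx⟩ := ml2_x hq hδ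
  set A := (Finset.Ico K Y).filter (fun n => gpf n = q) with hA
  set S := (Finset.range (Y ^ h + 1)).filter (fun L => L ∈ Nat.smoothNumbers q) with hS
  let F : ℕ → ℝ := fun n => f n * ((q : ℝ) ^ (n.factorization q))⁻¹
  have hF : ∀ n, 0 ≤ F n := fun n => mul_nonneg (hf n) (by positivity)
  have hAm : ∀ n ∈ A, n < Y ∧ gpf n = q ∧ n ≠ 0 := by
    intro n hn
    rw [hA, Finset.mem_filter, Finset.mem_Ico] at hn
    exact ⟨hn.1.2, hn.2, (ml2_gpf hq hn.2).1⟩
  have hdvd : ∀ (ν : Fin h → ℕ) (k : Fin h), ordCompl[q] (ν k) ∣ Lc q ν := fun ν k =>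
    Finset.dvd_lcm (Finset.mem_univ k)
  have hmaps : ∀ ν ∈ Fintype.piFinset (fun _ : Fin h => A), Lc q ν ∈ S := by
    intro ν hν
    rw [Fintype.mem_piFinset] at hν
    have h1 : Lc q ν ∣ ∏ k, ordCompl[q] (ν k) :=
      Finset.lcm_dvd fun k hk => Finset.dvd_prod_of_mem _ hk
    have h2 : 0 < ∏ k, ordCompl[q] (ν k) :=
      Finset.prod_pos fun k _ => Nat.ordCompl_pos q (hAm _ (hν k)).2.2
    rw [hS, Finset.mem_filter, Finset.mem_range]
    constructor
    · have h3 := Nat.le_of_dvd h2 h1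
      have h4 : ∏ k, ordCompl[q] (ν k) ≤ Y ^ h := by
        calc ∏ k, ordCompl[q] (ν k) ≤ ∏ _k : Fin h, Y :=
              Finset.prod_le_prod' fun k _ =>
                (Nat.div_le_self _ _).trans (hAm _ (hν k)).1.le
          _ = Y ^ h := by simp
      omega
    · rw [Nat.mem_smoothNumbers']
      intro p hp hpL
      have h3 : p ∣ ∏ k, ordCompl[q] (ν k) := hpL.trans h1
      obtain ⟨k, -, hk⟩ := (hp.prime.dvd_finsetProd_iff _).1 h3
      have h4 := hAm _ (hν k)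
      have h5 : p ∣ ν k := hk.trans (Nat.ordCompl_dvd (ν k) q)
      have h6 : p ≤ q := by
        rw [← h4.2.1]
        exact ml2_le_gpf hp h4.2.2 h5
      rcases h6.lt_or_eq with h7 | h7
      · exact h7
      · exact absurd (h7 ▸ hk) (Nat.not_dvd_ordCompl hq h4.2.2)
  have hmom : mom h q K Y f = ∑ ν ∈ Fintype.piFinset (fun _ : Fin h => A),
      (∏ k, F (ν k)) * wt (Lc q ν) := by
    unfold mom tw
    apply Finset.sum_congr rfl
    intro ν _
    rw [← mul_assoc, ← Finset.prod_mul_distrib]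
  rw [hmom, ← Finset.sum_fiberwise_of_maps_to hmaps, Finset.mul_sum]
  apply Finset.sum_le_sum
  intro L hL
  have hL0 : L ≠ 0 := by
    rw [hS, Finset.mem_filter, Nat.mem_smoothNumbers] at hL
    exact hL.2.1
  have hL0' : (0 : ℝ) < L := by exact_mod_cast Nat.pos_of_ne_zero hL0
  have hwt0 : 0 ≤ wt L := by unfold wt; positivity
  calc ∑ ν ∈ Fintype.piFinset (fun _ : Fin h => A) with Lc q ν = L, (∏ k, F (ν k)) * wt (Lc q ν)
      = ∑ ν ∈ Fintype.piFinset (fun _ : Fin h => A) with Lc q ν = L, (∏ k, F (ν k)) * wt L := by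
        apply Finset.sum_congr rfl
        intro ν hν
        rw [(Finset.mem_filter.1 hν).2]
    _ = (∑ ν ∈ Fintype.piFinset (fun _ : Fin h => A) with Lc q ν = L, ∏ k, F (ν k)) * wt L := by
        rw [Finset.sum_mul]
    _ ≤ (∑ ν ∈ Fintype.piFinset (fun _ : Fin h => A.filter (fun n => ordCompl[q] n ∣ L)),
          ∏ k, F (ν k)) * wt L := by
        apply mul_le_mul_of_nonneg_right _ hwt0
        apply Finset.sum_le_sum_of_subset_of_nonneg
        · intro ν hν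
          rw [Finset.mem_filter, Fintype.mem_piFinset] at hν
          rw [Fintype.mem_piFinset]
          intro k
          rw [Finset.mem_filter]
          refine ⟨hν.1 k, ?_⟩
          rw [← hν.2]
          exact hdvd ν k
        · intro ν _ _
          exact Finset.prod_nonneg fun k _ => hF _
    _ = (∑ n ∈ A.filter (fun n => ordCompl[q] n ∣ L), F n) ^ h * wt L := by
        rw [← Finset.prod_univ_sum (fun _ : Fin h => A.filter (fun n => ordCompl[q] n ∣ L))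
          (fun _ n => F n)]
        simp
    _ ≤ ((L.divisors.card : ℝ) * (G * (L : ℝ) ^ θ) *
          ((1 - (2 : ℝ) ^ (-δ))⁻¹ * (q : ℝ) ^ (-δ))) ^ h *
          ((L.divisors.card : ℝ) / L) := by
        have hcc : (0 : ℝ) < 1 - (2 : ℝ) ^ (-δ) := by
          have := ml2_two hδ
          linarith
        apply mul_le_mul _ (ml2_wt L hL0) hwt0 (by positivity)
        apply pow_le_pow_left₀ (Finset.sum_nonneg fun n _ => hF n)
        exact ml2_inner q K Y L hq hL0 f G δ θ hG hδ hθ0 hfG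
    _ = (G * (1 - (2 : ℝ) ^ (-δ))⁻¹ * (q : ℝ) ^ (-δ)) ^ h *
          ((L.divisors.card : ℝ) ^ (h + 1) * (L : ℝ) ^ (h * θ - 1)) := by
        rw [Real.rpow_sub_one hL0'.ne', mul_comm (h : ℝ) θ, Real.rpow_mul hL0'.le,
          Real.rpow_natCast]
        ring

end Pool.Agent.H56.CV
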