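import Pool.Agent.Helper56.CV.PDefs

/-!
Project CV (MP_2e7a1b_nt), piece PE.

Event bound.  Induction on j.  Step j -> j+1 (j < m): if the coordinate j is not in T use `av`
with f = indicator of the event; if it is in T, use w_{j+1} <= 2 w_j, and that
w_j * (indicator of the conditions for T minus j) does not depend on coordinate j, so that the condition
x_j in R_j costs exactly |R j| / |F j| (same bijection (x,y) -> (update x j y, x j), or
Fintype.piFinset style counting).
-/

namespace Pool.Agent.H56.CV

open Finset

/-- A condition on one coordinate costs exactly its density. -/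
private theorem PE_coord {m : ℕ} (F : Fin m → Type) [∀ l, Fintype (F l)]
    [∀ l, DecidableEq (F l)] (J : Fin m) (R : Finset (F J)) (g : ((l : Fin m) → F l) → ℝ)
    (hg : ∀ x y, g (Function.update x J y) = g x) :
    (Fintype.card (F J) : ℝ) * ∑ x, (if x J ∈ R then g x else 0) = (R.card : ℝ) * ∑ x, g x := by
  let e : Equiv.Perm (((l : Fin m) → F l) × F J) :=
    { toFun := fun q => (Function.update q.1 J q.2, q.1 J)
      invFun := fun q => (Function.update q.1 J q.2, q.1 J)
      left_inv := fun q => by simp
      right_inv := fun q => by simp }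
  have h1 : ∑ q : ((l : Fin m) → F l) × F J, (if q.1 J ∈ R then g q.1 else 0) =
      ∑ q : ((l : Fin m) → F l) × F J, (if q.2 ∈ R then g q.1 else 0) := by
    rw [← Equiv.sum_comp e]
    refine Finset.sum_congr rfl fun q _ => ?_
    simp only [e, Equiv.coe_fn_mk, Function.update_self, hg]
  rw [Fintype.sum_prod_type, Fintype.sum_prod_type] at h1
  simp only [Finset.sum_const, Finset.card_univ, nsmul_eq_mul] at h1
  rw [Finset.mul_sum, h1, Finset.mul_sum]
  refine Finset.sum_congr rfl fun x _ => ?_
  rw [← Finset.sum_filter, Finset.filter_mem_eq_inter, Finset.univ_inter, Finset.sum_const,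
    nsmul_eq_mul]

theorem event_bound {m : ℕ} (F : Fin m → Type) [∀ l, Fintype (F l)] [∀ l, Nonempty (F l)]
    [∀ l, DecidableEq (F l)] (w : ℕ → ((l : Fin m) → F l) → ℝ) (hw : Wts w)
    (T : Finset (Fin m)) (R : (l : Fin m) → Finset (F l)) (r : Fin m → ℝ)
    (hr : ∀ l ∈ T, ((R l).card : ℝ) ≤ r l * Fintype.card (F l)) (j : ℕ) (hj : j ≤ m)
    (hT : ∀ l ∈ T, (l : ℕ) < j) :
    ∑ x ∈ Finset.univ.filter (fun x : (l : Fin m) → F l => ∀ l ∈ T, x l ∈ R l), w j x ≤
      (∏ l ∈ T, (2 * r l)) * Fintype.card ((l : Fin m) → F l) := by
  induction j generalizing T with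
  | zero =>
    have hT0 : T = ∅ := Finset.eq_empty_of_forall_notMem fun l hl => absurd (hT l hl) (by omega)
    subst hT0
    simp [hw.zero]
  | succ j ih =>
    have hjm : j < m := hj
    let J : Fin m := ⟨j, hjm⟩
    by_cases hJ : J ∈ T
    · have hT' : ∀ l ∈ T.erase J, (l : ℕ) < j := by
        intro l hl
        have h1 := hT l (Finset.mem_of_mem_erase hl)
        have h2 : (l : ℕ) ≠ j := fun h => (Finset.ne_of_mem_erase hl) (Fin.ext h)
        omega
      have hr' : ∀ l ∈ T.erase J, ((R l).card : ℝ) ≤ r l * Fintype.card (F l) := fun l hl =>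
        hr l (Finset.mem_of_mem_erase hl)
      have h0 := ih (T.erase J) hr' hjm.le hT'
      set g : ((l : Fin m) → F l) → ℝ := fun x => if ∀ l ∈ T.erase J, x l ∈ R l then w j x else 0
        with hgdef
      have hg0 : ∀ x, 0 ≤ g x := by
        intro x
        simp only [hgdef]
        split_ifs
        · exact hw.nonneg j x
        · exact le_rfl
      have hg : ∀ x y, g (Function.update x J y) = g x := by
        intro x y
        simp only [hgdef]
        have h1 : (∀ l ∈ T.erase J, Function.update x J y l ∈ R l) ↔
            ∀ l ∈ T.erase J, x l ∈ R l := by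
          refine forall₂_congr fun l hl => ?_
          rw [Function.update_of_ne (Finset.ne_of_mem_erase hl)]
        have h2 : w j (Function.update x J y) = w j x := by
          refine hw.dep j _ _ fun l hl => ?_
          rw [Function.update_of_ne]
          intro h
          rw [h] at hl
          exact lt_irrefl _ hl
        simp only [h1, h2]
      have hgsum : ∑ x, g x =
          ∑ x ∈ Finset.univ.filter (fun x : (l : Fin m) → F l => ∀ l ∈ T.erase J, x l ∈ R l),
            w j x := by
        rw [Finset.sum_filter]
      have hc := PE_coord F J (R J) g hg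
      have hF : (0 : ℝ) < Fintype.card (F J) := by exact_mod_cast Fintype.card_pos
      have hrJ := hr J hJ
      have hrJ0 : 0 ≤ r J := by
        by_contra h
        have h1 : r J * (Fintype.card (F J) : ℝ) < 0 := mul_neg_of_neg_of_pos (not_le.1 h) hF
        have h2 : (0 : ℝ) ≤ (R J).card := Nat.cast_nonneg _
        linarith
      have hS0 : 0 ≤ ∑ x, g x := Finset.sum_nonneg fun x _ => hg0 x
      have hb : ∑ x, (if x J ∈ R J then g x else 0) ≤ r J * ∑ x, g x := by
        have h1 : (Fintype.card (F J) : ℝ) * ∑ x, (if x J ∈ R J then g x else 0) ≤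
            (Fintype.card (F J) : ℝ) * (r J * ∑ x, g x) := by
          rw [hc]
          calc ((R J).card : ℝ) * ∑ x, g x ≤ (r J * Fintype.card (F J)) * ∑ x, g x :=
                mul_le_mul_of_nonneg_right hrJ hS0
            _ = _ := by ring
        exact le_of_mul_le_mul_left h1 hF
      have ha : ∑ x ∈ Finset.univ.filter (fun x : (l : Fin m) → F l => ∀ l ∈ T, x l ∈ R l),
          w (j + 1) x ≤ 2 * ∑ x, (if x J ∈ R J then g x else 0) := by
        rw [Finset.sum_filter, Finset.mul_sum]
        refine Finset.sum_le_sum fun x _ => ?_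
        by_cases hx : ∀ l ∈ T, x l ∈ R l
        · have h1 : ∀ l ∈ T.erase J, x l ∈ R l := fun l hl => hx l (Finset.mem_of_mem_erase hl)
          rw [if_pos hx, if_pos (hx J hJ)]
          simp only [hgdef]
          rw [if_pos h1]
          exact hw.two J x
        · rw [if_neg hx]
          split_ifs
          · exact mul_nonneg (by norm_num) (hg0 x)
          · simp
      rw [← Finset.mul_prod_erase T _ hJ]
      calc _ ≤ 2 * ∑ x, (if x J ∈ R J then g x else 0) := ha
        _ ≤ 2 * (r J * ∑ x, g x) := by linarith
        _ ≤ 2 * (r J * ((∏ l ∈ T.erase J, (2 * r l)) * Fintype.card ((l : Fin m) → F l))) := by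
            have h1 := mul_le_mul_of_nonneg_left (hgsum ▸ h0) hrJ0
            linarith
        _ = _ := by ring
    · have hT' : ∀ l ∈ T, (l : ℕ) < j := by
        intro l hl
        have h1 := hT l hl
        have h2 : (l : ℕ) ≠ j := fun h => hJ (by
          have : l = J := Fin.ext h
          rwa [← this])
        omega
      have h0 := ih T hr hjm.le hT'
      have hav := hw.av J (fun x => if ∀ l ∈ T, x l ∈ R l then 1 else 0) (by
        intro x y hxy
        have h1 : (∀ l ∈ T, x l ∈ R l) ↔ ∀ l ∈ T, y l ∈ R l := by
          refine forall₂_congr fun l hl => ?_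
          rw [hxy l (by
            rw [Fin.lt_def]
            exact hT' l hl)]
        simp only [h1])
      simp only [ite_mul, one_mul, zero_mul] at hav
      rw [Finset.sum_filter]
      rw [Finset.sum_filter] at h0
      exact (le_of_eq hav).trans h0

end Pool.Agent.H56.CV
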