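import Pool.Agent.Helper56.CV.PW2
import Pool.Agent.Helper56.CV.PE

/-!
Project CV (MP_2e7a1b_nt), piece PD2 (two families, variant of PD).

Assembly of exists_weights and event_bound.  B_j = set of x such that some i in s with top i = j
has x l in R i l for all l in T i.  Suppose no x works.  Then
|X| = sum_x w_m(x) (av with f = 1) <= sum_j sum_{B_j} w_m + sum_{i in u} sum_{E_i} w_m,
sum_{B_j} w_m = sum_{B_j} w_{j+1} (av again for all later steps) <= 2^h sum_x w_j al^h, and
al(x) <= sum over i in s with top i = j of rho i j * [x l in R i l for all l in T i minus j], so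
al^h <= sum over phi of prod_k rho (phi k) j * [for all k, l in T (phi k) minus j : x l in R (phi k) l]
and the event is contained in the product event with R' l = R (phi k_l) l, k_l from hsigma;
event_bound gives |X| * prod (2 sigma).
-/

namespace Pool.Agent.H56.CV

open Finset

/-- The event of the index `i`. -/
private noncomputable def pd_E {m : ℕ} {F : Fin m → Type} [∀ l, Fintype (F l)]
    [∀ l, DecidableEq (F l)] {ι : Type} (T : ι → Finset (Fin m))
    (R : ι → (l : Fin m) → Finset (F l)) (i : ι) : Finset ((l : Fin m) → F l) :=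
  Finset.univ.filter fun x => ∀ l ∈ T i, x l ∈ R i l

/-- The union of the events with top `j`. -/
private noncomputable def pd_B {m : ℕ} {F : Fin m → Type} [∀ l, Fintype (F l)]
    [∀ l, DecidableEq (F l)] {ι : Type} [DecidableEq ι] (s : Finset ι) (T : ι → Finset (Fin m))
    (R : ι → (l : Fin m) → Finset (F l)) (top : ι → Fin m) (j : Fin m) :
    Finset ((l : Fin m) → F l) :=
  Finset.univ.filter fun x => ∃ i ∈ s, top i = j ∧ ∀ l ∈ T i, x l ∈ R i l

private lemma pd_total {m : ℕ} {F : Fin m → Type} [∀ l, Fintype (F l)] [∀ l, DecidableEq (F l)]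
    (w : ℕ → ((l : Fin m) → F l) → ℝ) (hw : Wts w) (j : ℕ) (hj : j ≤ m) :
    ∑ x, w j x = (Fintype.card ((l : Fin m) → F l) : ℝ) := by
  induction j with
  | zero => simp [hw.zero]
  | succ k ih =>
    have h1 := hw.av ⟨k, hj⟩ (fun _ => 1) (fun _ _ _ => rfl)
    simp only [one_mul] at h1
    rw [h1, ih (by omega)]

private lemma pd_keep {m : ℕ} {F : Fin m → Type} [∀ l, Fintype (F l)] [∀ l, DecidableEq (F l)]
    (w : ℕ → ((l : Fin m) → F l) → ℝ) (hw : Wts w) (A : Finset ((l : Fin m) → F l)) (j : Fin m)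
    (hA : ∀ x y : (l : Fin m) → F l, (∀ l ≤ j, x l = y l) → (x ∈ A ↔ y ∈ A))
    (k : ℕ) (hk : k ≤ m) (hjk : (j : ℕ) + 1 ≤ k) :
    ∑ x ∈ A, w k x = ∑ x ∈ A, w ((j : ℕ) + 1) x := by
  induction k, hjk using Nat.le_induction with
  | base => rfl
  | succ k hjk ih =>
    rw [← ih (by omega)]
    have h1 := hw.av ⟨k, hk⟩ (fun x => if x ∈ A then 1 else 0) (fun x y hxy => by
      have : x ∈ A ↔ y ∈ A := hA x y (fun l hl => hxy l (by
        rw [Fin.lt_def]
        have : (l : ℕ) ≤ j := hl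
        simp only
        omega))
      simp only [this])
    simpa [Finset.sum_ite_mem, ite_mul] using h1

private lemma pd_al {m : ℕ} {F : Fin m → Type} [∀ l, Fintype (F l)] [∀ l, Nonempty (F l)]
    [∀ l, DecidableEq (F l)] {ι : Type} [DecidableEq ι] (s : Finset ι) (T : ι → Finset (Fin m))
    (R : ι → (l : Fin m) → Finset (F l)) (top : ι → Fin m) (htop : ∀ i ∈ s, top i ∈ T i)
    (ρ : ι → Fin m → ℝ)
    (hρ : ∀ i ∈ s, ∀ l ∈ T i, ((R i l).card : ℝ) ≤ ρ i l * Fintype.card (F l))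
    (j : Fin m) (x : (l : Fin m) → F l) :
    al (pd_B s T R top j) j x ≤ ∑ i ∈ s.filter (fun i => top i = j),
      ρ i j * (if ∀ l ∈ (T i).erase j, x l ∈ R i l then 1 else 0) := by
  have hF : (0 : ℝ) < Fintype.card (F j) := by
    exact_mod_cast Fintype.card_pos
  unfold al
  rw [div_le_iff₀ hF, Finset.sum_mul]
  have hsub : (Finset.univ.filter fun y : F j => Function.update x j y ∈ pd_B s T R top j) ⊆
      (s.filter (fun i => top i = j)).biUnion fun i =>
        if ∀ l ∈ (T i).erase j, x l ∈ R i l then R i j else ∅ := by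
    intro y hy
    rw [Finset.mem_filter] at hy
    have h2 := hy.2
    unfold pd_B at h2
    rw [Finset.mem_filter] at h2
    obtain ⟨_, i, his, hij, hi⟩ := h2
    rw [Finset.mem_biUnion]
    refine ⟨i, Finset.mem_filter.2 ⟨his, hij⟩, ?_⟩
    have hj : j ∈ T i := by rw [← hij]; exact htop i his
    have hc : ∀ l ∈ (T i).erase j, x l ∈ R i l := by
      intro l hl
      rw [Finset.mem_erase] at hl
      have := hi l hl.2
      rwa [Function.update_of_ne hl.1] at this
    rw [if_pos hc]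
    have := hi j hj
    rwa [Function.update_self] at this
  have hcard := (Finset.card_le_card hsub).trans Finset.card_biUnion_le
  have hcard' : ((Finset.univ.filter fun y : F j =>
      Function.update x j y ∈ pd_B s T R top j).card : ℝ) ≤
      ∑ i ∈ s.filter (fun i => top i = j),
        ((if ∀ l ∈ (T i).erase j, x l ∈ R i l then R i j else ∅ : Finset (F j)).card : ℝ) := by
    exact_mod_cast hcard
  refine hcard'.trans (Finset.sum_le_sum fun i hi => ?_)
  rw [Finset.mem_filter] at hi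
  have hj : j ∈ T i := by rw [← hi.2]; exact htop i hi.1
  split_ifs with hc
  · simpa using hρ i hi.1 j hj
  · simp

private lemma pd_mom {m : ℕ} {F : Fin m → Type} [∀ l, Fintype (F l)] [∀ l, Nonempty (F l)]
    [∀ l, DecidableEq (F l)] (w : ℕ → ((l : Fin m) → F l) → ℝ) (hw : Wts w)
    {ι : Type} [DecidableEq ι] (s : Finset ι)
    (T : ι → Finset (Fin m)) (R : ι → (l : Fin m) → Finset (F l)) (top : ι → Fin m)
    (htop : ∀ i ∈ s, top i ∈ T i) (hle : ∀ i ∈ s, ∀ l ∈ T i, l ≤ top i)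
    (ρ : ι → Fin m → ℝ)
    (hρ : ∀ i ∈ s, ∀ l ∈ T i, ((R i l).card : ℝ) ≤ ρ i l * Fintype.card (F l))
    (h : ℕ) (hh : 1 ≤ h) (σ : (Fin h → ι) → Fin m → ℝ)
    (hσ : ∀ φ : Fin h → ι, (∀ k, φ k ∈ s) → ∀ l, (∃ k, l ∈ T (φ k)) →
      ∃ k, l ∈ T (φ k) ∧ ρ (φ k) l ≤ σ φ l) (j : Fin m) :
    ∑ x, w j x * (al (pd_B s T R top j) j x) ^ h ≤
      (∑ φ ∈ Fintype.piFinset (fun _ : Fin h => s.filter (fun i => top i = j)),
        (∏ k, ρ (φ k) j) *
          ∏ l ∈ (Finset.univ.biUnion fun k => T (φ k)).erase j, (2 * σ φ l)) *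
        (Fintype.card ((l : Fin m) → F l) : ℝ) := by
  have h1 : ∀ x, w j x * (al (pd_B s T R top j) j x) ^ h ≤ ∑ φ ∈ Fintype.piFinset
      (fun _ : Fin h => s.filter (fun i => top i = j)),
      (∏ k, ρ (φ k) j) *
        (w j x * ∏ k, (if ∀ l ∈ (T (φ k)).erase j, x l ∈ R (φ k) l then (1 : ℝ) else 0)) := by
    intro x
    have h2 : (al (pd_B s T R top j) j x) ^ h ≤ (∑ i ∈ s.filter (fun i => top i = j),
        ρ i j * (if ∀ l ∈ (T i).erase j, x l ∈ R i l then 1 else 0)) ^ h := by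
      refine pow_le_pow_left₀ ?_ (pd_al s T R top htop ρ
        hρ j x) h
      unfold al
      positivity
    have h3 : (∑ i ∈ s.filter (fun i => top i = j),
        ρ i j * (if ∀ l ∈ (T i).erase j, x l ∈ R i l then (1 : ℝ) else 0)) ^ h =
        ∑ φ ∈ Fintype.piFinset (fun _ : Fin h => s.filter (fun i => top i = j)),
          (∏ k, ρ (φ k) j) *
            ∏ k, (if ∀ l ∈ (T (φ k)).erase j, x l ∈ R (φ k) l then (1 : ℝ) else 0) := by
      have h4 := Finset.prod_univ_sum (fun _ : Fin h => s.filter (fun i => top i = j))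
        (fun (_ : Fin h) i => ρ i j * (if ∀ l ∈ (T i).erase j, x l ∈ R i l then (1 : ℝ) else 0))
      rw [Finset.prod_const, Finset.card_univ, Fintype.card_fin] at h4
      rw [h4]
      refine Finset.sum_congr rfl fun φ _ => ?_
      rw [Finset.prod_mul_distrib]
    refine (mul_le_mul_of_nonneg_left (h2.trans h3.le) (hw.nonneg _ x)).trans ?_
    rw [Finset.mul_sum]
    refine Finset.sum_le_sum fun φ _ => le_of_eq ?_
    ring
  refine (Finset.sum_le_sum fun x _ => h1 x).trans ?_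
  rw [Finset.sum_comm, Finset.sum_mul]
  refine Finset.sum_le_sum fun φ hφ => ?_
  rw [← Finset.mul_sum, mul_assoc]
  rw [Fintype.mem_piFinset] at hφ
  have hφs : ∀ k, φ k ∈ s := fun k => (Finset.mem_filter.1 (hφ k)).1
  have hφj : ∀ k, top (φ k) = j := fun k => (Finset.mem_filter.1 (hφ k)).2
  have hρ0 : ∀ k, 0 ≤ ρ (φ k) j := by
    intro k
    have hj : j ∈ T (φ k) := by
      have := htop (φ k) (hφs k)
      rwa [hφj k] at this
    have h5 := hρ (φ k) (hφs k) j hj
    have hF : (0 : ℝ) < Fintype.card (F j) := by exact_mod_cast Fintype.card_pos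
    have h6 : (0 : ℝ) ≤ ρ (φ k) j * Fintype.card (F j) := (Nat.cast_nonneg _).trans h5
    exact nonneg_of_mul_nonneg_left h6 hF
  refine mul_le_mul_of_nonneg_left ?_ (Finset.prod_nonneg fun k _ => hρ0 k)
  -- choose the index for each coordinate
  have hch : ∀ l : Fin m, ∃ k : Fin h, (∃ k, l ∈ T (φ k)) →
      (l ∈ T (φ k) ∧ ρ (φ k) l ≤ σ φ l) := by
    intro l
    by_cases hl : ∃ k, l ∈ T (φ k)
    · obtain ⟨k, hk⟩ := hσ φ hφs l hl
      exact ⟨k, fun _ => hk⟩
    · exact ⟨⟨0, hh⟩, fun hl' => absurd hl' hl⟩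
  choose κ hκ using hch
  have hmemU : ∀ l, l ∈ (Finset.univ.biUnion fun k => T (φ k)).erase j →
      l ≠ j ∧ ∃ k, l ∈ T (φ k) := by
    intro l hl
    rw [Finset.mem_erase, Finset.mem_biUnion] at hl
    obtain ⟨h7, k, _, h8⟩ := hl
    exact ⟨h7, k, h8⟩
  have hev := event_bound F w hw ((Finset.univ.biUnion fun k => T (φ k)).erase j)
    (fun l => R (φ (κ l)) l) (σ φ) (fun l hl => by
      obtain ⟨_, hl2⟩ := hmemU l hl
      obtain ⟨h9, h10⟩ := hκ l hl2
      refine (hρ _ (hφs _) l h9).trans ?_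
      exact mul_le_mul_of_nonneg_right h10 (Nat.cast_nonneg _)) j j.2.le (fun l hl => by
      obtain ⟨hl1, k, hl2⟩ := hmemU l hl
      have h11 := hle (φ k) (hφs k) l hl2
      rw [hφj k] at h11
      exact Fin.lt_def.1 (lt_of_le_of_ne h11 hl1))
  refine le_trans ?_ hev
  rw [Finset.sum_filter]
  refine Finset.sum_le_sum fun x _ => ?_
  by_cases hx : ∀ k, ∀ l ∈ (T (φ k)).erase j, x l ∈ R (φ k) l
  · have hx' : ∀ l ∈ (Finset.univ.biUnion fun k => T (φ k)).erase j, x l ∈ R (φ (κ l)) l := by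
      intro l hl
      obtain ⟨hl1, hl2⟩ := hmemU l hl
      exact hx (κ l) l (Finset.mem_erase.2 ⟨hl1, (hκ l hl2).1⟩)
    rw [if_pos hx', Finset.prod_congr rfl (fun k _ => if_pos (hx k)), Finset.prod_const_one,
      mul_one]
  · push Not at hx
    obtain ⟨k, l, hl, hxl⟩ := hx
    have h0 : ∏ k, (if ∀ l ∈ (T (φ k)).erase j, x l ∈ R (φ k) l then (1 : ℝ) else 0) = 0 := by
      refine Finset.prod_eq_zero (Finset.mem_univ k) ?_
      rw [if_neg]
      exact fun hc => hxl (hc l hl)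
    rw [h0, mul_zero]
    split_ifs
    · exact hw.nonneg _ x
    · exact le_rfl

theorem product_distortion2 {m : ℕ} (F : Fin m → Type) [∀ l, Fintype (F l)] [∀ l, Nonempty (F l)]
    [∀ l, DecidableEq (F l)] {ι : Type} [DecidableEq ι] (s1 s2 u : Finset ι)
    (T : ι → Finset (Fin m)) (R : ι → (l : Fin m) → Finset (F l)) (top : ι → Fin m)
    (htop : ∀ i ∈ s1 ∪ s2, top i ∈ T i) (hle : ∀ i ∈ s1 ∪ s2, ∀ l ∈ T i, l ≤ top i)
    (ρ : ι → Fin m → ℝ)
    (hρ : ∀ i ∈ s1 ∪ s2 ∪ u, ∀ l ∈ T i, ((R i l).card : ℝ) ≤ ρ i l * Fintype.card (F l))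
    (h1 h2 : ℕ) (hh1 : 1 ≤ h1) (hh2 : 1 ≤ h2) (σ1 : (Fin h1 → ι) → Fin m → ℝ)
    (σ2 : (Fin h2 → ι) → Fin m → ℝ)
    (hσ1 : ∀ φ : Fin h1 → ι, (∀ k, φ k ∈ s1) → ∀ l, (∃ k, l ∈ T (φ k)) →
      ∃ k, l ∈ T (φ k) ∧ ρ (φ k) l ≤ σ1 φ l)
    (hσ2 : ∀ φ : Fin h2 → ι, (∀ k, φ k ∈ s2) → ∀ l, (∃ k, l ∈ T (φ k)) →
      ∃ k, l ∈ T (φ k) ∧ ρ (φ k) l ≤ σ2 φ l)
    (hsum : ∑ j : Fin m, (4 ^ h1 *
        ∑ φ ∈ Fintype.piFinset (fun _ : Fin h1 => s1.filter (fun i => top i = j)),
          (∏ k, ρ (φ k) j) * ∏ l ∈ (Finset.univ.biUnion fun k => T (φ k)).erase j, (2 * σ1 φ l)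
      + 4 ^ h2 *
        ∑ φ ∈ Fintype.piFinset (fun _ : Fin h2 => s2.filter (fun i => top i = j)),
          (∏ k, ρ (φ k) j) * ∏ l ∈ (Finset.univ.biUnion fun k => T (φ k)).erase j, (2 * σ2 φ l))
      + ∑ i ∈ u, ∏ l ∈ T i, (2 * ρ i l) < 1) :
    ∃ x : (l : Fin m) → F l, ∀ i ∈ s1 ∪ s2 ∪ u, ∃ l ∈ T i, x l ∉ R i l := by
  by_contra hcon
  push Not at hcon
  have hBdep : ∀ j, ∀ x y : (l : Fin m) → F l, (∀ l ≤ j, x l = y l) →
      (x ∈ pd_B (s1 ∪ s2) T R top j ↔ y ∈ pd_B (s1 ∪ s2) T R top j) := by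
    have key : ∀ j, ∀ x y : (l : Fin m) → F l, (∀ l ≤ j, x l = y l) →
        (x ∈ pd_B (s1 ∪ s2) T R top j → y ∈ pd_B (s1 ∪ s2) T R top j) := by
      intro j x y hxy hx
      unfold pd_B at hx ⊢
      rw [Finset.mem_filter] at hx ⊢
      obtain ⟨_, i, his, hij, hi⟩ := hx
      refine ⟨Finset.mem_univ _, i, his, hij, fun l hl => ?_⟩
      rw [← hxy l (by rw [← hij]; exact hle i his l hl)]
      exact hi l hl
    intro j x y hxy
    exact ⟨key j x y hxy, key j y x (fun l hl => (hxy l hl).symm)⟩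
  obtain ⟨w, hw, hwB⟩ := exists_weights2 F (pd_B (s1 ∪ s2) T R top) hBdep
  set N : ℝ := (Fintype.card ((l : Fin m) → F l) : ℝ) with hN
  have hN0 : 0 < N := by
    rw [hN]
    exact_mod_cast Fintype.card_pos
  have hunion : ∀ j, pd_B (s1 ∪ s2) T R top j = pd_B s1 T R top j ∪ pd_B s2 T R top j := by
    intro j
    ext x
    unfold pd_B
    simp only [Finset.mem_filter, Finset.mem_univ, true_and, Finset.mem_union]
    constructor
    · rintro ⟨i, hi | hi, h3, h4⟩
      · exact Or.inl ⟨i, hi, h3, h4⟩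
      · exact Or.inr ⟨i, hi, h3, h4⟩
    · rintro (⟨i, hi, h3, h4⟩ | ⟨i, hi, h3, h4⟩)
      · exact ⟨i, Or.inl hi, h3, h4⟩
      · exact ⟨i, Or.inr hi, h3, h4⟩
  have hal : ∀ j x, al (pd_B (s1 ∪ s2) T R top j) j x ≤
      al (pd_B s1 T R top j) j x + al (pd_B s2 T R top j) j x := by
    intro j x
    have hF : (0 : ℝ) < Fintype.card (F j) := by exact_mod_cast Fintype.card_pos
    unfold al
    rw [← add_div, div_le_div_iff_of_pos_right hF, hunion j]
    have h3 := Finset.card_union_le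
      (Finset.univ.filter fun y : F j => Function.update x j y ∈ pd_B s1 T R top j)
      (Finset.univ.filter fun y : F j => Function.update x j y ∈ pd_B s2 T R top j)
    have h4 : (Finset.univ.filter fun y : F j =>
        Function.update x j y ∈ pd_B s1 T R top j ∪ pd_B s2 T R top j) ⊆
        (Finset.univ.filter fun y : F j => Function.update x j y ∈ pd_B s1 T R top j) ∪
        (Finset.univ.filter fun y : F j => Function.update x j y ∈ pd_B s2 T R top j) := by
      intro y hy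
      simp only [Finset.mem_filter, Finset.mem_union, Finset.mem_univ, true_and] at hy ⊢
      exact hy
    exact_mod_cast (Finset.card_le_card h4).trans h3
  have haln : ∀ (B : Finset ((l : Fin m) → F l)) j x, 0 ≤ al B j x := by
    intro B j x
    unfold al
    positivity
  have hpow : ∀ (a : ℝ) (h : ℕ), 0 ≤ a → 1 ≤ h → max (2 * a - 1 / 2) 0 ≤ (4 * a) ^ h := by
    intro a h ha hh
    apply max_le _ (by positivity)
    rcases le_or_gt a (1 / 4) with h3 | h3
    · have : 0 ≤ (4 * a) ^ h := by positivity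
      linarith
    · calc 2 * a - 1 / 2 ≤ 4 * a := by linarith
        _ = (4 * a) ^ 1 := (pow_one _).symm
        _ ≤ (4 * a) ^ h := pow_le_pow_right₀ (by linarith) hh
  -- the bound for the sum over `B j`
  have hBj : ∀ j : Fin m, ∑ x ∈ pd_B (s1 ∪ s2) T R top j, w m x ≤ (4 ^ h1 *
      ∑ φ ∈ Fintype.piFinset (fun _ : Fin h1 => s1.filter (fun i => top i = j)),
        (∏ k, ρ (φ k) j) *
          ∏ l ∈ (Finset.univ.biUnion fun k => T (φ k)).erase j, (2 * σ1 φ l) + 4 ^ h2 *
      ∑ φ ∈ Fintype.piFinset (fun _ : Fin h2 => s2.filter (fun i => top i = j)),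
        (∏ k, ρ (φ k) j) *
          ∏ l ∈ (Finset.univ.biUnion fun k => T (φ k)).erase j, (2 * σ2 φ l)) * N := by
    intro j
    rw [pd_keep w hw _ j (hBdep j) m le_rfl j.2]
    refine (hwB j).trans ?_
    have m1 := pd_mom w hw s1 T R top (fun i hi => htop i (Finset.mem_union_left _ hi))
      (fun i hi => hle i (Finset.mem_union_left _ hi)) ρ
      (fun i hi => hρ i (Finset.mem_union_left _ (Finset.mem_union_left _ hi))) h1 hh1 σ1 hσ1 j
    have m2 := pd_mom w hw s2 T R top (fun i hi => htop i (Finset.mem_union_right _ hi))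
      (fun i hi => hle i (Finset.mem_union_right _ hi)) ρ
      (fun i hi => hρ i (Finset.mem_union_left _ (Finset.mem_union_right _ hi))) h2 hh2 σ2 hσ2 j
    rw [add_mul, mul_assoc, mul_assoc]
    refine le_trans ?_ (add_le_add (mul_le_mul_of_nonneg_left m1 (by positivity))
      (mul_le_mul_of_nonneg_left m2 (by positivity)))
    rw [Finset.mul_sum, Finset.mul_sum, ← Finset.sum_add_distrib]
    refine Finset.sum_le_sum fun x _ => ?_
    have a1 := haln (pd_B s1 T R top j) j x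
    have a2 := haln (pd_B s2 T R top j) j x
    have p1 := hpow _ h1 a1 hh1
    have p2 := hpow _ h2 a2 hh2
    have h5 : max (2 * al (pd_B (s1 ∪ s2) T R top j) j x - 1) 0 ≤
        (4 * al (pd_B s1 T R top j) j x) ^ h1 + (4 * al (pd_B s2 T R top j) j x) ^ h2 := by
      refine le_trans ?_ (add_le_add p1 p2)
      apply max_le
      · have q1 := le_max_left (2 * al (pd_B s1 T R top j) j x - 1 / 2) 0
        have q2 := le_max_left (2 * al (pd_B s2 T R top j) j x - 1 / 2) 0
        have := hal j x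
        linarith
      · have q1 := le_max_right (2 * al (pd_B s1 T R top j) j x - 1 / 2) 0
        have q2 := le_max_right (2 * al (pd_B s2 T R top j) j x - 1 / 2) 0
        linarith
    calc w j x * max (2 * al (pd_B (s1 ∪ s2) T R top j) j x - 1) 0
        ≤ w j x * ((4 * al (pd_B s1 T R top j) j x) ^ h1 +
          (4 * al (pd_B s2 T R top j) j x) ^ h2) :=
          mul_le_mul_of_nonneg_left h5 (hw.nonneg _ x)
      _ = 4 ^ h1 * (w j x * al (pd_B s1 T R top j) j x ^ h1) +
          4 ^ h2 * (w j x * al (pd_B s2 T R top j) j x ^ h2) := by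
          rw [mul_pow, mul_pow]; ring
  have hEi : ∀ i ∈ u, ∑ x ∈ pd_E T R i, w m x ≤ (∏ l ∈ T i, (2 * ρ i l)) * N := by
    intro i hi
    exact event_bound F w hw (T i) (R i) (ρ i) (hρ i (Finset.mem_union_right _ hi)) m le_rfl
      (fun l _ => l.2)
  have hcover : N ≤ ∑ j : Fin m, ∑ x ∈ pd_B (s1 ∪ s2) T R top j, w m x +
      ∑ i ∈ u, ∑ x ∈ pd_E T R i, w m x := by
    rw [hN, ← pd_total w hw m le_rfl]
    have e1 : ∀ j : Fin m, ∑ x ∈ pd_B (s1 ∪ s2) T R top j, w m x =
        ∑ x, if x ∈ pd_B (s1 ∪ s2) T R top j then w m x else 0 := fun j => by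
      rw [Finset.sum_ite_mem, Finset.univ_inter]
    have e2 : ∀ i, ∑ x ∈ pd_E T R i, w m x = ∑ x, if x ∈ pd_E T R i then w m x else 0 :=
      fun i => by rw [Finset.sum_ite_mem, Finset.univ_inter]
    simp only [e1, e2]
    rw [Finset.sum_comm, Finset.sum_comm (s := u), ← Finset.sum_add_distrib]
    refine Finset.sum_le_sum fun x _ => ?_
    obtain ⟨i, hi, hx⟩ := hcon x
    have n1 : ∀ j : Fin m, 0 ≤ (if x ∈ pd_B (s1 ∪ s2) T R top j then w m x else 0) := fun j => by
      split_ifs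
      · exact hw.nonneg _ x
      · exact le_rfl
    have n2 : ∀ i, 0 ≤ (if x ∈ pd_E T R i then w m x else 0) := fun i => by
      split_ifs
      · exact hw.nonneg _ x
      · exact le_rfl
    rcases Finset.mem_union.1 hi with his | hiu
    · have hxB : x ∈ pd_B (s1 ∪ s2) T R top (top i) := by
        unfold pd_B
        exact Finset.mem_filter.2 ⟨Finset.mem_univ _, i, his, rfl, hx⟩
      have h12 := Finset.single_le_sum (f := fun j => if x ∈ pd_B (s1 ∪ s2) T R top j then w m x else 0)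
        (fun j _ => n1 j) (Finset.mem_univ (top i))
      have h13 : 0 ≤ ∑ i ∈ u, if x ∈ pd_E T R i then w m x else 0 :=
        Finset.sum_nonneg fun i _ => n2 i
      simp only [if_pos hxB] at h12
      linarith
    · have hxE : x ∈ pd_E T R i := by
        unfold pd_E
        exact Finset.mem_filter.2 ⟨Finset.mem_univ _, hx⟩
      have h12 := Finset.single_le_sum (f := fun i => if x ∈ pd_E T R i then w m x else 0)
        (fun i _ => n2 i) hiu
      have h13 : 0 ≤ ∑ j : Fin m, if x ∈ pd_B (s1 ∪ s2) T R top j then w m x else 0 :=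
        Finset.sum_nonneg fun j _ => n1 j
      simp only [if_pos hxE] at h12
      linarith
  have h14 := hcover.trans (add_le_add (Finset.sum_le_sum fun j _ => hBj j)
    (Finset.sum_le_sum fun i hi => hEi i hi))
  rw [← Finset.sum_mul, ← Finset.sum_mul, ← add_mul] at h14
  have h15 := mul_lt_mul_of_pos_right hsum hN0
  linarith

end Pool.Agent.H56.CV
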