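import Pool.Agent.Helper56.CV.Defs

/-!
Project CV: product spaces and weights.
-/

namespace Pool.Agent.H56.CV

open Finset

variable {m : ℕ} {F : Fin m → Type}

/-- Density of the fibre of `B` in direction `j` through `x`. -/
noncomputable def al [∀ l, Fintype (F l)] [∀ l, DecidableEq (F l)]
    (B : Finset ((l : Fin m) → F l)) (j : Fin m) (x : (l : Fin m) → F l) : ℝ :=
  ((Finset.univ.filter fun y : F j => Function.update x j y ∈ B).card : ℝ) / Fintype.card (F j)

/-- Sequences of weights on the product space, the `j`-th depending only on the coordinates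
below `j`. -/
structure Wts [∀ l, Fintype (F l)] [∀ l, DecidableEq (F l)]
    (w : ℕ → ((l : Fin m) → F l) → ℝ) : Prop where
  zero : ∀ x, w 0 x = 1
  nonneg : ∀ j x, 0 ≤ w j x
  dep : ∀ (j : ℕ) (x y : (l : Fin m) → F l), (∀ l : Fin m, (l : ℕ) < j → x l = y l) →
    w j x = w j y
  two : ∀ (j : Fin m) x, w ((j : ℕ) + 1) x ≤ 2 * w j x
  av : ∀ (j : Fin m) (f : ((l : Fin m) → F l) → ℝ),
    (∀ x y : (l : Fin m) → F l, (∀ l, l < j → x l = y l) → f x = f y) →
    ∑ x, f x * w ((j : ℕ) + 1) x = ∑ x, f x * w j x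

end Pool.Agent.H56.CV
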