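import Pool.Agent.Helper56.CV.PDefs

/-!
Project CV (MP_2e7a1b_nt), piece PW.

Existence of the distortion weights.  For a set B_j depending only on the coordinates <= j
put a = al (B j) j x (it depends only on the coordinates < j) and
g_j(x) = if a <= 1/2 then (if x in B_j then 0 else 1/(1-a)) else (if x in B_j then (2a-1)/a else 2).
Then 0 <= g_j <= 2, g_j depends only on the coordinates <= j and its mean over the fibre
{update x j y : y} is 1 (if a = 1 there is no x outside B_j in the fibre).
w 0 = 1, w (j+1) x = w j x * g_j x if j < m (and w (j+1) = w j otherwise).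
av : sum_x f(x) w_j(x) g_j(x) = sum_x f(x) w_j(x) * (fibre mean of g_j) = sum_x f(x) w_j(x), because
f * w_j does not depend on coordinate j (sum over x equals (1/|F j|) * sum over x and y of the value at
update x j y; the map (x,y) -> (update x j y, x j) is a bijection).
Last claim: the sum over B_j of w_{j+1} is sum_x w_j(x) * (fibre mean of 1_B g_j) =
sum_x w_j(x) * max(2a-1,0) and max(2a-1,0) <= (2a)^h.
-/

namespace Pool.Agent.H56.CV

open Finset

variable {m : ℕ} {F : Fin m → Type}

/-- Averaging over the fibre in direction `j`. -/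
private theorem sum_fibre [∀ l, Fintype (F l)] [∀ l, DecidableEq (F l)] (j : Fin m)
    (G : ((l : Fin m) → F l) → ℝ) :
    ∑ x, ∑ y : F j, G (Function.update x j y) = (Fintype.card (F j) : ℝ) * ∑ x, G x := by
  have h1 : ∑ x, ∑ y : F j, G (Function.update x j y) =
      ∑ p : ((l : Fin m) → F l) × F j, G (Function.update p.1 j p.2) :=
    (Fintype.sum_prod_type (fun p : ((l : Fin m) → F l) × F j =>
      G (Function.update p.1 j p.2))).symm
  have h2 : ∑ p : ((l : Fin m) → F l) × F j, G (Function.update p.1 j p.2) =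
      ∑ p : ((l : Fin m) → F l) × F j, G p.1 := by
    let e : ((l : Fin m) → F l) × F j ≃ ((l : Fin m) → F l) × F j :=
      { toFun := fun p => (Function.update p.1 j p.2, p.1 j)
        invFun := fun p => (Function.update p.1 j p.2, p.1 j)
        left_inv := fun p => by simp
        right_inv := fun p => by simp }
    exact Fintype.sum_equiv e _ _ (fun p => rfl)
  rw [h1, h2, Fintype.sum_prod_type]
  simp only [sum_const, card_univ, nsmul_eq_mul]
  rw [mul_sum]

/-- If `u` does not depend on coordinate `j`, then `∑ u v` may be computed with the sum of `v` over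
the fibres. -/
private theorem sum_mul_fibre [∀ l, Fintype (F l)] [∀ l, DecidableEq (F l)] [∀ l, Nonempty (F l)]
    (j : Fin m) (u v r : ((l : Fin m) → F l) → ℝ)
    (hu : ∀ x y, u (Function.update x j y) = u x)
    (hr : ∀ x, ∑ y : F j, v (Function.update x j y) = (Fintype.card (F j) : ℝ) * r x) :
    ∑ x, u x * v x = ∑ x, u x * r x := by
  have hc : (0 : ℝ) < (Fintype.card (F j) : ℝ) := by exact_mod_cast Fintype.card_pos
  have h1 := sum_fibre j (fun x => u x * v x)
  have h2 : ∑ x, ∑ y : F j, u (Function.update x j y) * v (Function.update x j y) =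
      (Fintype.card (F j) : ℝ) * ∑ x, u x * r x := by
    rw [mul_sum]
    refine sum_congr rfl fun x _ => ?_
    simp_rw [hu]
    rw [← mul_sum, hr]
    ring
  have h3 : (Fintype.card (F j) : ℝ) * ∑ x, u x * v x =
      (Fintype.card (F j) : ℝ) * ∑ x, u x * r x := by
    rw [← h1, ← h2]
  exact mul_left_cancel₀ hc.ne' h3

/-- The distortion factor. -/
private noncomputable def gw [∀ l, Fintype (F l)] [∀ l, DecidableEq (F l)]
    (B : Finset ((l : Fin m) → F l)) (j : Fin m) (x : (l : Fin m) → F l) : ℝ :=
  if al B j x ≤ 1 / 2 then (if x ∈ B then 0 else 1 / (1 - al B j x))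
  else (if x ∈ B then (2 * al B j x - 1) / al B j x else 2)

private theorem al_nonneg [∀ l, Fintype (F l)] [∀ l, DecidableEq (F l)]
    (B : Finset ((l : Fin m) → F l)) (j : Fin m) (x : (l : Fin m) → F l) : 0 ≤ al B j x := by
  unfold al; positivity

private theorem al_le_one [∀ l, Fintype (F l)] [∀ l, DecidableEq (F l)]
    (B : Finset ((l : Fin m) → F l)) (j : Fin m) (x : (l : Fin m) → F l) : al B j x ≤ 1 := by
  unfold al
  apply div_le_one_of_le₀
  · exact_mod_cast card_le_univ _
  · positivity

private theorem al_update [∀ l, Fintype (F l)] [∀ l, DecidableEq (F l)]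
    (B : Finset ((l : Fin m) → F l)) (j : Fin m) (x : (l : Fin m) → F l) (z : F j) :
    al B j (Function.update x j z) = al B j x := by
  unfold al
  simp only [Function.update_idem]

private theorem al_dep [∀ l, Fintype (F l)] [∀ l, DecidableEq (F l)]
    (B : Finset ((l : Fin m) → F l)) (j : Fin m)
    (hB : ∀ x y : (l : Fin m) → F l, (∀ l ≤ j, x l = y l) → (x ∈ B ↔ y ∈ B))
    (x y : (l : Fin m) → F l) (hxy : ∀ l < j, x l = y l) : al B j x = al B j y := by
  unfold al
  have h1 : (Finset.univ.filter fun z : F j => Function.update x j z ∈ B) =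
      (Finset.univ.filter fun z : F j => Function.update y j z ∈ B) := by
    ext z
    simp only [mem_filter, mem_univ, true_and]
    apply hB
    intro l hl
    by_cases hlj : l = j
    · subst hlj
      simp
    · rw [Function.update_of_ne hlj, Function.update_of_ne hlj]
      exact hxy l (lt_of_le_of_ne hl hlj)
  rw [h1]

private theorem gw_nonneg [∀ l, Fintype (F l)] [∀ l, DecidableEq (F l)]
    (B : Finset ((l : Fin m) → F l)) (j : Fin m) (x : (l : Fin m) → F l) : 0 ≤ gw B j x := by
  have h0 := al_nonneg B j x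
  have h1 := al_le_one B j x
  unfold gw
  split_ifs with h2 h3 h3
  · exact le_rfl
  · apply div_nonneg zero_le_one
    linarith
  · apply div_nonneg _ h0
    linarith
  · norm_num

private theorem gw_le_two [∀ l, Fintype (F l)] [∀ l, DecidableEq (F l)]
    (B : Finset ((l : Fin m) → F l)) (j : Fin m) (x : (l : Fin m) → F l) : gw B j x ≤ 2 := by
  have h0 := al_nonneg B j x
  have h1 := al_le_one B j x
  unfold gw
  split_ifs with h2 h3 h3
  · norm_num
  · rw [div_le_iff₀ (by linarith)]
    linarith
  · rw [div_le_iff₀ (by linarith)]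
    linarith
  · exact le_rfl

private theorem gw_dep [∀ l, Fintype (F l)] [∀ l, DecidableEq (F l)]
    (B : Finset ((l : Fin m) → F l)) (j : Fin m)
    (hB : ∀ x y : (l : Fin m) → F l, (∀ l ≤ j, x l = y l) → (x ∈ B ↔ y ∈ B))
    (x y : (l : Fin m) → F l) (hxy : ∀ l ≤ j, x l = y l) : gw B j x = gw B j y := by
  unfold gw
  rw [al_dep B j hB x y (fun l hl => hxy l hl.le)]
  have h1 := hB x y hxy
  by_cases hx : x ∈ B
  · have hy : y ∈ B := h1.1 hx
    simp only [hx, hy]
  · have hy : y ∉ B := fun hy => hx (h1.2 hy)
    simp only [hx, hy]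

/-- The sum over a fibre of a function with two values. -/
private theorem sum_two [∀ l, Fintype (F l)] [∀ l, DecidableEq (F l)] [∀ l, Nonempty (F l)]
    (B : Finset ((l : Fin m) → F l)) (j : Fin m) (x : (l : Fin m) → F l) (s t : ℝ) :
    ∑ y : F j, (if Function.update x j y ∈ B then s else t) =
      (Fintype.card (F j) : ℝ) * (al B j x * s + (1 - al B j x) * t) := by
  have hc : (0 : ℝ) < (Fintype.card (F j) : ℝ) := by exact_mod_cast Fintype.card_pos
  rw [sum_ite, sum_const, sum_const, nsmul_eq_mul, nsmul_eq_mul]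
  have h1 : ((Finset.univ.filter fun y : F j => Function.update x j y ∈ B).card : ℝ) =
      (Fintype.card (F j) : ℝ) * al B j x := by
    unfold al
    rw [mul_div_cancel₀ _ hc.ne']
  have h2 : ((Finset.univ.filter fun y : F j => Function.update x j y ∈ B).card : ℝ) +
      ((Finset.univ.filter fun y : F j => ¬ Function.update x j y ∈ B).card : ℝ) =
      (Fintype.card (F j) : ℝ) := by
    have := Finset.card_filter_add_card_filter_not (s := (Finset.univ : Finset (F j)))
      (fun y : F j => Function.update x j y ∈ B)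
    rw [← card_univ]
    exact_mod_cast this
  have h3 : ((Finset.univ.filter fun y : F j => ¬ Function.update x j y ∈ B).card : ℝ) =
      (Fintype.card (F j) : ℝ) * (1 - al B j x) := by
    rw [h1] at h2
    linarith
  rw [h1, h3]
  ring

private theorem gw_mean [∀ l, Fintype (F l)] [∀ l, DecidableEq (F l)] [∀ l, Nonempty (F l)]
    (B : Finset ((l : Fin m) → F l)) (j : Fin m) (x : (l : Fin m) → F l) :
    ∑ y : F j, gw B j (Function.update x j y) = (Fintype.card (F j) : ℝ) * 1 := by
  unfold gw
  simp only [al_update]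
  by_cases h2 : al B j x ≤ 1 / 2
  · simp only [h2, if_true]
    rw [sum_two]
    congr 1
    have : (1 - al B j x) ≠ 0 := by
      intro h
      linarith
    field_simp
    ring
  · simp only [h2, if_false]
    rw [sum_two]
    congr 1
    have : al B j x ≠ 0 := by
      intro h
      rw [h] at h2
      norm_num at h2
    field_simp
    ring

private theorem gw_mean_B [∀ l, Fintype (F l)] [∀ l, DecidableEq (F l)] [∀ l, Nonempty (F l)]
    (B : Finset ((l : Fin m) → F l)) (j : Fin m) (x : (l : Fin m) → F l) :
    ∑ y : F j, (if Function.update x j y ∈ B then gw B j (Function.update x j y) else 0) =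
      (Fintype.card (F j) : ℝ) * (if al B j x ≤ 1 / 2 then 0 else 2 * al B j x - 1) := by
  by_cases h2 : al B j x ≤ 1 / 2
  · have h3 : ∀ y : F j, (if Function.update x j y ∈ B then gw B j (Function.update x j y) else 0)
        = (if Function.update x j y ∈ B then (0 : ℝ) else 0) := by
      intro y
      by_cases h4 : Function.update x j y ∈ B
      · simp only [h4, if_true]
        unfold gw
        rw [al_update]
        simp only [h2, h4, if_true]
      · simp only [h4, if_false]
    rw [sum_congr rfl (fun y _ => h3 y), sum_two]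
    simp only [h2, if_true]
    ring
  · have h3 : ∀ y : F j, (if Function.update x j y ∈ B then gw B j (Function.update x j y) else 0)
        = (if Function.update x j y ∈ B then (2 * al B j x - 1) / al B j x else 0) := by
      intro y
      by_cases h4 : Function.update x j y ∈ B
      · simp only [h4, if_true]
        unfold gw
        rw [al_update]
        simp only [h2, h4, if_true, if_false]
      · simp only [h4, if_false]
    rw [sum_congr rfl (fun y _ => h3 y), sum_two]
    simp only [h2, if_false]
    have : al B j x ≠ 0 := by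
      intro h
      rw [h] at h2
      norm_num at h2
    congr 1
    field_simp
    ring

/-- The weights. -/
private noncomputable def ww [∀ l, Fintype (F l)] [∀ l, DecidableEq (F l)]
    (B : Fin m → Finset ((l : Fin m) → F l)) : ℕ → ((l : Fin m) → F l) → ℝ
  | 0 => fun _ => 1
  | (j + 1) => fun x => if hj : j < m then ww B j x * gw (B ⟨j, hj⟩) ⟨j, hj⟩ x else ww B j x

private theorem ww_succ [∀ l, Fintype (F l)] [∀ l, DecidableEq (F l)]
    (B : Fin m → Finset ((l : Fin m) → F l)) (j : Fin m) (x : (l : Fin m) → F l) :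
    ww B ((j : ℕ) + 1) x = ww B j x * gw (B j) j x := by
  show (if hj : (j : ℕ) < m then ww B j x * gw (B ⟨j, hj⟩) ⟨j, hj⟩ x else ww B j x) = _
  rw [dif_pos j.2]

private theorem ww_nonneg [∀ l, Fintype (F l)] [∀ l, DecidableEq (F l)]
    (B : Fin m → Finset ((l : Fin m) → F l)) (j : ℕ) (x : (l : Fin m) → F l) :
    0 ≤ ww B j x := by
  induction j with
  | zero => exact zero_le_one
  | succ j ih =>
    show 0 ≤ (if hj : (j : ℕ) < m then ww B j x * gw (B ⟨j, hj⟩) ⟨j, hj⟩ x else ww B j x)
    split_ifs with hj
    · exact mul_nonneg ih (gw_nonneg _ _ _)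
    · exact ih

private theorem ww_dep [∀ l, Fintype (F l)] [∀ l, DecidableEq (F l)]
    (B : Fin m → Finset ((l : Fin m) → F l))
    (hB : ∀ j, ∀ x y : (l : Fin m) → F l, (∀ l ≤ j, x l = y l) → (x ∈ B j ↔ y ∈ B j))
    (j : ℕ) (x y : (l : Fin m) → F l) (hxy : ∀ l : Fin m, (l : ℕ) < j → x l = y l) :
    ww B j x = ww B j y := by
  induction j with
  | zero => rfl
  | succ j ih =>
    have ih' := ih (fun l hl => hxy l (by omega))
    show (if hj : (j : ℕ) < m then ww B j x * gw (B ⟨j, hj⟩) ⟨j, hj⟩ x else ww B j x) =
      (if hj : (j : ℕ) < m then ww B j y * gw (B ⟨j, hj⟩) ⟨j, hj⟩ y else ww B j y)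
    split_ifs with hj
    · rw [ih', gw_dep (B ⟨j, hj⟩) ⟨j, hj⟩ (hB ⟨j, hj⟩) x y (fun l hl => hxy l (by
        have : (l : ℕ) ≤ j := hl
        omega))]
    · exact ih'

theorem exists_weights {m : ℕ} (F : Fin m → Type) [∀ l, Fintype (F l)] [∀ l, Nonempty (F l)]
    [∀ l, DecidableEq (F l)] (B : Fin m → Finset ((l : Fin m) → F l))
    (hB : ∀ j, ∀ x y : (l : Fin m) → F l, (∀ l ≤ j, x l = y l) → (x ∈ B j ↔ y ∈ B j))
    (h : ℕ) (hh : 1 ≤ h) :
    ∃ w : ℕ → ((l : Fin m) → F l) → ℝ, Wts w ∧
      ∀ j : Fin m, ∑ x ∈ B j, w ((j : ℕ) + 1) x ≤ 2 ^ h * ∑ x, w j x * (al (B j) j x) ^ h := by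
  have hupd : ∀ (j : Fin m) (x : (l : Fin m) → F l) (y : F j) (l : Fin m), l < j →
      Function.update x j y l = x l := fun j x y l hl => Function.update_of_ne hl.ne _ _
  refine ⟨ww B, ⟨fun x => rfl, ww_nonneg B, ww_dep B hB, fun j x => ?_, fun j f hf => ?_⟩,
    fun j => ?_⟩
  · rw [ww_succ, mul_comm]
    exact mul_le_mul_of_nonneg_right (gw_le_two _ _ _) (ww_nonneg B _ _)
  · have h1 := sum_mul_fibre j (fun x => f x * ww B j x) (gw (B j) j) (fun _ => 1)
      (fun x y => by
        have h2 : f (Function.update x j y) = f x := hf _ _ (hupd j x y)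
        have h3 : ww B j (Function.update x j y) = ww B j x :=
          ww_dep B hB j _ _ (fun l hl => hupd j x y l hl)
        simp only [h2, h3]) (gw_mean (B j) j)
    simp only [mul_one] at h1
    rw [← h1]
    refine sum_congr rfl fun x _ => ?_
    rw [ww_succ]
    ring
  · have h1 := sum_mul_fibre j (fun x => ww B j x)
      (fun x => if x ∈ B j then gw (B j) j x else 0)
      (fun x => if al (B j) j x ≤ 1 / 2 then 0 else 2 * al (B j) j x - 1)
      (fun x y => ww_dep B hB j _ _ (fun l hl => hupd j x y l hl)) (gw_mean_B (B j) j)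
    have h2 : ∑ x ∈ B j, ww B ((j : ℕ) + 1) x =
        ∑ x, ww B j x * (if x ∈ B j then gw (B j) j x else 0) := by
      have h3 : ∑ x, ww B j x * (if x ∈ B j then gw (B j) j x else 0) =
          ∑ x, (if x ∈ B j then ww B j x * gw (B j) j x else 0) := by
        refine sum_congr rfl fun x _ => ?_
        split_ifs
        · rfl
        · rw [mul_zero]
      rw [h3, sum_ite_mem, univ_inter]
      exact sum_congr rfl fun x _ => ww_succ B j x
    rw [h2, h1, mul_sum]
    refine sum_le_sum fun x _ => ?_
    have h0 := al_nonneg (B j) j x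
    have hw := ww_nonneg B j x
    have h4 : (if al (B j) j x ≤ 1 / 2 then 0 else 2 * al (B j) j x - 1) ≤
        (2 * al (B j) j x) ^ h := by
      split_ifs with h5
      · positivity
      · have h6 : (1 : ℝ) ≤ 2 * al (B j) j x := by
          rw [not_le] at h5
          linarith
        calc 2 * al (B j) j x - 1 ≤ 2 * al (B j) j x := by linarith
          _ = (2 * al (B j) j x) ^ 1 := (pow_one _).symm
          _ ≤ (2 * al (B j) j x) ^ h := pow_le_pow_right₀ h6 hh
    calc ww B j x * (if al (B j) j x ≤ 1 / 2 then 0 else 2 * al (B j) j x - 1)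
        ≤ ww B j x * (2 * al (B j) j x) ^ h := mul_le_mul_of_nonneg_left h4 hw
      _ = 2 ^ h * (ww B j x * (al (B j) j x) ^ h) := by rw [mul_pow]; ring

end Pool.Agent.H56.CV
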